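import Pool.Agent.helper40.Signs.Gray

/-! Configurations of closed edges, cuts and the event identity. -/

namespace Pool.Agent.helper40.Signs

open Classical

variable {n : ℕ}

/-- a configuration: `c v i = true` iff the edge at `v` in direction `i` is closed -/
abbrev Cfg (n : ℕ) := Vtx n → Fin n → Bool

def SymC (c : Cfg n) : Prop := ∀ v i, c (fl v i) i = c v i

/-- the cut configuration of a sign vector -/
def cutf (a : Vtx n → Bool) : Cfg n := fun v i => a v ^^ a (fl v i)

def Flat (c : Cfg n) : Prop := ∀ v i j, i ≠ j → par c v i j = false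

/-- closed edges are exactly those containing `v` or `fl v i` -/
def IsETat (c : Cfg n) (v : Vtx n) (i : Fin n) : Prop :=
  ∀ w k, c w k = true ↔ (Has w k v ∨ Has w k (fl v i))

def IsET (c : Cfg n) : Prop := ∃ v i, IsETat c v i

/-- the indicator of the isolated vertices -/
def fullf (c : Cfg n) : Vtx n → Bool := fun x => decide (∀ k, c x k = true)

/-- replace an `ET` configuration by the cut of its two vertices -/
noncomputable def psi (c : Cfg n) : Cfg n := if IsET c then cutf (fullf c) else c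

def Agree (a : Vtx n → Bool) (S : Set (Vtx n)) (c : Cfg n) : Prop :=
  ∀ v i, v ∈ S → fl v i ∈ S → c v i = cutf a v i

/-- `S` induces a connected subgraph (in the form in which it is used) -/
def ConnS (S : Set (Vtx n)) : Prop :=
  ∀ a b : Vtx n → Bool, (∀ v i, v ∈ S → fl v i ∈ S → cutf a v i = cutf b v i) →
    (∀ v ∈ S, a v = b v) ∨ (∀ v ∈ S, a v = !(b v))

/-- `a` is not constant on `S` -/
def NCon (a : Vtx n → Bool) (S : Set (Vtx n)) : Prop := ∃ x ∈ S, ∃ y ∈ S, a x ≠ a y

noncomputable def flipOn (a : Vtx n → Bool) (T : Set (Vtx n)) : Vtx n → Bool :=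
  fun v => if v ∈ T then !(a v) else a v

theorem cutf_sym (a : Vtx n → Bool) : SymC (cutf a) := by
  intro v i
  unfold cutf
  rw [fl_fl, Bool.xor_comm]

theorem cutf_flat (a : Vtx n → Bool) : Flat (cutf a) := by
  intro v i j _
  unfold par cutf
  rw [fl_comm v j i]
  cases a v <;> cases a (fl v i) <;> cases a (fl v j) <;> cases a (fl (fl v i) j) <;> rfl

theorem cutf_not (a : Vtx n → Bool) : cutf (fun v => !(a v)) = cutf a := by
  funext v i
  show ((!(a v)) ^^ (!(a (fl v i)))) = (a v ^^ a (fl v i))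
  cases a v <;> cases a (fl v i) <;> rfl

theorem cutf_congr {a b : Vtx n → Bool} {v : Vtx n} {i : Fin n} (h1 : a v = b v)
    (h2 : a (fl v i) = b (fl v i)) : cutf a v i = cutf b v i := by
  unfold cutf; rw [h1, h2]

theorem cutf_congr_not {a b : Vtx n → Bool} {v : Vtx n} {i : Fin n} (h1 : a v = !(b v))
    (h2 : a (fl v i) = !(b (fl v i))) : cutf a v i = cutf b v i := by
  unfold cutf; rw [h1, h2]
  cases b v <;> cases b (fl v i) <;> rfl

theorem ncon_symm_not {a b : Vtx n → Bool} {S : Set (Vtx n)} (h : ∀ v ∈ S, a v = !(b v))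
    (hb : NCon a S) : NCon b S := by
  obtain ⟨x, hx, y, hy, hxy⟩ := hb
  refine ⟨x, hx, y, hy, fun he => hxy ?_⟩
  rw [h x hx, h y hy, he]

theorem ncon_congr {a b : Vtx n → Bool} {S : Set (Vtx n)} (h : ∀ v ∈ S, a v = b v)
    (hb : NCon a S) : NCon b S := by
  obtain ⟨x, hx, y, hy, hxy⟩ := hb
  refine ⟨x, hx, y, hy, fun he => hxy ?_⟩
  rw [h x hx, h y hy, he]

theorem exists_closed {a : Vtx n → Bool} {S : Set (Vtx n)} (hS : ConnS S) (h : NCon a S) :
    ∃ v i, v ∈ S ∧ fl v i ∈ S ∧ cutf a v i = true := by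
  by_contra hcon
  push Not at hcon
  have := hS a (fun _ => false) (by
    intro v i hv hi
    have h1 := hcon v i hv hi
    simp only [ne_eq, Bool.not_eq_true] at h1
    rw [h1]; rfl)
  obtain ⟨x, hx, y, hy, hxy⟩ := h
  rcases this with h' | h'
  · exact hxy (by rw [h' x hx, h' y hy])
  · exact hxy (by rw [h' x hx, h' y hy])

/-! ### ET configurations -/

theorem exists_ne_dir (hn : 3 ≤ n) (x v w : Vtx n) : ∃ k, fl x k ≠ v ∧ fl x k ≠ w := by
  by_contra hcon
  push Not at hcon
  -- at most one direction for each of `v`, `w`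
  have h3 : ∃ s : Finset (Fin n), (∀ k, k ∈ s) ∧ s.card ≤ 2 := by
    by_cases h1 : ∃ k, fl x k = v
    · obtain ⟨k1, hk1⟩ := h1
      by_cases h2 : ∃ k, fl x k = w
      · obtain ⟨k2, hk2⟩ := h2
        refine ⟨{k1, k2}, fun k => ?_, Finset.card_le_two⟩
        by_cases h : fl x k = v
        · rw [← hk1] at h
          rw [fl_dir h]; simp
        · have h' := hcon k h
          rw [← hk2] at h'
          rw [fl_dir h']; simp
      · push Not at h2
        refine ⟨{k1}, fun k => ?_, by simp⟩
        by_cases h : fl x k = v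
        · rw [← hk1] at h
          rw [fl_dir h]; simp
        · exact absurd (hcon k h) (h2 k)
    · push Not at h1
      by_cases h2 : ∃ k, fl x k = w
      · obtain ⟨k2, hk2⟩ := h2
        refine ⟨{k2}, fun k => ?_, by simp⟩
        have h' := hcon k (h1 k)
        rw [← hk2] at h'
        rw [fl_dir h']; simp
      · push Not at h2
        exact absurd (hcon ⟨0, by omega⟩ (h1 _)) (h2 _)
  obtain ⟨s, hs, hs2⟩ := h3
  have h4 : (Finset.univ : Finset (Fin n)) ⊆ s := fun k _ => hs k
  have h5 := Finset.card_le_card h4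
  rw [Finset.card_univ, Fintype.card_fin] at h5
  omega

theorem fullf_et (hn : 3 ≤ n) {c : Cfg n} {v : Vtx n} {i : Fin n} (h : IsETat c v i) (x : Vtx n) :
    fullf c x = true ↔ (x = v ∨ x = fl v i) := by
  unfold fullf
  rw [decide_eq_true_iff]
  constructor
  · intro hx
    by_contra hcon
    push Not at hcon
    obtain ⟨k, hk1, hk2⟩ := exists_ne_dir hn x v (fl v i)
    have := (h x k).mp (hx k)
    rcases this with (h' | h') | (h' | h')
    · exact hcon.1 h'
    · exact hk1 h'
    · exact hcon.2 h'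
    · exact hk2 h'
  · rintro (hx | hx) k
    · exact (h x k).mpr (Or.inl (Or.inl hx))
    · exact (h x k).mpr (Or.inr (Or.inl hx))

theorem et_not_flat (hn : 3 ≤ n) {c : Cfg n} (h : IsET c) : ¬ Flat c := by
  obtain ⟨v, i, h⟩ := h
  intro hf
  obtain ⟨j, hj⟩ : ∃ j : Fin n, j ≠ i := by
    have : Nontrivial (Fin n) := Fin.nontrivial_iff_two_le.mpr (by omega)
    exact exists_ne i
  have h1 : c v i = true := (h v i).mpr (Or.inl (Or.inl rfl))
  have h2 : c (fl v i) j = true := (h _ _).mpr (Or.inr (Or.inl rfl))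
  have h3 : c v j = true := (h _ _).mpr (Or.inl (Or.inl rfl))
  have h4 : c (fl v j) i = false := by
    by_contra hcon
    rw [Bool.not_eq_false] at hcon
    exact not_has_of hj hj (by rw [fl_same]; simp) ((h _ _).mp hcon)
  have := hf v i j (Ne.symm hj)
  unfold par at this
  rw [h1, h2, h3, h4] at this
  simp at this

theorem et_agree (hn : 3 ≤ n) {c : Cfg n} {v : Vtx n} {i : Fin n} (h : IsETat c v i)
    {R : Set (Vtx n)} (hR : ¬ (v ∈ R ∧ fl v i ∈ R)) : Agree (fullf c) R c := by
  intro x k hx hk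
  have e1 := fullf_et hn h x
  have e2 := fullf_et hn h (fl x k)
  have e3 := h x k
  have hnot : ¬ (fullf c x = true ∧ fullf c (fl x k) = true) := by
    rintro ⟨h1, h2⟩
    rw [e1] at h1
    rw [e2] at h2
    rcases h1 with h1 | h1 <;> rcases h2 with h2 | h2
    · rw [← h1] at h2; exact fl_neq x k h2
    · exact hR ⟨by rw [← h1]; exact hx, by rw [← h2]; exact hk⟩
    · exact hR ⟨by rw [← h2]; exact hk, by rw [← h1]; exact hx⟩
    · rw [← h1] at h2; exact fl_neq x k h2
  have h4 : c x k = true ↔ (fullf c x = true ∨ fullf c (fl x k) = true) := by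
    rw [e1, e2, e3]
    unfold Has
    tauto
  unfold cutf
  revert hnot h4
  cases c x k <;> cases fullf c x <;> cases fullf c (fl x k) <;> simp

theorem psi_flat (hn : 3 ≤ n) {c : Cfg n} (h : Flat c) : psi c = c := by
  unfold psi
  rw [if_neg (fun h' => et_not_flat hn h' h)]

theorem combine {a b : Vtx n → Bool} {S T : Set (Vtx n)} (hST : ∀ v, v ∈ S ↔ v ∉ T)
    (hS : (∀ v ∈ S, a v = b v) ∨ (∀ v ∈ S, a v = !(b v)))
    (hT : (∀ v ∈ T, a v = b v) ∨ (∀ v ∈ T, a v = !(b v))) :
    cutf b = cutf a ∨ cutf b = cutf (flipOn a T) := by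
  rcases hS with hS | hS <;> rcases hT with hT | hT
  · left
    have : a = b := by
      funext v
      by_cases hv : v ∈ T
      · exact hT v hv
      · exact hS v ((hST v).mpr hv)
    rw [this]
  · right
    have : flipOn a T = b := by
      funext v
      unfold flipOn
      by_cases hv : v ∈ T
      · rw [if_pos hv, hT v hv, Bool.not_not]
      · rw [if_neg hv, hS v ((hST v).mpr hv)]
    rw [this]
  · right
    have : flipOn a T = fun v => !(b v) := by
      funext v
      unfold flipOn
      by_cases hv : v ∈ T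
      · rw [if_pos hv, hT v hv]
      · rw [if_neg hv, hS v ((hST v).mpr hv)]
    rw [this, cutf_not]
  · left
    have : a = fun v => !(b v) := by
      funext v
      by_cases hv : v ∈ T
      · exact hT v hv
      · exact hS v ((hST v).mpr hv)
    rw [this, cutf_not]

theorem closed_meets {c : Cfg n} {v : Vtx n} {i : Fin n} (h : IsETat c v i)
    {a : Vtx n → Bool} {S : Set (Vtx n)} (hS : ConnS S) (hN : NCon a S) (hA : Agree a S c) :
    v ∈ S ∨ fl v i ∈ S := by
  obtain ⟨x, k, hx, hk, hxk⟩ := exists_closed hS hN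
  rw [← hA x k hx hk, h x k] at hxk
  rcases hxk with (h' | h') | (h' | h')
  · left; rw [← h']; exact hx
  · left; rw [← h']; exact hk
  · right; rw [← h']; exact hx
  · right; rw [← h']; exact hk

theorem agree_forward (hn : 3 ≤ n) {c : Cfg n} (hc : SymC c) (hna : NoAvoid c)
    {S T : Set (Vtx n)} (hST : ∀ v, v ∈ S ↔ v ∉ T) (hS : ConnS S) (hT : ConnS T)
    {a : Vtx n → Bool} (h1 : NCon a S) (h2 : NCon a T) (hAS : Agree a S c) (hAT : Agree a T c) :
    psi c = cutf a ∨ psi c = cutf (flipOn a T) := by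
  by_cases hf : Flat c
  · rw [psi_flat hn hf]
    obtain ⟨b, hb⟩ := flat_cut c hc hf
    have hcb : c = cutf b := by funext v i; exact hb v i
    rw [hcb] at hAS hAT ⊢
    exact combine hST (hS a b fun v i hv hi => (hAS v i hv hi).symm)
      (hT a b fun v i hv hi => (hAT v i hv hi).symm)
  · have hodd : ∃ v i j, i ≠ j ∧ par c v i j = true := by
      unfold Flat at hf
      push Not at hf
      obtain ⟨v, i, j, hij, h⟩ := hf
      exact ⟨v, i, j, hij, by simpa using h⟩
    obtain ⟨v0, i0, j0, hij0, hodd⟩ := hodd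
    rcases classify hn c hc hna hij0 hodd with ⟨v, hv⟩ | ⟨v, i, hET⟩
    · exfalso
      obtain ⟨x, k, hx, hk, hxk⟩ := exists_closed hS h1
      rw [← hAS x k hx hk] at hxk
      obtain ⟨y, l, hy, hl, hyl⟩ := exists_closed hT h2
      rw [← hAT y l hy hl] at hyl
      have hvS : v ∈ S := by
        rcases hv x k hxk with h | h
        · rw [← h]; exact hx
        · rw [← h]; exact hk
      have hvT : v ∈ T := by
        rcases hv y l hyl with h | h
        · rw [← h]; exact hy
        · rw [← h]; exact hl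
      exact (hST v).mp hvS hvT
    · have hET' : IsETat c v i := hET
      have m1 := closed_meets hET' hS h1 hAS
      have m2 := closed_meets hET' hT h2 hAT
      have nS : ¬ (v ∈ S ∧ fl v i ∈ S) := by
        rintro ⟨g1, g2⟩
        rcases m2 with g | g
        · exact (hST v).mp g1 g
        · exact (hST _).mp g2 g
      have nT : ¬ (v ∈ T ∧ fl v i ∈ T) := by
        rintro ⟨g1, g2⟩
        rcases m1 with g | g
        · exact (hST v).mp g g1
        · exact (hST _).mp g g2
      have aS := et_agree hn hET' nS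
      have aT := et_agree hn hET' nT
      have hpsi : psi c = cutf (fullf c) := by
        unfold psi
        rw [if_pos ⟨v, i, hET'⟩]
      rw [hpsi]
      exact combine hST
        (hS a (fullf c) fun w k hw hk => by rw [← hAS w k hw hk, ← aS w k hw hk])
        (hT a (fullf c) fun w k hw hk => by rw [← hAT w k hw hk, ← aT w k hw hk])

theorem agree_back (hn : 3 ≤ n) {c : Cfg n} (hU : ConnS (Set.univ : Set (Vtx n)))
    {S T : Set (Vtx n)} (hST : ∀ v, v ∈ S ↔ v ∉ T)
    {a : Vtx n → Bool} (h1 : NCon a S) (h2 : NCon a T) (hp : psi c = cutf a) :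
    Agree a S c ∧ Agree a T c := by
  by_cases hET : IsET c
  · obtain ⟨v, i, h⟩ := hET
    have hpsi : psi c = cutf (fullf c) := by
      unfold psi
      rw [if_pos ⟨v, i, h⟩]
    rw [hpsi] at hp
    have hab := hU (fullf c) a (fun w k _ _ => by rw [hp])
    have mem : ∀ R : Set (Vtx n), NCon a R → v ∈ R ∨ fl v i ∈ R := by
      intro R hR
      have hR' : NCon (fullf c) R := by
        rcases hab with hab | hab
        · exact ncon_congr (fun v _ => (hab v (Set.mem_univ _)).symm) hR
        · refine ncon_symm_not (a := a) (b := fullf c) (fun v _ => ?_) hR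
          rw [hab v (Set.mem_univ _), Bool.not_not]
      obtain ⟨x, hx, y, hy, hxy⟩ := hR'
      have : fullf c x = true ∨ fullf c y = true := by
        revert hxy
        cases fullf c x <;> cases fullf c y <;> simp
      rcases this with hh | hh
      · rcases (fullf_et hn h x).mp hh with g | g
        · left; rw [← g]; exact hx
        · right; rw [← g]; exact hx
      · rcases (fullf_et hn h y).mp hh with g | g
        · left; rw [← g]; exact hy
        · right; rw [← g]; exact hy
    have m1 := mem S h1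
    have m2 := mem T h2
    have nS : ¬ (v ∈ S ∧ fl v i ∈ S) := by
      rintro ⟨g1, g2⟩
      rcases m2 with g | g
      · exact (hST v).mp g1 g
      · exact (hST _).mp g2 g
    have nT : ¬ (v ∈ T ∧ fl v i ∈ T) := by
      rintro ⟨g1, g2⟩
      rcases m1 with g | g
      · exact (hST v).mp g g1
      · exact (hST _).mp g g2
    constructor
    · intro w k hw hk
      rw [et_agree hn h nS w k hw hk, hp]
    · intro w k hw hk
      rw [et_agree hn h nT w k hw hk, hp]
  · have hpsi : psi c = c := by unfold psi; rw [if_neg hET]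
    rw [hpsi] at hp
    subst hp
    exact ⟨fun _ _ _ _ => rfl, fun _ _ _ _ => rfl⟩

theorem flipOn_cutf_S {a : Vtx n → Bool} {S T : Set (Vtx n)} (hST : ∀ v, v ∈ S ↔ v ∉ T)
    {v : Vtx n} {i : Fin n} (hv : v ∈ S) (hi : fl v i ∈ S) :
    cutf (flipOn a T) v i = cutf a v i := by
  apply cutf_congr
  · unfold flipOn; rw [if_neg ((hST v).mp hv)]
  · unfold flipOn; rw [if_neg ((hST _).mp hi)]

theorem flipOn_cutf_T {a : Vtx n → Bool} {T : Set (Vtx n)}
    {v : Vtx n} {i : Fin n} (hv : v ∈ T) (hi : fl v i ∈ T) :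
    cutf (flipOn a T) v i = cutf a v i := by
  apply cutf_congr_not
  · unfold flipOn; rw [if_pos hv]
  · unfold flipOn; rw [if_pos hi]

theorem ncon_flip_S {a : Vtx n → Bool} {S T : Set (Vtx n)} (hST : ∀ v, v ∈ S ↔ v ∉ T)
    (h : NCon a S) : NCon (flipOn a T) S := by
  refine ncon_congr (fun v hv => ?_) h
  unfold flipOn; rw [if_neg ((hST v).mp hv)]

theorem ncon_flip_T {a : Vtx n → Bool} {T : Set (Vtx n)} (h : NCon a T) : NCon (flipOn a T) T := by
  refine ncon_symm_not (a := a) (fun v hv => ?_) h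
  unfold flipOn; rw [if_pos hv, Bool.not_not]

theorem agree_back' (hn : 3 ≤ n) {c : Cfg n} (hU : ConnS (Set.univ : Set (Vtx n)))
    {S T : Set (Vtx n)} (hST : ∀ v, v ∈ S ↔ v ∉ T)
    {a : Vtx n → Bool} (h1 : NCon a S) (h2 : NCon a T)
    (hp : psi c = cutf a ∨ psi c = cutf (flipOn a T)) : Agree a S c ∧ Agree a T c := by
  rcases hp with hp | hp
  · exact agree_back hn hU hST h1 h2 hp
  · have := agree_back hn hU hST (ncon_flip_S hST h1) (ncon_flip_T h2) hp
    refine ⟨fun v i hv hi => ?_, fun v i hv hi => ?_⟩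
    · rw [this.1 v i hv hi, flipOn_cutf_S hST hv hi]
    · rw [this.2 v i hv hi, flipOn_cutf_T hv hi]

theorem cutf_flipOn_ne (hU : ConnS (Set.univ : Set (Vtx n))) {a : Vtx n → Bool} {S T : Set (Vtx n)}
    (hST : ∀ v, v ∈ S ↔ v ∉ T) (h1 : S.Nonempty) (h2 : T.Nonempty) :
    cutf a ≠ cutf (flipOn a T) := by
  intro h
  obtain ⟨x, hx⟩ := h1
  obtain ⟨y, hy⟩ := h2
  rcases hU a (flipOn a T) (fun v i _ _ => by rw [h]) with h' | h'
  · have := h' y (Set.mem_univ _)
    unfold flipOn at this
    rw [if_pos hy] at this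
    simp at this
  · have := h' x (Set.mem_univ _)
    unfold flipOn at this
    rw [if_neg ((hST x).mp hx)] at this
    simp at this

/-! ### arcs of the Hamiltonian cycle -/

/-- cyclic Gray code -/
def gc (n k : ℕ) : Vtx n := gray n (k % 2 ^ n)

theorem gc_step (hn : 1 ≤ n) (k : ℕ) : ∃ i, gc n (k + 1) = fl (gc n k) i := by
  unfold gc
  have hpos : 0 < 2 ^ n := by positivity
  have hlt := Nat.mod_lt k hpos
  by_cases h : k % 2 ^ n + 1 < 2 ^ n
  · have : (k + 1) % 2 ^ n = k % 2 ^ n + 1 := by
      rw [Nat.add_mod]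
      have h1 : 1 % 2 ^ n = 1 := Nat.mod_eq_of_lt (by omega)
      rw [h1, Nat.mod_eq_of_lt h]
    rw [this]
    exact gray_step n _ h
  · have h0 : k % 2 ^ n = 2 ^ n - 1 := by omega
    have : (k + 1) % 2 ^ n = 0 := by
      have h1 : (k + 1) % 2 ^ n = (k % 2 ^ n + 1) % 2 ^ n := by simp [Nat.add_mod]
      rw [h1, h0]
      have : 2 ^ n - 1 + 1 = 2 ^ n := by omega
      rw [this, Nat.mod_self]
    rw [this, h0]
    exact gray_close hn

theorem gc_lt {k : ℕ} (h : k < 2 ^ n) : gc n k = gray n k := by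
  unfold gc; rw [Nat.mod_eq_of_lt h]

theorem gc_add (k : ℕ) : gc n (k + 2 ^ n) = gc n k := by
  unfold gc; rw [Nat.add_mod_right]

theorem gc_inj {k l : ℕ} (hk : k < 2 ^ n) (hl : l < 2 ^ n) (h : gc n k = gc n l) : k = l := by
  rw [gc_lt hk, gc_lt hl] at h
  exact gray_inj n k l hk hl h

theorem gc_surj (v : Vtx n) : ∃ k, k < 2 ^ n ∧ gc n k = v := by
  obtain ⟨k, hk, h⟩ := gray_surj n v
  exact ⟨k, hk, by rw [gc_lt hk]; exact h⟩

def Arc (n l r : ℕ) : Set (Vtx n) := {v | ∃ k, l ≤ k ∧ k < r ∧ gc n k = v}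

theorem arc_conn (hn : 1 ≤ n) (l r : ℕ) : ConnS (Arc n l r) := by
  intro a b h
  by_cases hlr : l < r
  · have key : ∀ k, l + k < r → (a (gc n (l + k)) ^^ b (gc n (l + k))) =
        (a (gc n l) ^^ b (gc n l)) := by
      intro k
      induction k with
      | zero => intro _; rfl
      | succ k ih =>
        intro hk
        rw [← ih (by omega)]
        obtain ⟨i, hi⟩ := gc_step hn (l + k)
        have h1 := h (gc n (l + k)) i ⟨l + k, by omega, by omega, rfl⟩
          (by rw [← hi]; exact ⟨l + k + 1, by omega, by omega, rfl⟩)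
        have e : l + (k + 1) = l + k + 1 := by ring
        rw [e, hi]
        unfold cutf at h1
        revert h1
        cases a (gc n (l + k)) <;> cases b (gc n (l + k)) <;> cases a (fl (gc n (l + k)) i) <;>
          cases b (fl (gc n (l + k)) i) <;> simp
    cases hx : (a (gc n l) ^^ b (gc n l))
    · left
      rintro v ⟨k, hk1, hk2, rfl⟩
      have := key (k - l) (by omega)
      rw [show l + (k - l) = k by omega, hx] at this
      revert this
      cases a (gc n k) <;> cases b (gc n k) <;> simp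
    · right
      rintro v ⟨k, hk1, hk2, rfl⟩
      have := key (k - l) (by omega)
      rw [show l + (k - l) = k by omega, hx] at this
      revert this
      cases a (gc n k) <;> cases b (gc n k) <;> simp
  · left
    rintro v ⟨k, hk1, hk2, rfl⟩
    omega

theorem univ_conn (hn : 1 ≤ n) : ConnS (Set.univ : Set (Vtx n)) := by
  have : (Set.univ : Set (Vtx n)) = Arc n 0 (2 ^ n) := by
    ext v
    simp only [Set.mem_univ, true_iff]
    obtain ⟨k, hk, h⟩ := gc_surj v
    exact ⟨k, Nat.zero_le _, hk, h⟩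
  rw [this]
  exact arc_conn hn _ _

/-- the complement of an arc is an arc -/
theorem arc_compl {l r : ℕ} (hl : l ≤ r) (hr : r ≤ 2 ^ n) (v : Vtx n) :
    v ∈ Arc n r (l + 2 ^ n) ↔ v ∉ Arc n l r := by
  constructor
  · rintro ⟨k, hk1, hk2, rfl⟩ ⟨k', hk1', hk2', h⟩
    by_cases hk : k < 2 ^ n
    · have := gc_inj (by omega) hk h
      omega
    · obtain ⟨m, rfl⟩ : ∃ m, k = m + 2 ^ n := ⟨k - 2 ^ n, by omega⟩
      rw [gc_add] at h
      have := gc_inj (by omega) (by omega) h
      omega
  · intro h
    obtain ⟨k, hk, rfl⟩ := gc_surj v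
    by_cases h1 : k < l
    · exact ⟨k + 2 ^ n, by omega, by omega, gc_add k⟩
    · by_cases h2 : k < r
      · exact absurd ⟨k, by omega, h2, rfl⟩ h
      · exact ⟨k, by omega, by omega, rfl⟩

end Pool.Agent.helper40.Signs
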