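import Pool.Agent.helper40.Signs.Final

/-! Connectivity under the reference weights and under the signs model. -/

namespace Pool.Agent.helper40.Signs

open Classical

variable {n : ℕ}

theorem not_ncon_iff (a : Vtx n → Bool) :
    ¬ NCon a Set.univ ↔ (a = (fun _ => true) ∨ a = fun _ => false) := by
  constructor
  · intro h
    have hconst : ∀ x, a x = a (fun _ => false) := by
      intro x
      by_contra hxy
      exact h ⟨x, Set.mem_univ _, _, Set.mem_univ _, hxy⟩
    cases h0 : a (fun _ => false)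
    · right; funext x; rw [hconst x, h0]
    · left; funext x; rw [hconst x, h0]
  · rintro (h | h)
    · rw [h]; exact not_ncon_const true
    · rw [h]; exact not_ncon_const false

theorem ref_conn (hn : 1 ≤ n) (w : Vtx n → Bool → ℝ) :
    ex (refm w) (ind fun c => ¬ Dis c) = ∏ v, w v true + ∏ v, w v false := by
  rw [ex_refm]
  have hne : (fun _ : Vtx n => true) ≠ fun _ => false := by
    intro h
    have := congrFun h (fun _ => false)
    simp at this
  rw [Fintype.sum_eq_add (fun _ : Vtx n => true) (fun _ => false) hne]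
  · rw [ind_true (P := fun c => ¬ Dis c) (by rw [dis_cutf hn]; exact not_ncon_const true),
      ind_true (P := fun c => ¬ Dis c) (by rw [dis_cutf hn]; exact not_ncon_const false),
      mul_one, mul_one]
    rfl
  · rintro a ⟨h1, h2⟩
    rw [ind_false (P := fun c => ¬ Dis c), mul_zero]
    rw [dis_cutf hn, not_ncon_iff]
    rintro (h | h)
    · exact h1 h
    · exact h2 h

theorem ex_compl {m : Cfg n → ℝ} (hm : ∑ c, m c = 1) (P : Cfg n → Prop) :
    ex m (ind fun c => ¬ P c) = 1 - ex m (ind P) := by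
  have h1 : ex m (fun _ => (1 : ℝ)) = 1 := by
    unfold ex; simp only [mul_one]; exact hm
  rw [← h1, ← ex_sub]
  congr 1
  funext c
  by_cases h : P c
  · rw [ind_true h, ind_false (P := fun c => ¬ P c) (fun h' => h' h)]; ring
  · rw [ind_false h, ind_true (P := fun c => ¬ P c) h]; ring

theorem card_pv (hn : 1 ≤ n) (b : Bool) :
    (Finset.univ.filter fun v : Vtx n => pv v = b).card = 2 ^ (n - 1) := by
  have key : ∀ b, (Finset.univ.filter fun v : Vtx n => pv v = b).card =
      (Finset.univ.filter fun v : Vtx n => pv v = !b).card := by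
    intro b
    apply Finset.card_nbij' (fun v => fl v ⟨0, by omega⟩) (fun v => fl v ⟨0, by omega⟩)
    · intro v hv
      rw [Finset.mem_coe, Finset.mem_filter] at hv ⊢
      exact ⟨Finset.mem_univ _, by rw [pv_fl, hv.2]⟩
    · intro v hv
      rw [Finset.mem_coe, Finset.mem_filter] at hv ⊢
      exact ⟨Finset.mem_univ _, by rw [pv_fl, hv.2, Bool.not_not]⟩
    · intro v _; exact fl_fl _ _
    · intro v _; exact fl_fl _ _
  have htot : (Finset.univ.filter fun v : Vtx n => pv v = b).card +
      (Finset.univ.filter fun v : Vtx n => pv v = !b).card = 2 ^ n := by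
    have h1 : (Finset.univ.filter fun v : Vtx n => pv v = !b) =
        (Finset.univ.filter fun v : Vtx n => ¬ pv v = b) := by
      apply Finset.filter_congr
      intro v _
      cases pv v <;> cases b <;> simp
    rw [h1, Finset.card_filter_add_card_filter_not, Finset.card_univ, Fintype.card_fun]
    simp
  rw [← key b] at htot
  have : 2 ^ n = 2 * 2 ^ (n - 1) := by
    rw [← pow_succ']
    congr 1
    omega
  omega

theorem prod_wt (hn : 1 ≤ n) (α β : ℝ) (b : Bool) :
    ∏ v : Vtx n, wt α β v b =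
      ((if b = true then α else 1 - α) * (if b = true then β else 1 - β)) ^ (2 ^ (n - 1)) := by
  have h1 : ∀ v : Vtx n, wt α β v b =
      if pv v = true then (if b = true then β else 1 - β) else (if b = true then α else 1 - α) :=
    fun v => rfl
  rw [Finset.prod_congr rfl fun v _ => h1 v, Finset.prod_ite, Finset.prod_const, Finset.prod_const,
    card_pv hn true]
  have h2 : (Finset.univ.filter fun v : Vtx n => ¬ pv v = true) =
      (Finset.univ.filter fun v : Vtx n => pv v = false) := by
    apply Finset.filter_congr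
    intro v _
    cases pv v <;> simp
  rw [h2, card_pv hn false, mul_pow, mul_comm]

theorem pow_mono_aux {A B x y : ℝ} (hB : 0 ≤ B) (hAB : B ≤ A) (hxy : y - x = A - B)
    (hx : |x| ≤ B) (hy : |y| ≤ A) : ∀ M : ℕ, |y ^ M - x ^ M| ≤ A ^ M - B ^ M := by
  intro M
  induction M with
  | zero => simp
  | succ M ih =>
    have e1 : y ^ (M + 1) - x ^ (M + 1) = y ^ M * (y - x) + x * (y ^ M - x ^ M) := by ring
    have e2 : A ^ (M + 1) - B ^ (M + 1) = A ^ M * (A - B) + B * (A ^ M - B ^ M) := by ring
    rw [e1, e2]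
    refine (abs_add_le _ _).trans (add_le_add ?_ ?_)
    · rw [abs_mul, abs_pow, hxy, abs_of_nonneg (by linarith : 0 ≤ A - B)]
      exact mul_le_mul_of_nonneg_right (pow_le_pow_left₀ (abs_nonneg _) hy M) (by linarith)
    · rw [abs_mul]
      exact mul_le_mul hx ih (abs_nonneg _) hB

/-- the signs model has the smallest connectivity probability among the reference weights -/
theorem signs_best {α β ε δ : ℝ} (hε : ε ≤ 1 / 8) (e0 : 0 ≤ ε) (ha : |α| ≤ 2 * ε)
    (hb : |β| ≤ 2 * ε) (heq : α + β - 2 * α * β = ε) (hδ : 2 * δ * (1 - δ) = ε) (d0 : 0 ≤ δ)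
    (d1 : δ ≤ 1 / 2) (M : ℕ) :
    (δ * δ) ^ M + ((1 - δ) * (1 - δ)) ^ M ≤ (α * β) ^ M + ((1 - α) * (1 - β)) ^ M := by
  set x := α * β with hx
  set y := δ * δ with hy
  have hδε : δ ≤ ε := by nlinarith
  have hA : (1 - α) * (1 - β) = 1 - ε - x := by rw [hx, ← heq]; ring
  have hB : (1 - δ) * (1 - δ) = 1 - ε - y := by rw [hy, ← hδ]; ring
  have hxa : |x| ≤ 1 / 16 := by
    rw [hx, abs_mul]
    calc |α| * |β| ≤ (2 * ε) * (2 * ε) := mul_le_mul ha hb (abs_nonneg _) (by linarith)
      _ ≤ 1 / 16 := by nlinarith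
  have hx' := abs_le.mp hxa
  have hy0 : 0 ≤ y := by positivity
  have hy1 : y ≤ 1 / 64 := by
    rw [hy]; nlinarith
  have hxy : x ≤ y := by
    by_contra hcon
    push Not at hcon
    have g1 : 0 ≤ (ε + 2 * x) ^ 2 - 4 * x := by
      have : (ε + 2 * x) ^ 2 - 4 * x = (α - β) ^ 2 := by
        rw [hx, ← heq]; ring
      rw [this]; positivity
    have g2 : (ε + 2 * y) ^ 2 - 4 * y = 0 := by
      rw [hy, ← hδ]; ring
    have g3 : (x - y) * (1 - ε - x - y) > 0 := mul_pos (by linarith) (by linarith [hx'.2])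
    nlinarith
  have key := pow_mono_aux (A := 1 - ε - x) (B := 1 - ε - y) (x := x) (y := y)
    (by linarith) (by linarith) (by ring) (by rw [abs_le]; constructor <;> linarith [hx'.1, hx'.2])
    (by rw [abs_of_nonneg hy0]; linarith [hx'.2]) M
  rw [hA, hB]
  have := (abs_le.mp key).2
  linarith

/-- the main inequality on configurations -/
theorem main_cfg (hn : 3 ≤ n) {m : Cfg n → ℝ} (hm : Good m) {θ ε : ℝ} (h1 : 1 / 2 ≤ θ)
    (h2 : θ ≤ 1) (hθ : 2 * θ * (1 - θ) = ε) (hε : Small n ε) (hcl : ∀ v i, pcl m v i ≤ ε) :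
    ex (refm (wt θ θ)) (ind fun c : Cfg n => ¬ Dis c) ≤ ex m (ind fun c => ¬ Dis c) := by
  have e0 : 0 ≤ ε := by rw [← hθ]; nlinarith
  obtain ⟨α, β, hP, hD⟩ := main_dis hn hm e0 hε hcl
  have hs := hP.small Nat.one_le_two_pow
  have c1 := ex_compl hm.total Dis
  have c2 := ex_compl (refm_total (wt α β) (wt_sum α β)) (Dis (n := n))
  have c3 : ex (refm (wt α β)) (ind fun c : Cfg n => ¬ Dis c) ≤ ex m (ind fun c => ¬ Dis c) := by
    rw [c1, c2]; linarith
  refine le_trans ?_ c3
  rw [ref_conn (by omega), ref_conn (by omega), prod_wt (by omega), prod_wt (by omega),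
    prod_wt (by omega), prod_wt (by omega)]
  simp only [if_true, Bool.false_eq_true, if_false]
  have := signs_best hs e0 (by rw [abs_of_nonneg hP.a0]; exact hP.a1) hP.b1 hP.eq (δ := 1 - θ)
    (by rw [← hθ]; ring) (by linarith) (by linarith) (2 ^ (n - 1))
  rw [sub_sub_cancel] at this
  linarith

end Pool.Agent.helper40.Signs
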