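import Mathlib

/-! Combinatorics of the hypercube: faces, classification of closed sets of edges. -/

namespace Pool.Agent.helper40.Signs

/-- vertices of the hypercube -/
abbrev Vtx (n : ℕ) := Fin n → Bool

/-- flip coordinate `i` -/
def fl {n : ℕ} (v : Vtx n) (i : Fin n) : Vtx n := fun j => (v j) ^^ (decide (j = i))

variable {n : ℕ}

theorem fl_same (v : Vtx n) (i : Fin n) : fl v i i = !(v i) := by simp [fl]

theorem fl_ne (v : Vtx n) {i j : Fin n} (h : j ≠ i) : fl v i j = v j := by simp [fl, h]

theorem fl_fl (v : Vtx n) (i : Fin n) : fl (fl v i) i = v := by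
  funext j; simp [fl]

theorem fl_comm (v : Vtx n) (i j : Fin n) : fl (fl v i) j = fl (fl v j) i := by
  funext k
  simp only [fl]
  cases v k <;> cases decide (k = i) <;> cases decide (k = j) <;> rfl

theorem fl_neq (v : Vtx n) (i : Fin n) : fl v i ≠ v := by
  intro h
  have := congrFun h i
  rw [fl_same] at this
  simp at this

theorem fl_inj {v w : Vtx n} {i : Fin n} (h : fl v i = fl w i) : v = w := by
  rw [← fl_fl v i, h, fl_fl]

theorem fl_dir {v : Vtx n} {i j : Fin n} (h : fl v i = fl v j) : i = j := by
  by_contra hij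
  have := congrFun h i
  rw [fl_same, fl_ne v hij] at this
  simp at this

/-- parity of a face -/
def par (c : Vtx n → Fin n → Bool) (v : Vtx n) (i j : Fin n) : Bool :=
  (c v i ^^ c (fl v i) j) ^^ (c (fl v j) i ^^ c v j)

/-- the vertex `x` lies on the face `(v;i,j)` -/
def OnFace (x v : Vtx n) (i j : Fin n) : Prop :=
  x = v ∨ x = fl v i ∨ x = fl v j ∨ x = fl (fl v i) j

theorem par_comm (c : Vtx n → Fin n → Bool) (v : Vtx n) (i j : Fin n) :
    par c v j i = par c v i j := by
  unfold par
  cases c v i <;> cases c v j <;> cases c (fl v i) j <;> cases c (fl v j) i <;> rfl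

theorem par_fl_left (c : Vtx n → Fin n → Bool) (hc : ∀ v i, c (fl v i) i = c v i)
    (v : Vtx n) (i j : Fin n) : par c (fl v i) i j = par c v i j := by
  unfold par
  rw [hc, fl_fl, fl_comm v i j, hc]
  cases c v i <;> cases c v j <;> cases c (fl v i) j <;> cases c (fl v j) i <;> rfl

theorem par_fl_right (c : Vtx n → Fin n → Bool) (hc : ∀ v i, c (fl v i) i = c v i)
    (v : Vtx n) (i j : Fin n) : par c (fl v j) i j = par c v i j := by
  rw [par_comm c (fl v j) j i, par_fl_left c hc v j i, par_comm]

/-- the coboundary of the parity vanishes -/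
theorem par_cube (c : Vtx n → Fin n → Bool)
    (v : Vtx n) (i j k : Fin n) :
    ((par c v i j ^^ par c (fl v k) i j) ^^ (par c v i k ^^ par c (fl v j) i k)) ^^
      (par c v j k ^^ par c (fl v i) j k) = false := by
  unfold par
  rw [fl_comm v k i, fl_comm v k j, fl_comm v j i]
  cases c v i <;> cases c v j <;> cases c v k <;> cases c (fl v i) j <;> cases c (fl v i) k <;>
    cases c (fl v j) i <;> cases c (fl v j) k <;> cases c (fl v k) i <;> cases c (fl v k) j <;>
    cases c (fl (fl v i) j) k <;> cases c (fl (fl v i) k) j <;> cases c (fl (fl v j) k) i <;> rfl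

theorem onFace_coord {x v : Vtx n} {i j k : Fin n} (h : OnFace x v i j) (hi : k ≠ i) (hj : k ≠ j) :
    x k = v k := by
  rcases h with h | h | h | h <;> subst h
  · rfl
  · exact fl_ne v hi
  · exact fl_ne v hj
  · rw [fl_ne _ hj, fl_ne _ hi]

/-- no closed edge avoids an odd face -/
def NoAvoid (c : Vtx n → Fin n → Bool) : Prop :=
  ∀ w k v i j, i ≠ j → c w k = true → par c v i j = true → OnFace w v i j ∨ OnFace (fl w k) v i j

theorem two_odd (hn : 3 ≤ n) (c : Vtx n → Fin n → Bool) (hc : ∀ v i, c (fl v i) i = c v i)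
    (hna : NoAvoid c) {v : Vtx n} {i j : Fin n} (hij : i ≠ j) (hodd : par c v i j = true) :
    ∃ q i' j' k', i' ≠ j' ∧ i' ≠ k' ∧ j' ≠ k' ∧ par c q i' j' = true ∧ par c q i' k' = true := by
  obtain ⟨k, hk⟩ : ∃ k : Fin n, k ∉ ({i, j} : Finset (Fin n)) := by
    by_contra hcon
    push Not at hcon
    have h1 : (Finset.univ : Finset (Fin n)) ⊆ {i, j} := fun x _ => hcon x
    have h2 := Finset.card_le_card h1
    rw [Finset.card_univ, Fintype.card_fin] at h2
    have h3 := Finset.card_le_two (a := i) (b := j)
    omega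
  simp only [Finset.mem_insert, Finset.mem_singleton, not_or] at hk
  obtain ⟨hki, hkj⟩ := hk
  -- the parallel face is even
  have hpar : par c (fl v k) i j = false := by
    by_contra hcon
    rw [Bool.not_eq_false] at hcon
    have hcl : ∃ w l, OnFace w v i j ∧ OnFace (fl w l) v i j ∧ c w l = true := by
      by_contra hno
      push Not at hno
      have h1 := hno v i (Or.inl rfl) (Or.inr (Or.inl rfl))
      have h2 := hno (fl v i) j (Or.inr (Or.inl rfl)) (Or.inr (Or.inr (Or.inr rfl)))
      have h3 := hno (fl v j) i (Or.inr (Or.inr (Or.inl rfl)))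
        (Or.inr (Or.inr (Or.inr (fl_comm v j i))))
      have h4 := hno v j (Or.inl rfl) (Or.inr (Or.inr (Or.inl rfl)))
      simp only [ne_eq, Bool.not_eq_true] at h1 h2 h3 h4
      unfold par at hodd
      rw [h1, h2, h3, h4] at hodd
      simp at hodd
    obtain ⟨w, l, hw1, hw2, hw3⟩ := hcl
    rcases hna w l (fl v k) i j hij hw3 hcon with h | h
    · have h5 := onFace_coord h hki hkj
      have h6 := onFace_coord hw1 hki hkj
      rw [h6, fl_same] at h5
      simp at h5
    · have h5 := onFace_coord h hki hkj
      have h6 := onFace_coord hw2 hki hkj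
      rw [h6, fl_same] at h5
      simp at h5
  have hcube := par_cube c v i j k
  rw [hodd, hpar] at hcube
  by_cases h1 : par c v i k = true
  · exact ⟨v, i, j, k, hij, Ne.symm hki, Ne.symm hkj, hodd, h1⟩
  by_cases h2 : par c (fl v j) i k = true
  · exact ⟨fl v j, i, j, k, hij, Ne.symm hki, Ne.symm hkj, by rw [par_fl_right c hc]; exact hodd, h2⟩
  by_cases h3 : par c v j k = true
  · exact ⟨v, j, i, k, Ne.symm hij, Ne.symm hkj, Ne.symm hki, by rw [par_comm]; exact hodd, h3⟩
  by_cases h4 : par c (fl v i) j k = true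
  · refine ⟨fl v i, j, i, k, Ne.symm hij, Ne.symm hkj, Ne.symm hki, ?_, h4⟩
    rw [par_comm, par_fl_left c hc]; exact hodd
  rw [Bool.not_eq_true] at h1 h2 h3 h4
  rw [h1, h2, h3, h4] at hcube
  simp at hcube

/-- the edge `(w,k)` contains the vertex `x` -/
def Has (w : Vtx n) (k : Fin n) (x : Vtx n) : Prop := w = x ∨ fl w k = x

theorem contains_edge (c : Vtx n → Fin n → Bool) (hna : NoAvoid c)
    {q : Vtx n} {i j k : Fin n} (hij : i ≠ j) (hik : i ≠ k) (hjk : j ≠ k)
    (h1 : par c q i j = true) (h2 : par c q i k = true) {w : Vtx n} {l : Fin n}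
    (hw : c w l = true) : Has w l q ∨ Has w l (fl q i) := by
  have key : ∀ x : Vtx n, OnFace x q i j → x = q ∨ x = fl q i ∨ (x j ≠ q j ∧ x k = q k) := by
    intro x hx
    rcases hx with h | h | h | h
    · exact Or.inl h
    · exact Or.inr (Or.inl h)
    · refine Or.inr (Or.inr ⟨?_, ?_⟩)
      · rw [h, fl_same]; simp
      · rw [h, fl_ne _ (Ne.symm hjk)]
    · refine Or.inr (Or.inr ⟨?_, ?_⟩)
      · rw [h, fl_same, fl_ne _ (Ne.symm hij)]; simp
      · rw [h, fl_ne _ (Ne.symm hjk), fl_ne _ (Ne.symm hik)]
  have key' : ∀ x : Vtx n, OnFace x q i k → x = q ∨ x = fl q i ∨ (x k ≠ q k ∧ x j = q j) := by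
    intro x hx
    rcases hx with h | h | h | h
    · exact Or.inl h
    · exact Or.inr (Or.inl h)
    · refine Or.inr (Or.inr ⟨?_, ?_⟩)
      · rw [h, fl_same]; simp
      · rw [h, fl_ne _ hjk]
    · refine Or.inr (Or.inr ⟨?_, ?_⟩)
      · rw [h, fl_same, fl_ne _ (Ne.symm hik)]; simp
      · rw [h, fl_ne _ hjk, fl_ne _ (Ne.symm hij)]
  have cross : ∀ x : Vtx n, (x j ≠ q j ∧ x k = q k) → (fl x l k ≠ q k ∧ fl x l j = q j) → False := by
    rintro x ⟨a1, a2⟩ ⟨a3, a4⟩
    by_cases hl : j = l
    · subst hl
      rw [fl_ne _ (Ne.symm hjk)] at a3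
      exact a3 a2
    · rw [fl_ne _ hl] at a4
      exact a1 a4
  have cross' : ∀ x : Vtx n, (fl x l j ≠ q j ∧ fl x l k = q k) → (x k ≠ q k ∧ x j = q j) → False := by
    rintro x ⟨a1, a2⟩ ⟨a3, a4⟩
    by_cases hl : k = l
    · subst hl
      rw [fl_ne _ hjk] at a1
      exact a1 a4
    · rw [fl_ne _ hl] at a2
      exact a3 a2
  have A := hna w l q i j hij hw h1
  have B := hna w l q i k hik hw h2
  rcases A with A | A
  · rcases key w A with h | h | h
    · exact Or.inl (Or.inl h)
    · exact Or.inr (Or.inl h)
    · rcases B with B | B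
      · rcases key' w B with h' | h' | h'
        · exact Or.inl (Or.inl h')
        · exact Or.inr (Or.inl h')
        · exact absurd h'.2 h.1
      · rcases key' _ B with h' | h' | h'
        · exact Or.inl (Or.inr h')
        · exact Or.inr (Or.inr h')
        · exact (cross w h h').elim
  · rcases key _ A with h | h | h
    · exact Or.inl (Or.inr h)
    · exact Or.inr (Or.inr h)
    · rcases B with B | B
      · rcases key' w B with h' | h' | h'
        · exact Or.inl (Or.inl h')
        · exact Or.inr (Or.inl h')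
        · exact (cross' w h h').elim
      · rcases key' _ B with h' | h' | h'
        · exact Or.inl (Or.inr h')
        · exact Or.inr (Or.inr h')
        · exact absurd h'.2 h.1

theorem not_has_of {q x : Vtx n} {i l m : Fin n} (hli : l ≠ i) (hlm : l ≠ m)
    (hx : x l ≠ q l) : ¬ (Has x m q ∨ Has x m (fl q i)) := by
  rintro ((h | h) | (h | h))
  · exact hx (by rw [h])
  · apply hx
    have := congrFun h l
    rwa [fl_ne _ hlm] at this
  · apply hx
    rw [h, fl_ne _ hli]
  · apply hx
    have := congrFun h l
    rwa [fl_ne _ hlm, fl_ne _ hli] at this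

/-- if all closed edges contain `q` or `fl q i`, some edge at `q` and some edge at `fl q i` is closed
(other than their common edge), then all edges at `q` other than the common one are closed -/
theorem all_closed (c : Vtx n → Fin n → Bool) (hna : NoAvoid c) {q : Vtx n} {i : Fin n}
    (hcont : ∀ w l, c w l = true → Has w l q ∨ Has w l (fl q i))
    {l l' : Fin n} (hl : l ≠ i) (hl' : l' ≠ i) (h1 : c q l = true) (h2 : c (fl q i) l' = true)
    {m : Fin n} (hm : m ≠ i) : c q m = true := by
  by_contra hcon
  rw [Bool.not_eq_true] at hcon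
  have hlm : l ≠ m := by rintro rfl; rw [h1] at hcon; exact absurd hcon (by simp)
  have e1 : c (fl q l) m = false := by
    by_contra hh
    rw [Bool.not_eq_false] at hh
    exact not_has_of hl hlm (by rw [fl_same]; simp) (hcont _ _ hh)
  have e2 : c (fl q m) l = false := by
    by_contra hh
    rw [Bool.not_eq_false] at hh
    exact not_has_of hm (Ne.symm hlm) (by rw [fl_same]; simp) (hcont _ _ hh)
  have hodd : par c q l m = true := by
    unfold par; rw [h1, e1, e2, hcon]; rfl
  rcases hna (fl q i) l' q l m hlm h2 hodd with h | h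
  · have := onFace_coord h (Ne.symm hl) (Ne.symm hm)
    rw [fl_same] at this
    simp at this
  · have := onFace_coord h (Ne.symm hl) (Ne.symm hm)
    rw [fl_ne _ (Ne.symm hl'), fl_same] at this
    simp at this

theorem classify (hn : 3 ≤ n) (c : Vtx n → Fin n → Bool) (hc : ∀ v i, c (fl v i) i = c v i)
    (hna : NoAvoid c) {v : Vtx n} {i j : Fin n} (hij : i ≠ j) (hodd : par c v i j = true) :
    (∃ v, ∀ w k, c w k = true → Has w k v) ∨
    (∃ v i, ∀ w k, c w k = true ↔ (Has w k v ∨ Has w k (fl v i))) := by
  obtain ⟨q, i, j, k, hij, hik, hjk, h1, h2⟩ := two_odd hn c hc hna hij hodd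
  have hcont : ∀ w l, c w l = true → Has w l q ∨ Has w l (fl q i) := fun w l hw =>
    contains_edge c hna hij hik hjk h1 h2 hw
  have hcont' : ∀ w l, c w l = true → Has w l (fl q i) ∨ Has w l (fl (fl q i) i) := by
    intro w l hw
    rw [fl_fl]
    exact (hcont w l hw).symm
  by_cases hx : ∃ l, l ≠ i ∧ c q l = true
  · by_cases hy : ∃ l, l ≠ i ∧ c (fl q i) l = true
    · right
      obtain ⟨l, hl, hl1⟩ := hx
      obtain ⟨l', hl', hl1'⟩ := hy
      have A : ∀ m, m ≠ i → c q m = true := fun m hm =>
        all_closed c hna hcont hl hl' hl1 hl1' hm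
      have B : ∀ m, m ≠ i → c (fl q i) m = true := fun m hm =>
        all_closed c hna hcont' hl' hl hl1' (by rw [fl_fl]; exact hl1) hm
      have C : c q i = true := by
        have e : c (fl q j) i = false := by
          by_contra hh
          rw [Bool.not_eq_false] at hh
          exact not_has_of (Ne.symm hij) (Ne.symm hij) (by rw [fl_same]; simp) (hcont _ _ hh)
        unfold par at h1
        rw [B j (Ne.symm hij), A j (Ne.symm hij), e] at h1
        revert h1
        cases c q i <;> simp
      have A' : ∀ m, c q m = true := by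
        intro m
        by_cases hm : m = i
        · rw [hm]; exact C
        · exact A m hm
      have B' : ∀ m, c (fl q i) m = true := by
        intro m
        by_cases hm : m = i
        · rw [hm, hc]; exact C
        · exact B m hm
      refine ⟨q, i, fun w k => ⟨hcont w k, ?_⟩⟩
      rintro ((h | h) | (h | h))
      · rw [h]; exact A' k
      · rw [← hc, h]; exact A' k
      · rw [h]; exact B' k
      · rw [← hc, h]; exact B' k
    · left
      push Not at hy
      refine ⟨q, fun w l hw => ?_⟩
      rcases hcont w l hw with h | (h | h)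
      · exact h
      · by_cases hl : l = i
        · right; rw [h, hl, fl_fl]
        · exact absurd (by rw [← h]; exact hw) (hy l hl)
      · by_cases hl : l = i
        · left; rw [hl] at h; exact fl_inj h
        · exact absurd (by rw [← h, hc]; exact hw) (hy l hl)
  · left
    push Not at hx
    refine ⟨fl q i, fun w l hw => ?_⟩
    rcases hcont w l hw with (h | h) | h
    · by_cases hl : l = i
      · right; rw [h, hl]
      · exact absurd (by rw [← h]; exact hw) (hx l hl)
    · by_cases hl : l = i
      · left; rw [← h, hl, fl_fl]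
      · exact absurd (by rw [← h, hc]; exact hw) (hx l hl)
    · exact h

/-- flat sets of edges are cuts -/
theorem flat_cut (c : Vtx n → Fin n → Bool) (hc : ∀ v i, c (fl v i) i = c v i)
    (hflat : ∀ v i j, i ≠ j → par c v i j = false) :
    ∃ a : Vtx n → Bool, ∀ v i, c v i = (a v ^^ a (fl v i)) := by
  suffices H : ∀ s : Finset (Fin n), ∃ a : Vtx n → Bool, ∀ v, ∀ i ∈ s, c v i = (a v ^^ a (fl v i)) by
    obtain ⟨a, ha⟩ := H Finset.univ
    exact ⟨a, fun v i => ha v i (Finset.mem_univ _)⟩
  intro s
  induction s using Finset.induction_on with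
  | empty => exact ⟨fun _ => false, fun v i hi => absurd hi (Finset.notMem_empty i)⟩
  | insert k s hks ih =>
    obtain ⟨a, ha⟩ := ih
    -- the remaining function in direction `k`
    set g : Vtx n → Bool := fun v => v k && (c v k ^^ (a v ^^ a (fl v k))) with hg
    refine ⟨fun v => a v ^^ g v, ?_⟩
    have sym : ∀ v, (c (fl v k) k ^^ (a (fl v k) ^^ a (fl (fl v k) k))) =
        (c v k ^^ (a v ^^ a (fl v k))) := by
      intro v
      rw [hc, fl_fl]
      cases c v k <;> cases a v <;> cases a (fl v k) <;> rfl
    intro v i hi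
    rw [Finset.mem_insert] at hi
    by_cases hik : i = k
    · subst hik
      simp only [hg]
      rw [sym v, fl_same]
      cases v i <;> cases c v i <;> cases a v <;> cases a (fl v i) <;> rfl
    · have his : i ∈ s := by
        rcases hi with h | h
        · exact absurd h hik
        · exact h
      have f1 := hflat v i k hik
      have e1 := ha v i his
      have e2 := ha (fl v k) i his
      simp only [hg]
      rw [fl_ne v (Ne.symm hik)]
      unfold par at f1
      rw [e1, e2] at f1
      rw [e1]
      rw [fl_comm v k i] at f1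
      revert f1
      cases v k <;> cases c v k <;> cases c (fl v i) k <;> cases a v <;> cases a (fl v i) <;>
        cases a (fl v k) <;> cases a (fl (fl v i) k) <;> simp

end Pool.Agent.helper40.Signs
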