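import Mathlib

/-! A sorting lemma for 0-1 sequences. -/

namespace Pool.Agent.helper40.Signs

/-- the set of positions `k < N` with `x k = true` -/
def pos (N : ℕ) (x : ℕ → Bool) : Finset ℕ := (Finset.range N).filter fun k => x k = true

/-- flip on the interval `[l,r)` -/
def flipI (l r : ℕ) (x : ℕ → Bool) : ℕ → Bool := fun k => if l ≤ k ∧ k < r then !(x k) else x k

theorem mem_pos {N : ℕ} {x : ℕ → Bool} {k : ℕ} : k ∈ pos N x ↔ k < N ∧ x k = true := by
  simp [pos]

theorem pos_swap {N : ℕ} {x : ℕ → Bool} {i : ℕ} (hi : i + 1 < N) (h1 : x i = false)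
    (h2 : x (i + 1) = true) :
    pos N (flipI i (i + 2) x) = insert i ((pos N x).erase (i + 1)) := by
  ext k
  rw [mem_pos, Finset.mem_insert, Finset.mem_erase, mem_pos]
  unfold flipI
  by_cases h : i ≤ k ∧ k < i + 2
  · rw [if_pos h]
    have : k = i ∨ k = i + 1 := by omega
    rcases this with rfl | rfl
    · simp [h1]; omega
    · simp [h2]
  · rw [if_neg h]
    constructor
    · rintro ⟨a, b⟩
      exact Or.inr ⟨by omega, a, b⟩
    · rintro (a | ⟨_, a, b⟩)
      · omega
      · exact ⟨a, b⟩

theorem is_init {N : ℕ} {x : ℕ → Bool} (h : ∀ i, i + 1 < N → x i = false → x (i + 1) = false) :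
    ∀ k, k < N → x k = decide (k < (pos N x).card) := by
  -- once false always false
  have mono : ∀ i j, i ≤ j → j < N → x i = false → x j = false := by
    intro i j hij
    induction j with
    | zero => intro _ h0; have : i = 0 := by omega
              rw [← this]; exact h0
    | succ j ih =>
      intro hj h0
      by_cases he : i = j + 1
      · rw [← he]; exact h0
      · exact h j hj (ih (by omega) (by omega) h0)
  intro k hk
  cases hx : x k
  · -- all positions true are < k
    have hsub : pos N x ⊆ Finset.range k := by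
      intro j hj
      rw [mem_pos] at hj
      rw [Finset.mem_range]
      by_contra hcon
      have := mono k j (by omega) hj.1 hx
      rw [this] at hj
      exact absurd hj.2 (by simp)
    have := Finset.card_le_card hsub
    rw [Finset.card_range] at this
    symm
    rw [decide_eq_false_iff_not]
    omega
  · have hsub : Finset.range (k + 1) ⊆ pos N x := by
      intro j hj
      rw [Finset.mem_range] at hj
      rw [mem_pos]
      refine ⟨by omega, ?_⟩
      by_contra hcon
      rw [Bool.not_eq_true] at hcon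
      have := mono j k (by omega) hk hcon
      rw [this] at hx
      exact absurd hx (by simp)
    have := Finset.card_le_card hsub
    rw [Finset.card_range] at this
    symm
    rw [decide_eq_true_iff]
    omega

section
variable {N : ℕ} {δ : ℝ} {h : (ℕ → Bool) → ℝ}

/-- the flip relation -/
def FlipRel (N : ℕ) (δ : ℝ) (h : (ℕ → Bool) → ℝ) : Prop :=
  ∀ x l r, r ≤ N → (∃ k k', l ≤ k ∧ k < r ∧ l ≤ k' ∧ k' < r ∧ x k ≠ x k') →
    (∃ k k', k < N ∧ k' < N ∧ (k < l ∨ r ≤ k) ∧ (k' < l ∨ r ≤ k') ∧ x k ≠ x k') →
    |h x + h (flipI l r x)| ≤ δ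

theorem abs_abs_le {a b d : ℝ} (h : |a + b| ≤ d) : |a| ≤ |b| + d ∧ |b| ≤ |a| + d := by
  have h1 := abs_sub_abs_le_abs_sub a (-b)
  have h2 := abs_sub_abs_le_abs_sub b (-a)
  rw [abs_neg] at h1 h2
  rw [sub_neg_eq_add] at h1 h2
  rw [add_comm b a] at h2
  constructor <;> linarith

theorem exists_true {x : ℕ → Bool} (hc : 2 ≤ (pos N x).card) (i : ℕ) :
    ∃ k, k < N ∧ k ≠ i ∧ x k = true := by
  have : 0 < ((pos N x).erase i).card := by
    have := Finset.pred_card_le_card_erase (s := pos N x) (a := i)
    omega
  obtain ⟨k, hk⟩ := Finset.card_pos.mp this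
  rw [Finset.mem_erase, mem_pos] at hk
  exact ⟨k, hk.2.1, hk.1, hk.2.2⟩

theorem pos_not_card (N : ℕ) (x : ℕ → Bool) :
    (pos N (fun k => !(x k))).card = N - (pos N x).card := by
  have h1 : (pos N (fun k => !(x k))) = (Finset.range N) \ (pos N x) := by
    ext k
    rw [mem_pos, Finset.mem_sdiff, Finset.mem_range, mem_pos]
    cases x k <;> simp
  have hsub : pos N x ⊆ Finset.range N := Finset.filter_subset _ _
  rw [h1, Finset.card_sdiff_of_subset hsub, Finset.card_range]

theorem pos_card_le (N : ℕ) (x : ℕ → Bool) : (pos N x).card ≤ N := by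
  have := Finset.card_le_card (Finset.filter_subset (fun k => x k = true) (Finset.range N))
  rw [Finset.card_range] at this
  exact this

theorem exists_false {x : ℕ → Bool} (hN : 2 ≤ N) (hc : (pos N x).card ≤ N - 2) (i : ℕ) :
    ∃ k, k < N ∧ k ≠ i ∧ x k = false := by
  have h1 : 2 ≤ (pos N (fun k => !(x k))).card := by rw [pos_not_card]; omega
  obtain ⟨k, hk, hki, hx⟩ := exists_true h1 i
  exact ⟨k, hk, hki, by simpa using hx⟩

/-- comparison with the sorted sequence -/
theorem sort_step (hN : 2 ≤ N) (hδ : 0 ≤ δ)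
    (hcongr : ∀ x y, (∀ k, k < N → x k = y k) → h x = h y) (hR : FlipRel N δ h) (s : ℕ) :
    ∀ x, (∑ k ∈ pos N x, k) = s → 2 ≤ (pos N x).card → (pos N x).card ≤ N - 2 →
      |h x| ≤ |h (fun k => decide (k < (pos N x).card))| + s * δ ∧
        |h (fun k => decide (k < (pos N x).card))| ≤ |h x| + s * δ := by
  induction s with
  | zero =>
    intro x hs h2 _
    exfalso
    obtain ⟨k, hk, hk0, hx⟩ := exists_true h2 0
    have hmem : k ∈ pos N x := mem_pos.mpr ⟨hk, hx⟩
    have := Finset.sum_eq_zero_iff.mp hs k hmem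
    exact hk0 this
  | succ s ih =>
    intro x hs h2 h3
    by_cases hinit : ∀ i, i + 1 < N → x i = false → x (i + 1) = false
    · have he : h x = h (fun k => decide (k < (pos N x).card)) :=
        hcongr _ _ (is_init hinit)
      rw [← he]
      have : 0 ≤ ((s + 1 : ℕ) : ℝ) * δ := by positivity
      constructor <;> linarith
    · push Not at hinit
      obtain ⟨i, hi, hx0, hx1⟩ := hinit
      rw [ne_eq, Bool.not_eq_false] at hx1
      have hsw := pos_swap hi hx0 hx1
      have hin : i ∉ (pos N x).erase (i + 1) := by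
        rw [Finset.mem_erase, mem_pos, hx0]; simp
      have hmem : i + 1 ∈ pos N x := mem_pos.mpr ⟨hi, hx1⟩
      have hcard : (pos N (flipI i (i + 2) x)).card = (pos N x).card := by
        rw [hsw, Finset.card_insert_of_notMem hin, Finset.card_erase_of_mem hmem]
        have := Finset.card_pos.mpr ⟨_, hmem⟩
        omega
      have hsum : (∑ k ∈ pos N (flipI i (i + 2) x), k) = s := by
        rw [hsw, Finset.sum_insert hin]
        have := Finset.sum_erase_add (pos N x) (fun k => k) hmem
        omega
      have hih := ih (flipI i (i + 2) x) hsum (by rw [hcard]; exact h2) (by rw [hcard]; exact h3)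
      rw [hcard] at hih
      have hrel : |h x + h (flipI i (i + 2) x)| ≤ δ := by
        apply hR x i (i + 2) (by omega)
        · exact ⟨i, i + 1, by omega, by omega, by omega, by omega, by rw [hx0, hx1]; simp⟩
        · obtain ⟨k, hk, hki, hxk⟩ := exists_true h2 (i + 1)
          obtain ⟨k', hk', hki', hxk'⟩ := exists_false hN h3 i
          refine ⟨k, k', hk, hk', ?_, ?_, by rw [hxk, hxk']; simp⟩
          · have : k ≠ i := by rintro rfl; rw [hx0] at hxk; simp at hxk
            omega
          · have : k' ≠ i + 1 := by rintro rfl; rw [hx1] at hxk'; simp at hxk'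
            omega
      obtain ⟨g1, g2⟩ := abs_abs_le hrel
      obtain ⟨g3, g4⟩ := hih
      push_cast
      constructor <;> linarith

theorem sum_pos_le (N : ℕ) (x : ℕ → Bool) : (∑ k ∈ pos N x, k) ≤ N * N := by
  calc (∑ k ∈ pos N x, k) ≤ ∑ k ∈ pos N x, N :=
        Finset.sum_le_sum fun k hk => (mem_pos.mp hk).1.le
    _ = (pos N x).card * N := by rw [Finset.sum_const, smul_eq_mul]
    _ ≤ N * N := Nat.mul_le_mul_right _ (pos_card_le N x)

theorem compare (hN : 2 ≤ N) (hδ : 0 ≤ δ)
    (hcongr : ∀ x y, (∀ k, k < N → x k = y k) → h x = h y) (hR : FlipRel N δ h)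
    (x y : ℕ → Bool) (h2 : 2 ≤ (pos N x).card) (h3 : (pos N x).card ≤ N - 2)
    (hxy : (pos N x).card = (pos N y).card) : |h x| ≤ |h y| + 2 * (N * N) * δ := by
  have a := (sort_step hN hδ hcongr hR _ x rfl h2 h3).1
  have b := (sort_step hN hδ hcongr hR _ y rfl (by omega) (by omega)).2
  rw [← hxy] at b
  have c1 : ((∑ k ∈ pos N x, k : ℕ) : ℝ) * δ ≤ (N * N) * δ := by
    apply mul_le_mul_of_nonneg_right _ hδ
    exact_mod_cast sum_pos_le N x
  have c2 : ((∑ k ∈ pos N y, k : ℕ) : ℝ) * δ ≤ (N * N) * δ := by
    apply mul_le_mul_of_nonneg_right _ hδ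
    exact_mod_cast sum_pos_le N y
  linarith

/-- the spread out sequence -/
def spread (j : ℕ) : ℕ → Bool := fun k => decide (k = 0 ∨ k = 2 ∨ (4 ≤ k ∧ k < j + 2))

theorem spread_card {j : ℕ} (hj : 2 ≤ j) (hjN : j + 2 ≤ N) : (pos N (spread j)).card = j := by
  have : pos N (spread j) = insert 0 (insert 2 (Finset.Ico 4 (j + 2))) := by
    ext k
    rw [mem_pos]
    simp only [spread, decide_eq_true_eq, Finset.mem_insert, Finset.mem_Ico]
    constructor
    · rintro ⟨_, h⟩; exact h
    · intro h; exact ⟨by omega, h⟩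
  rw [this, Finset.card_insert_of_notMem (by simp), Finset.card_insert_of_notMem (by simp),
    Nat.card_Ico]
  omega

theorem spread_small {j : ℕ} (hj : 3 ≤ j) (hjN : j + 3 ≤ N)
    (hcongr : ∀ x y, (∀ k, k < N → x k = y k) → h x = h y) (hR : FlipRel N δ h) :
    |h (spread j)| ≤ 2 * δ := by
  set x := spread j with hx
  have x0 : x 0 = true := by simp [hx, spread]
  have x1 : x 1 = false := by simp [hx, spread]
  have x2 : x 2 = true := by simp [hx, spread]
  have x3 : x 3 = false := by simp [hx, spread]
  have x4 : x 4 = true := by simp only [hx, spread, decide_eq_true_eq]; omega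
  have xN : x (N - 1) = false := by simp only [hx, spread, decide_eq_false_iff_not]; omega
  have r1 := hR x 0 2 (by omega) ⟨0, 1, by omega, by omega, by omega, by omega, by rw [x0, x1]; simp⟩
    ⟨2, 3, by omega, by omega, by omega, by omega, by rw [x2, x3]; simp⟩
  set y := flipI 0 2 x with hy
  have y2 : y 2 = true := by rw [hy, flipI, if_neg (by omega)]; exact x2
  have y3 : y 3 = false := by rw [hy, flipI, if_neg (by omega)]; exact x3
  have y0 : y 0 = false := by rw [hy, flipI, if_pos (by omega), x0]; rfl
  have y1 : y 1 = true := by rw [hy, flipI, if_pos (by omega), x1]; rfl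
  have r2 := hR y 2 4 (by omega) ⟨2, 3, by omega, by omega, by omega, by omega, by rw [y2, y3]; simp⟩
    ⟨0, 1, by omega, by omega, by omega, by omega, by rw [y0, y1]; simp⟩
  set z := flipI 2 4 y with hz
  have z0 : z 0 = false := by rw [hz, flipI, if_neg (by omega)]; exact y0
  have z1 : z 1 = true := by rw [hz, flipI, if_neg (by omega)]; exact y1
  have z4 : z 4 = true := by
    rw [hz, flipI, if_neg (by omega), hy, flipI, if_neg (by omega)]; exact x4
  have zN : z (N - 1) = false := by
    rw [hz, flipI, if_neg (by omega), hy, flipI, if_neg (by omega)]; exact xN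
  have r3 := hR z 0 4 (by omega) ⟨0, 1, by omega, by omega, by omega, by omega, by rw [z0, z1]; simp⟩
    ⟨4, N - 1, by omega, by omega, by omega, by omega, by rw [z4, zN]; simp⟩
  have hback : h (flipI 0 4 z) = h x := by
    apply hcongr
    intro k _
    rw [flipI, hz, flipI, hy, flipI]
    by_cases a1 : k < 2
    · rw [if_pos (by omega), if_neg (by omega), if_pos (by omega), Bool.not_not]
    · by_cases a2 : k < 4
      · rw [if_pos (by omega), if_pos (by omega), if_neg (by omega), Bool.not_not]
      · rw [if_neg (by omega), if_neg (by omega), if_neg (by omega)]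
  rw [hback] at r3
  rw [abs_le] at r1 r2 r3 ⊢
  constructor <;> linarith [r1.1, r1.2, r2.1, r2.2, r3.1, r3.2]

theorem sort_main (hN : 8 ≤ N) (hδ : 0 ≤ δ)
    (hcongr : ∀ x y, (∀ k, k < N → x k = y k) → h x = h y)
    (hnot : ∀ x, h (fun k => !(x k)) = h x) (hR : FlipRel N δ h)
    (x : ℕ → Bool) (h2 : 2 ≤ (pos N x).card) (h3 : (pos N x).card ≤ N - 2) :
    |h x| ≤ 5 * (N * N) * δ := by
  have hNN : (64 : ℝ) ≤ (N : ℝ) * N := by
    have : (8 : ℝ) ≤ N := by exact_mod_cast hN
    nlinarith
  -- middle sizes
  have mid : ∀ x : ℕ → Bool, 3 ≤ (pos N x).card → (pos N x).card ≤ N - 3 →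
      |h x| ≤ (2 * (N * N) + 2) * δ := by
    intro x hx1 hx2
    have hc := spread_card (N := N) (j := (pos N x).card) (by omega) (by omega)
    have a := compare (by omega) hδ hcongr hR x (spread (pos N x).card) (by omega) (by omega)
      hc.symm
    have b := spread_small (N := N) hx1 (by omega) hcongr hR
    linarith
  have two : ∀ x : ℕ → Bool, (pos N x).card = 2 → |h x| ≤ 5 * (N * N) * δ := by
    intro x hx
    set y : ℕ → Bool := fun k => decide (k = 0 ∨ k = 3) with hy
    have hyc : (pos N y).card = 2 := by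
      have : pos N y = {0, 3} := by
        ext k
        rw [mem_pos]
        simp only [hy, decide_eq_true_eq, Finset.mem_insert, Finset.mem_singleton]
        constructor
        · rintro ⟨_, h⟩; exact h
        · intro h; exact ⟨by omega, h⟩
      rw [this]; rfl
    have a := compare (by omega) hδ hcongr hR x y (by omega) (by omega) (by omega)
    have r := hR y 2 5 (by omega) ⟨2, 3, by omega, by omega, by omega, by omega, by simp [hy]⟩
      ⟨0, 1, by omega, by omega, by omega, by omega, by simp [hy]⟩
    have hz : (pos N (flipI 2 5 y)).card = 3 := by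
      have : pos N (flipI 2 5 y) = {0, 2, 4} := by
        ext k
        rw [mem_pos]
        unfold flipI
        by_cases hk : 2 ≤ k ∧ k < 5
        · rw [if_pos hk]
          have : k = 2 ∨ k = 3 ∨ k = 4 := by omega
          rcases this with rfl | rfl | rfl <;> simp [hy] <;> omega
        · rw [if_neg hk]
          simp only [hy, decide_eq_true_eq, Finset.mem_insert, Finset.mem_singleton]
          omega
      rw [this]; rfl
    have b := mid (flipI 2 5 y) (by omega) (by omega)
    have c := (abs_abs_le r).1
    have hδ' : 3 * δ ≤ (N * N) * δ := by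
      apply mul_le_mul_of_nonneg_right _ hδ
      linarith
    nlinarith
  by_cases hc2 : (pos N x).card = 2
  · exact two x hc2
  by_cases hc3 : (pos N x).card = N - 2
  · rw [← hnot x]
    apply two
    rw [pos_not_card]
    omega
  · have b := mid x (by omega) (by omega)
    have hδ' : 2 * δ ≤ (N * N) * δ := by
      apply mul_le_mul_of_nonneg_right _ hδ
      linarith
    have : 0 ≤ (N * N : ℝ) * δ := by positivity
    nlinarith

end

end Pool.Agent.helper40.Signs
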