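import Pool.Agent.helper40.Signs.Weight
import Pool.Agent.helper40.Signs.Sort

/-! Comparison of a one-independent weight with the signs law: basic estimates. -/

namespace Pool.Agent.helper40.Signs

open Classical

variable {n : ℕ}

/-- a one-independent probability weight on symmetric configurations -/
structure Good (m : Cfg n → ℝ) : Prop where
  nonneg : ∀ c, 0 ≤ m c
  total : ∑ c, m c = 1
  sym : ∀ c, m c ≠ 0 → SymC c
  indep : Indep1 m

/-- probability that the edge is closed -/
noncomputable def pcl (m : Cfg n → ℝ) (v : Vtx n) (i : Fin n) : ℝ := ex m (ind fun c => c v i = true)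

/-- probability of not being flat -/
noncomputable def bb (m : Cfg n → ℝ) : ℝ := ex m (ind fun c => ¬ Flat c)

/-- the total slack -/
noncomputable def dd (m : Cfg n → ℝ) (ε : ℝ) : ℝ := ∑ v, ∑ i, (ε - pcl m v i)

noncomputable def mh (m : Cfg n → ℝ) : Cfg n → ℝ := fun d => ex m (ind fun c => psi c = d)

noncomputable def eta (m p : Cfg n → ℝ) (d : Cfg n) : ℝ := mh m d - p d

noncomputable def De (m p : Cfg n → ℝ) : ℝ := ∑ d, |eta m p d|

theorem Good.ex_le_one {m : Cfg n → ℝ} (hm : Good m) {F : Cfg n → ℝ} (hF : ∀ c, F c ≤ 1) :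
    ex m F ≤ 1 := by
  have : ex m F ≤ ex m (fun _ => 1) := ex_mono hm.nonneg fun c _ => hF c
  have h2 : ex m (fun _ => (1 : ℝ)) = 1 := by
    unfold ex; simp only [mul_one]; exact hm.total
  linarith

theorem Good.pcl_nonneg {m : Cfg n → ℝ} (hm : Good m) (v : Vtx n) (i : Fin n) : 0 ≤ pcl m v i :=
  ex_nonneg hm.nonneg fun c => ind_nonneg _ c

theorem Good.bb_nonneg {m : Cfg n → ℝ} (hm : Good m) : 0 ≤ bb m :=
  ex_nonneg hm.nonneg fun c => ind_nonneg _ c

theorem dd_nonneg {m : Cfg n → ℝ} {ε : ℝ} (h : ∀ v i, pcl m v i ≤ ε) : 0 ≤ dd m ε :=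
  Finset.sum_nonneg fun v _ => Finset.sum_nonneg fun i _ => by linarith [h v i]

theorem slack_le {m : Cfg n → ℝ} {ε : ℝ} (h : ∀ v i, pcl m v i ≤ ε) (v : Vtx n) (i : Fin n) :
    ε - pcl m v i ≤ dd m ε := by
  unfold dd
  calc ε - pcl m v i ≤ ∑ i, (ε - pcl m v i) :=
        Finset.single_le_sum (f := fun i => ε - pcl m v i) (fun j _ => by linarith [h v j])
          (Finset.mem_univ i)
    _ ≤ _ := Finset.single_le_sum (f := fun v => ∑ i, (ε - pcl m v i))
          (fun u _ => Finset.sum_nonneg fun j _ => by linarith [h u j]) (Finset.mem_univ v)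

theorem De_nonneg (m p : Cfg n → ℝ) : 0 ≤ De m p := Finset.sum_nonneg fun _ _ => abs_nonneg _

theorem ex_psi (m : Cfg n → ℝ) (F : Cfg n → ℝ) :
    ex m (fun c => F (psi c)) = ∑ d, mh m d * F d := by
  unfold mh ex
  simp only [Finset.sum_mul]
  rw [Finset.sum_comm]
  apply Finset.sum_congr rfl
  intro c _
  rw [Finset.sum_eq_single (psi c)]
  · rw [ind_true (P := fun c' => psi c' = psi c) rfl, mul_one]
  · intro d _ hd
    rw [ind_false (P := fun c' => psi c' = d) (fun h => hd h.symm)]
    ring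
  · intro h; exact absurd (Finset.mem_univ _) h

theorem psi_ne_flat {c : Cfg n} (h : psi c ≠ c) : IsET c := by
  by_contra hcon
  apply h
  unfold psi
  rw [if_neg hcon]

/-- total variation bound -/
theorem tv_bound (hn : 3 ≤ n) {m : Cfg n → ℝ} (hm : Good m) (p : Cfg n → ℝ) {F : Cfg n → ℝ}
    (h0 : ∀ c, 0 ≤ F c) (h1 : ∀ c, F c ≤ 1) : |ex m F - ex p F| ≤ De m p + bb m := by
  have e1 : |ex m F - ex m (fun c => F (psi c))| ≤ bb m := by
    rw [← ex_sub]
    apply ex_abs_le hm.nonneg
    intro c _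
    by_cases h : psi c = c
    · rw [h, sub_self, abs_zero]; exact ind_nonneg _ c
    · have := et_not_flat hn (psi_ne_flat h)
      rw [ind_true this, abs_le]
      constructor <;> linarith [h0 c, h1 c, h0 (psi c), h1 (psi c)]
  have e2 : |ex m (fun c => F (psi c)) - ex p F| ≤ De m p := by
    rw [ex_psi]
    unfold ex De
    rw [← Finset.sum_sub_distrib]
    refine (Finset.abs_sum_le_sum_abs _ _).trans (Finset.sum_le_sum fun d _ => ?_)
    have : mh m d * F d - p d * F d = eta m p d * F d := by unfold eta; ring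
    rw [this, abs_mul, abs_of_nonneg (h0 d)]
    calc |eta m p d| * F d ≤ |eta m p d| * 1 :=
          mul_le_mul_of_nonneg_left (h1 d) (abs_nonneg _)
      _ = _ := mul_one _
  have : ex m F - ex p F = (ex m F - ex m (fun c => F (psi c))) +
      (ex m (fun c => F (psi c)) - ex p F) := by ring
  rw [this]
  exact (abs_add_le _ _).trans (by linarith)

/-! ### the avoiding event -/

def OddOff (w : Vtx n) (k : Fin n) (c : Cfg n) : Prop :=
  ∃ v i j, i ≠ j ∧ par c v i j = true ∧ ¬ OnFace w v i j ∧ ¬ OnFace (fl w k) v i j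

theorem ind_congr {P Q : Cfg n → Prop} {c d : Cfg n} (h : P c ↔ Q d) : ind P c = ind Q d := by
  by_cases hP : P c
  · rw [ind_true hP, ind_true (h.mp hP)]
  · rw [ind_false hP, ind_false fun hQ => hP (h.mpr hQ)]

theorem local_cl (w : Vtx n) (k : Fin n) {S : Set (Vtx n)} (h1 : w ∈ S) (h2 : fl w k ∈ S) :
    Local S (ind fun c => c w k = true) := by
  intro c d h
  exact ind_congr (P := fun c => c w k = true) (Q := fun c => c w k = true)
    (by simp only [h w k h1 h2])

theorem par_congr {c d : Cfg n} {S : Set (Vtx n)}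
    (h : ∀ v i, v ∈ S → fl v i ∈ S → c v i = d v i) {v : Vtx n} {i j : Fin n}
    (hf : ∀ x, OnFace x v i j → x ∈ S) : par c v i j = par d v i j := by
  have a0 : v ∈ S := hf _ (Or.inl rfl)
  have a1 : fl v i ∈ S := hf _ (Or.inr (Or.inl rfl))
  have a2 : fl v j ∈ S := hf _ (Or.inr (Or.inr (Or.inl rfl)))
  have a3 : fl (fl v i) j ∈ S := hf _ (Or.inr (Or.inr (Or.inr rfl)))
  unfold par
  rw [h v i a0 a1, h (fl v i) j a1 a3, h (fl v j) i a2 (by rw [fl_comm]; exact a3), h v j a0 a2]

theorem local_oddOff (w : Vtx n) (k : Fin n) :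
    Local {x | x ≠ w ∧ x ≠ fl w k} (ind (OddOff w k)) := by
  have key : ∀ c d : Cfg n, (∀ v i, v ∈ {x | x ≠ w ∧ x ≠ fl w k} →
      fl v i ∈ {x | x ≠ w ∧ x ≠ fl w k} → c v i = d v i) → OddOff w k c → OddOff w k d := by
    rintro c d h ⟨v, i, j, hij, hp, h1, h2⟩
    refine ⟨v, i, j, hij, ?_, h1, h2⟩
    rw [← hp]
    refine (par_congr h ?_).symm
    intro x hx
    exact ⟨fun he => h1 (by rw [← he]; exact hx), fun he => h2 (by rw [← he]; exact hx)⟩
  intro c d h
  unfold ind
  have : OddOff w k c ↔ OddOff w k d :=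
    ⟨key c d h, key d c fun v i hv hi => (h v i hv hi).symm⟩
  simp only [this]

theorem pna_bound {m : Cfg n → ℝ} (hm : Good m) {ε : ℝ} (hε : 0 ≤ ε) (hcl : ∀ v i, pcl m v i ≤ ε) :
    ex m (ind fun c => ¬ NoAvoid c) ≤ (2 ^ n * n) * ε * bb m := by
  have h1 : ex m (ind fun c => ¬ NoAvoid c) ≤
      ex m (fun c => ∑ w, ∑ k, ind (fun c => c w k = true) c * ind (OddOff w k) c) := by
    apply ex_mono hm.nonneg
    intro c _
    by_cases h : NoAvoid c
    · rw [ind_false (fun h' => h' h)]
      exact Finset.sum_nonneg fun w _ => Finset.sum_nonneg fun k _ =>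
        mul_nonneg (ind_nonneg _ _) (ind_nonneg _ _)
    · rw [ind_true h]
      unfold NoAvoid at h
      push Not at h
      obtain ⟨w, k, v, i, j, hij, hw, hp, h1, h2⟩ := h
      calc (1 : ℝ) = ind (fun c => c w k = true) c * ind (OddOff w k) c := by
            rw [ind_true hw, ind_true ⟨v, i, j, hij, hp, h1, h2⟩]; norm_num
        _ ≤ ∑ k, ind (fun c => c w k = true) c * ind (OddOff w k) c :=
            Finset.single_le_sum (f := fun k => ind (fun c => c w k = true) c * ind (OddOff w k) c)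
              (fun l _ => mul_nonneg (ind_nonneg _ _) (ind_nonneg _ _)) (Finset.mem_univ k)
        _ ≤ _ := Finset.single_le_sum
              (f := fun w => ∑ k, ind (fun c => c w k = true) c * ind (OddOff w k) c)
              (fun u _ => Finset.sum_nonneg fun l _ => mul_nonneg (ind_nonneg _ _) (ind_nonneg _ _))
              (Finset.mem_univ w)
  refine h1.trans ?_
  rw [ex_sum]
  have h2 : ∀ w : Vtx n, ex m (fun c => ∑ k, ind (fun c => c w k = true) c * ind (OddOff w k) c) ≤
      n * (ε * bb m) := by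
    intro w
    rw [ex_sum]
    calc ∑ k, ex m (fun c => ind (fun c => c w k = true) c * ind (OddOff w k) c)
        ≤ ∑ _k : Fin n, ε * bb m := by
          apply Finset.sum_le_sum
          intro k _
          rw [hm.indep {w, fl w k} {x | x ≠ w ∧ x ≠ fl w k} ?_ _ _
            (local_cl w k (by simp) (by simp)) (local_oddOff w k)]
          · apply mul_le_mul (hcl w k) _ (ex_nonneg hm.nonneg fun c => ind_nonneg _ c) hε
            apply ex_mono hm.nonneg
            intro c _
            by_cases h : OddOff w k c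
            · rw [ind_true h]
              obtain ⟨v, i, j, hij, hp, _, _⟩ := h
              rw [ind_true]
              intro hf
              rw [hf v i j hij] at hp
              exact absurd hp (by simp)
            · rw [ind_false h]; exact ind_nonneg _ _
          · rintro x hx ⟨h1, h2⟩
            rcases hx with h | h
            · exact h1 h
            · exact h2 h
      _ = n * (ε * bb m) := by
          rw [Finset.sum_const, Finset.card_univ, Fintype.card_fin, nsmul_eq_mul]
  calc ∑ w : Vtx n, ex m (fun c => ∑ k, ind (fun c => c w k = true) c * ind (OddOff w k) c)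
      ≤ ∑ _w : Vtx n, n * (ε * bb m) := Finset.sum_le_sum fun w _ => h2 w
    _ = (2 ^ n * n) * ε * bb m := by
        rw [Finset.sum_const, Finset.card_univ, nsmul_eq_mul]
        have : (Fintype.card (Vtx n) : ℝ) = 2 ^ n := by
          rw [Fintype.card_fun]; simp
        rw [this]; ring

theorem flat_noAvoid {c : Cfg n} (h : Flat c) : NoAvoid c := by
  intro w k v i j hij _ hp
  rw [h v i j hij] at hp
  exact absurd hp (by simp)

theorem local_agree (a : Vtx n → Bool) (S : Set (Vtx n)) : Local S (ind (Agree a S)) := by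
  intro c d h
  unfold ind
  have : Agree a S c ↔ Agree a S d := by
    constructor
    · intro hA v i hv hi
      rw [← h v i hv hi]; exact hA v i hv hi
    · intro hA v i hv hi
      rw [h v i hv hi]; exact hA v i hv hi
  simp only [this]

theorem rt_point (hn : 3 ≤ n) {c : Cfg n} (hc : SymC c)
    {S T : Set (Vtx n)} (hST : ∀ v, v ∈ S ↔ v ∉ T) (hS : ConnS S) (hT : ConnS T)
    {a : Vtx n → Bool} (h1 : NCon a S) (h2 : NCon a T) :
    |ind (Agree a S) c * ind (Agree a T) c -
      (ind (fun c => psi c = cutf a) c + ind (fun c => psi c = cutf (flipOn a T)) c)| ≤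
      ind (fun c => ¬ NoAvoid c) c := by
  have hU : ConnS (Set.univ : Set (Vtx n)) := univ_conn (by omega)
  have hne : cutf a ≠ cutf (flipOn a T) := by
    obtain ⟨x, hx, _⟩ := h1
    obtain ⟨y, hy, _⟩ := h2
    exact cutf_flipOn_ne hU hST ⟨x, hx⟩ ⟨y, hy⟩
  by_cases hY : psi c = cutf a
  · have hX := agree_back' hn hU hST h1 h2 (Or.inl hY)
    have hZ : ¬ psi c = cutf (flipOn a T) := by rw [hY]; exact hne
    rw [ind_true hX.1, ind_true hX.2, ind_true (P := fun c => psi c = cutf a) hY,
      ind_false (P := fun c => psi c = cutf (flipOn a T)) hZ]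
    norm_num
    exact ind_nonneg _ _
  by_cases hZ : psi c = cutf (flipOn a T)
  · have hX := agree_back' hn hU hST h1 h2 (Or.inr hZ)
    rw [ind_true hX.1, ind_true hX.2, ind_false (P := fun c => psi c = cutf a) hY,
      ind_true (P := fun c => psi c = cutf (flipOn a T)) hZ]
    norm_num
    exact ind_nonneg _ _
  rw [ind_false (P := fun c => psi c = cutf a) hY,
    ind_false (P := fun c => psi c = cutf (flipOn a T)) hZ]
  by_cases hX : Agree a S c ∧ Agree a T c
  · rw [ind_true hX.1, ind_true hX.2]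
    have : ¬ NoAvoid c := by
      intro hna
      rcases agree_forward hn hc hna hST hS hT h1 h2 hX.1 hX.2 with h | h
      · exact hY h
      · exact hZ h
    rw [ind_true this]
    norm_num
  · have : ind (Agree a S) c * ind (Agree a T) c = 0 := by
      by_cases hA : Agree a S c
      · rw [ind_false (P := Agree a T) (fun h => hX ⟨hA, h⟩), mul_zero]
      · rw [ind_false hA, zero_mul]
    rw [this]
    norm_num
    exact ind_nonneg _ _

theorem ex_ind_eq (p : Cfg n → ℝ) (d : Cfg n) : ex p (ind fun c => c = d) = p d := by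
  unfold ex
  rw [Finset.sum_eq_single d]
  · rw [ind_true (P := fun c => c = d) rfl, mul_one]
  · intro c _ hc
    rw [ind_false (P := fun c => c = d) hc, mul_zero]
  · intro h; exact absurd (Finset.mem_univ _) h

theorem rt_ref (hn : 3 ≤ n) {p : Cfg n → ℝ} (hp : ∀ c, p c ≠ 0 → ∃ a, c = cutf a)
    {S T : Set (Vtx n)} (hST : ∀ v, v ∈ S ↔ v ∉ T) (hS : ConnS S) (hT : ConnS T)
    {a : Vtx n → Bool} (h1 : NCon a S) (h2 : NCon a T) :
    ex p (fun c => ind (Agree a S) c * ind (Agree a T) c) =
      p (cutf a) + p (cutf (flipOn a T)) := by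
  rw [← ex_ind_eq p (cutf a), ← ex_ind_eq p (cutf (flipOn a T)), ← ex_add]
  apply ex_congr
  intro c hc
  obtain ⟨b, rfl⟩ := hp c hc
  have hf := cutf_flat b
  have := rt_point hn (cutf_sym b) hST hS hT h1 h2
  rw [ind_false (P := fun c => ¬ NoAvoid c) (fun h => h (flat_noAvoid hf))] at this
  have h3 := abs_nonpos_iff.mp this
  have h4 : ∀ d, ind (fun c => psi c = d) (cutf b) = ind (fun c => c = d) (cutf b) := by
    intro d
    exact ind_congr (P := fun c => psi c = d) (Q := fun c => c = d)
      (by simp only [psi_flat hn hf])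
  rw [h4, h4] at h3
  linarith

theorem abs_mul_sub {x y x' y' : ℝ} : |x * y - x' * y'| ≤ |x| * |y - y'| + |y'| * |x - x'| := by
  have : x * y - x' * y' = x * (y - y') + y' * (x - x') := by ring
  rw [this]
  refine (abs_add_le _ _).trans ?_
  rw [abs_mul, abs_mul]

theorem agree_small {m : Cfg n → ℝ} (hm : Good m) {ε : ℝ} (hcl : ∀ v i, pcl m v i ≤ ε)
    {S : Set (Vtx n)} (hS : ConnS S) {a : Vtx n → Bool} (h1 : NCon a S) :
    ex m (ind (Agree a S)) ≤ (2 ^ n * n) * ε := by
  obtain ⟨v, i, hv, hi, hvi⟩ := exists_closed hS h1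
  have h2 : ex m (ind (Agree a S)) ≤ pcl m v i := by
    apply ex_mono hm.nonneg
    intro c _
    by_cases h : Agree a S c
    · rw [ind_true h, ind_true]
      rw [h v i hv hi]; exact hvi
    · rw [ind_false h]; exact ind_nonneg _ _
  have h3 := hcl v i
  have h4 : 0 ≤ pcl m v i := hm.pcl_nonneg v i
  have h5 : (1 : ℝ) ≤ 2 ^ n * n := by
    have : 1 ≤ n := by
      by_contra hcon
      have : n = 0 := by omega
      subst this
      exact i.elim0
    have h6 : (1 : ℝ) ≤ n := by exact_mod_cast this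
    have h7 : (1 : ℝ) ≤ 2 ^ n := one_le_pow₀ (by norm_num)
    nlinarith
  nlinarith

/-- the main flip relation -/
theorem rt_bound (hn : 3 ≤ n) {m : Cfg n → ℝ} (hm : Good m) {p : Cfg n → ℝ}
    (hp : ∀ c, p c ≠ 0 → ∃ a, c = cutf a) (hpi : Indep1 p) {ε : ℝ} (hε : 0 ≤ ε)
    (hcl : ∀ v i, pcl m v i ≤ ε)
    {S T : Set (Vtx n)} (hST : ∀ v, v ∈ S ↔ v ∉ T) (hS : ConnS S) (hT : ConnS T)
    {a : Vtx n → Bool} (h1 : NCon a S) (h2 : NCon a T)
    (hpT : |ex p (ind (Agree a T))| ≤ 8 * ε) :
    |eta m p (cutf a) + eta m p (cutf (flipOn a T))| ≤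
      (2 ^ n * n) * ε * bb m + ((2 ^ n * n) * ε + 8 * ε) * (De m p + bb m) := by
  have hdis : ∀ v, v ∈ S → v ∉ T := fun v hv => (hST v).mp hv
  have e1 : |ex m (fun c => ind (Agree a S) c * ind (Agree a T) c) -
      (mh m (cutf a) + mh m (cutf (flipOn a T)))| ≤ (2 ^ n * n) * ε * bb m := by
    unfold mh
    rw [← ex_add, ← ex_sub]
    refine le_trans (ex_abs_le hm.nonneg fun c hc => rt_point hn (hm.sym c hc) hST hS hT h1 h2) ?_
    exact pna_bound hm hε hcl
  rw [hm.indep S T hdis _ _ (local_agree a S) (local_agree a T)] at e1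
  have e2 := rt_ref hn hp hST hS hT h1 h2
  rw [hpi S T hdis _ _ (local_agree a S) (local_agree a T)] at e2
  have e3 : |ex m (ind (Agree a S)) * ex m (ind (Agree a T)) -
      ex p (ind (Agree a S)) * ex p (ind (Agree a T))| ≤
      ((2 ^ n * n) * ε + 8 * ε) * (De m p + bb m) := by
    refine abs_mul_sub.trans ?_
    have t1 := tv_bound hn hm p (F := ind (Agree a T)) (ind_nonneg _) (ind_le_one _)
    have t2 := tv_bound hn hm p (F := ind (Agree a S)) (ind_nonneg _) (ind_le_one _)
    have t3 := agree_small hm hcl hS h1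
    have t4 : 0 ≤ ex m (ind (Agree a S)) := ex_nonneg hm.nonneg fun c => ind_nonneg _ c
    rw [abs_of_nonneg t4, add_mul]
    have t5 : 0 ≤ De m p + bb m := add_nonneg (De_nonneg m p) hm.bb_nonneg
    apply add_le_add
    · exact mul_le_mul t3 t1 (abs_nonneg _) (by positivity)
    · exact mul_le_mul hpT t2 (abs_nonneg _) (by positivity)
  have e4 : eta m p (cutf a) + eta m p (cutf (flipOn a T)) =
      (ex m (ind (Agree a S)) * ex m (ind (Agree a T)) -
        ex p (ind (Agree a S)) * ex p (ind (Agree a T))) -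
      (ex m (ind (Agree a S)) * ex m (ind (Agree a T)) -
        (mh m (cutf a) + mh m (cutf (flipOn a T)))) := by
    unfold eta
    rw [e2]; ring
  rw [e4]
  refine (abs_sub _ _).trans ?_
  linarith

end Pool.Agent.helper40.Signs
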