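import Pool.Agent.helper40.Signs.Level

/-! The comparison of disconnection probabilities. -/

namespace Pool.Agent.helper40.Signs

open Classical

variable {n : ℕ}

theorem mh_total {m : Cfg n → ℝ} (hm : Good m) : ∑ d, mh m d = 1 := by
  have := ex_psi m (fun _ => 1)
  simp only [mul_one] at this
  rw [← this]
  unfold ex
  simp only [mul_one]
  exact hm.total

theorem eta_total {m : Cfg n → ℝ} (hm : Good m) (α β : ℝ) :
    ∑ d, eta m (refm (wt α β)) d = 0 := by
  unfold eta
  rw [Finset.sum_sub_distrib, mh_total hm, refm_total _ (wt_sum α β), sub_self]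

/-- being a cut -/
def IsCut (d : Cfg n) : Prop := ∃ a, d = cutf a

theorem noncut_sum (hn : 3 ≤ n) {m : Cfg n → ℝ} (hm : Good m) :
    ∑ d, mh m d * (if IsCut d then 0 else 1) ≤ bb m := by
  have := ex_psi m (fun d => if IsCut d then (0 : ℝ) else 1)
  rw [← this]
  apply ex_mono hm.nonneg
  intro c hc
  by_cases hf : Flat c
  · obtain ⟨b, hb⟩ := flat_cut c (hm.sym c hc) hf
    have hcb : c = cutf b := by funext v i; exact hb v i
    have : IsCut (psi c) := ⟨b, by rw [psi_flat hn hf, hcb]⟩
    rw [if_pos this]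
    exact ind_nonneg _ _
  · rw [ind_true (P := fun c => ¬ Flat c) hf]
    split_ifs <;> norm_num

theorem cut_sum {B : ℝ} (hB : 0 ≤ B) :
    ∑ d : Cfg n, (if IsCut d then B else 0) ≤ 2 ^ (2 ^ n) * B := by
  rw [← Finset.sum_filter, Finset.sum_const, nsmul_eq_mul]
  apply mul_le_mul_of_nonneg_right _ hB
  have h1 : (Finset.univ.filter fun d : Cfg n => IsCut d) ⊆
      Finset.univ.image (cutf (n := n)) := by
    intro d hd
    rw [Finset.mem_filter] at hd
    obtain ⟨a, ha⟩ := hd.2
    rw [Finset.mem_image]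
    exact ⟨a, Finset.mem_univ _, ha.symm⟩
  have h2 := (Finset.card_le_card h1).trans Finset.card_image_le
  have h3 : (Finset.univ : Finset (Vtx n → Bool)).card = 2 ^ (2 ^ n) := by
    rw [Finset.card_univ, Fintype.card_fun, Fintype.card_fun]
    simp
  rw [h3] at h2
  exact_mod_cast h2

theorem De_bound (hn : 3 ≤ n) {m : Cfg n → ℝ} (hm : Good m) {α β B : ℝ} (hB : 0 ≤ B)
    (h : ∀ a, cutf a ≠ cutf (fun _ : Vtx n => false) → |eta m (refm (wt α β)) (cutf a)| ≤ B) :
    De m (refm (wt α β)) ≤ 2 * (2 ^ (2 ^ n) * B + bb m) := by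
  set p := refm (wt α β (n := n)) with hp
  set G0 : Cfg n := cutf (fun _ => false) with hG0
  have h1 : ∑ d ∈ Finset.univ.erase G0, |eta m p d| ≤ 2 ^ (2 ^ n) * B + bb m := by
    have s1 : ∑ d ∈ Finset.univ.erase G0, |eta m p d| ≤
        ∑ d ∈ Finset.univ.erase G0, ((if IsCut d then B else 0) +
          mh m d * (if IsCut d then 0 else 1)) := by
      apply Finset.sum_le_sum
      intro d hd
      by_cases hc : IsCut d
      · rw [if_pos hc, if_pos hc, mul_zero, add_zero]
        obtain ⟨a, rfl⟩ := hc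
        exact h a (Finset.mem_erase.mp hd).1
      · rw [if_neg hc, if_neg hc, zero_add, mul_one]
        have hp0 : p d = 0 := by
          by_contra hne
          exact hc (refm_supp _ hne)
        unfold eta
        rw [hp0, sub_zero, abs_of_nonneg (mh_nonneg hm d)]
    have s2 : ∑ d ∈ Finset.univ.erase G0, ((if IsCut d then B else 0) +
          mh m d * (if IsCut d then 0 else 1)) ≤
        ∑ d : Cfg n, ((if IsCut d then B else 0) + mh m d * (if IsCut d then 0 else 1)) := by
      apply Finset.sum_le_sum_of_subset_of_nonneg (Finset.erase_subset _ _)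
      intro d _ _
      have := mh_nonneg hm d
      split_ifs
      · linarith
      · linarith
    have s3 := noncut_sum hn hm
    have s4 := cut_sum (n := n) hB
    have s5 := s1.trans s2
    rw [Finset.sum_add_distrib] at s5
    linarith
  have h2 := eta_total hm α β
  rw [← hp, ← Finset.add_sum_erase Finset.univ _ (Finset.mem_univ G0)] at h2
  have h3 : |eta m p G0| ≤ ∑ d ∈ Finset.univ.erase G0, |eta m p d| := by
    have : eta m p G0 = - ∑ d ∈ Finset.univ.erase G0, eta m p d := by linarith
    rw [this, abs_neg]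
    exact Finset.abs_sum_le_sum_abs _ _
  unfold De
  rw [← Finset.add_sum_erase Finset.univ _ (Finset.mem_univ G0)]
  linarith

/-! ### the functional -/

/-- the open graph is disconnected -/
def Dis (c : Cfg n) : Prop :=
  ∃ A : Vtx n → Bool, NCon A Set.univ ∧ ∀ v i, A v ≠ A (fl v i) → c v i = true

noncomputable def cnt (c : Cfg n) : ℝ := ∑ v, ∑ i, ind (fun c => c v i = true) c

noncomputable def fn (c : Cfg n) : ℝ := ind Dis c - cnt c / (2 * n)

theorem cnt_nonneg (c : Cfg n) : 0 ≤ cnt c :=
  Finset.sum_nonneg fun v _ => Finset.sum_nonneg fun i _ => ind_nonneg _ _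

theorem cnt_le (c : Cfg n) : cnt c ≤ 2 ^ n * n := by
  unfold cnt
  calc ∑ v : Vtx n, ∑ i : Fin n, ind (fun c => c v i = true) c
      ≤ ∑ _v : Vtx n, ∑ _i : Fin n, (1 : ℝ) :=
        Finset.sum_le_sum fun _ _ => Finset.sum_le_sum fun _ _ => ind_le_one _ _
    _ = 2 ^ n * n := by
        rw [Finset.sum_const, Finset.sum_const, Finset.card_univ, Finset.card_univ,
          Fintype.card_fin, Fintype.card_fun]
        simp

theorem fn_le_one (c : Cfg n) : fn c ≤ 1 := by
  unfold fn
  have h1 := ind_le_one Dis c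
  have h2 : 0 ≤ cnt c / (2 * n) := div_nonneg (cnt_nonneg c) (by positivity)
  linarith

theorem fn_abs (hn : 3 ≤ n) (c : Cfg n) : |fn c| ≤ 2 ^ n := by
  have h1 := fn_le_one c
  have h2 : (8 : ℝ) ≤ 2 ^ n := by exact_mod_cast two_pow_ge hn
  have h3 := ind_nonneg Dis c
  have hn' : (3 : ℝ) ≤ n := by exact_mod_cast hn
  have h4 : cnt c / (2 * n) ≤ 2 ^ n / 2 := by
    rw [div_le_div_iff₀ (by linarith) (by norm_num)]
    have := cnt_le c
    nlinarith
  rw [abs_le]
  unfold fn at h1 ⊢
  constructor <;> linarith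

theorem dis_cutf (hn : 1 ≤ n) (a : Vtx n → Bool) : Dis (cutf a) ↔ NCon a Set.univ := by
  constructor
  · rintro ⟨A, hA, h⟩
    by_contra hcon
    have hconst : ∀ x y, a x = a y := by
      intro x y
      by_contra hxy
      exact hcon ⟨x, Set.mem_univ _, y, Set.mem_univ _, hxy⟩
    obtain ⟨v, i, _, _, hvi⟩ := exists_closed (univ_conn hn) hA
    have h1 : A v ≠ A (fl v i) := by
      unfold cutf at hvi
      revert hvi
      cases A v <;> cases A (fl v i) <;> simp
    have h2 := h v i h1
    unfold cutf at h2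
    rw [hconst v (fl v i)] at h2
    simp at h2
  · intro h
    refine ⟨a, h, fun v i hvi => ?_⟩
    unfold cutf
    revert hvi
    cases a v <;> cases a (fl v i) <;> simp

theorem not_ncon_const (b : Bool) : ¬ NCon (fun _ : Vtx n => b) Set.univ := by
  rintro ⟨x, _, y, _, h⟩
  exact h rfl

theorem fn_zero (hn : 1 ≤ n) : fn (cutf (fun _ : Vtx n => false)) = 0 := by
  unfold fn
  rw [ind_false (P := Dis) (fun h => not_ncon_const false ((dis_cutf hn _).mp h))]
  have : cnt (cutf (fun _ : Vtx n => false)) = 0 := by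
    unfold cnt
    apply Finset.sum_eq_zero
    intro v _
    apply Finset.sum_eq_zero
    intro i _
    rw [ind_false]
    unfold cutf
    simp
  rw [this]; simp

theorem ncon_sg (hn : 1 ≤ n) (u : Vtx n) : NCon (sg u) Set.univ := by
  refine ⟨u, Set.mem_univ _, fl u ⟨0, by omega⟩, Set.mem_univ _, ?_⟩
  unfold sg
  simp [fl_neq]

theorem fl_eq_iff {v u : Vtx n} {i : Fin n} : fl v i = u ↔ v = fl u i := by
  constructor
  · rintro rfl; rw [fl_fl]
  · rintro rfl; rw [fl_fl]

theorem fn_star (hn : 1 ≤ n) (u : Vtx n) : fn (cutf (sg u)) = 0 := by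
  unfold fn
  rw [ind_true (P := Dis) ((dis_cutf hn _).mpr (ncon_sg hn u))]
  have : cnt (cutf (sg u)) = 2 * n := by
    unfold cnt
    rw [Finset.sum_comm]
    have h1 : ∀ i : Fin n, ∑ v, ind (fun c => c v i = true) (cutf (sg u)) = 2 := by
      intro i
      have h2 : ∀ v, ind (fun c => c v i = true) (cutf (sg u)) =
          (if v = u then (1 : ℝ) else 0) + (if v = fl u i then 1 else 0) := by
        intro v
        by_cases h3 : v = u
        · have h4 : v ≠ fl u i := by rw [h3]; exact (fl_neq u i).symm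
          rw [if_pos h3, if_neg h4, ind_true]
          · ring
          · rw [h3]; exact cutf_sg u i
        · by_cases h4 : v = fl u i
          · rw [if_neg h3, if_pos h4, ind_true]
            · ring
            · rw [h4, cutf_sym]; exact cutf_sg u i
          · rw [if_neg h3, if_neg h4, ind_false]
            · ring
            · have h5 : ¬ fl v i = u := fun h => h4 (fl_eq_iff.mp h)
              unfold cutf sg
              simp [h3, h5]
      rw [Finset.sum_congr rfl fun v _ => h2 v, Finset.sum_add_distrib, Finset.sum_ite_eq',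
        Finset.sum_ite_eq']
      simp
      norm_num
    rw [Finset.sum_congr rfl fun i _ => h1 i, Finset.sum_const, Finset.card_univ,
      Fintype.card_fin, nsmul_eq_mul]
    ring
  rw [this]
  have : (n : ℝ) ≠ 0 := by
    have : (1 : ℝ) ≤ n := by exact_mod_cast hn
    linarith
  field_simp
  ring

theorem cutf_true_iff (a : Vtx n → Bool) (v : Vtx n) (i : Fin n) :
    cutf a v i = true ↔ a v ≠ a (fl v i) := by
  unfold cutf
  cases a v <;> cases a (fl v i) <;> simp

theorem fn_et (hn : 3 ≤ n) {c : Cfg n} (hc : SymC c) (hE : IsET c) :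
    fn c = fn (psi c) - 1 / n := by
  have hpsi : psi c = cutf (fullf c) := by
    unfold psi
    rw [if_pos hE]
  obtain ⟨v, i, h⟩ := hE
  have hN : NCon (fullf c) Set.univ := by
    obtain ⟨k, hk1, hk2⟩ := exists_ne_dir hn v v (fl v i)
    refine ⟨v, Set.mem_univ _, fl v k, Set.mem_univ _, ?_⟩
    have e1 : fullf c v = true := (fullf_et hn h v).mpr (Or.inl rfl)
    have e2 : ¬ fullf c (fl v k) = true := by
      rw [fullf_et hn h]
      rintro (h' | h')
      · exact hk1 h'
      · exact hk2 h'
    rw [e1]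
    exact fun h' => e2 h'.symm
  have hD1 : Dis (psi c) := by rw [hpsi]; exact (dis_cutf (by omega) _).mpr hN
  have hD2 : Dis c := by
    obtain ⟨A, hA, hAc⟩ := hD1
    exact ⟨A, hA, fun w k hw => psi_le hc (hAc w k hw)⟩
  have hcnt : cnt c = cnt (psi c) + 2 := by
    unfold cnt
    have h1 : ∀ w k, ind (fun c => c w k = true) c = ind (fun c => c w k = true) (psi c) +
        ((if w = v then (if k = i then (1 : ℝ) else 0) else 0) +
          (if w = fl v i then (if k = i then 1 else 0) else 0)) := by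
      intro w k
      have e1 := fullf_et hn h w
      have e2 := fullf_et hn h (fl w k)
      have e3 := h w k
      rw [hpsi]
      by_cases hki : k = i
      · subst hki
        by_cases hw1 : w = v
        · subst hw1
          have : w ≠ fl w k := (fl_neq w k).symm
          rw [if_pos rfl, if_pos rfl, if_neg this, ind_true, ind_false]
          · ring
          · rw [cutf_true_iff]
            intro h'
            apply h'
            rw [e1.mpr (Or.inl rfl), e2.mpr (Or.inr rfl)]
          · exact e3.mpr (Or.inl (Or.inl rfl))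
        · by_cases hw2 : w = fl v k
          · subst hw2
            rw [if_neg (fl_neq v k), if_pos rfl, if_pos rfl, ind_true, ind_false]
            · ring
            · rw [cutf_true_iff]
              intro h'
              apply h'
              rw [e1.mpr (Or.inr rfl), e2.mpr (Or.inl (fl_fl v k))]
            · exact e3.mpr (Or.inr (Or.inl rfl))
          · rw [if_neg hw1, if_neg hw2]
            have hw3 : fl w k ≠ v := fun h' => hw2 (fl_eq_iff.mp h')
            have hw4 : fl w k ≠ fl v k := fun h' => hw1 (fl_inj h')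
            rw [ind_false, ind_false]
            · ring
            · rw [cutf_true_iff]
              intro h'
              apply h'
              have f1 : fullf c w = false := by
                rw [← Bool.not_eq_true, e1]
                rintro (h'' | h'')
                · exact hw1 h''
                · exact hw2 h''
              have f2 : fullf c (fl w k) = false := by
                rw [← Bool.not_eq_true, e2]
                rintro (h'' | h'')
                · exact hw3 h''
                · exact hw4 h''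
              rw [f1, f2]
            · rw [e3]
              rintro ((h' | h') | (h' | h'))
              · exact hw1 h'
              · exact hw3 h'
              · exact hw2 h'
              · exact hw4 h'
      · have z1 : (if w = v then (if k = i then (1 : ℝ) else 0) else 0) = 0 := by
          rw [if_neg hki]; simp
        have z2 : (if w = fl v i then (if k = i then (1 : ℝ) else 0) else 0) = 0 := by
          rw [if_neg hki]; simp
        rw [z1, z2, add_zero, add_zero]
        apply ind_congr (P := fun c => c w k = true) (Q := fun c => c w k = true)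
        rw [e3, cutf_true_iff]
        have nb : ¬ (fullf c w = true ∧ fullf c (fl w k) = true) := by
          rintro ⟨g1, g2⟩
          rw [e1] at g1
          rw [e2] at g2
          rcases g1 with g1 | g1 <;> rcases g2 with g2 | g2
          · rw [← g1] at g2; exact fl_neq w k g2
          · rw [← g1] at g2; exact hki (fl_dir g2)
          · rw [g1] at g2
            rw [fl_eq_iff] at g2
            exact hki (fl_dir g2).symm
          · rw [← g1] at g2; exact fl_neq w k g2
        have : (Has w k v ∨ Has w k (fl v i)) ↔ (fullf c w = true ∨ fullf c (fl w k) = true) := by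
          rw [e1, e2]; exact or_or_or_comm
        rw [this]
        revert nb
        cases fullf c w <;> cases fullf c (fl w k) <;> simp
    have h2 : ∀ w, ∑ k, ind (fun c => c w k = true) c =
        ∑ k, ind (fun c => c w k = true) (psi c) +
        ((if w = v then (1 : ℝ) else 0) + (if w = fl v i then 1 else 0)) := by
      intro w
      rw [Finset.sum_congr rfl fun k _ => h1 w k, Finset.sum_add_distrib]
      congr 1
      rw [Finset.sum_add_distrib]
      congr 1
      · by_cases hw : w = v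
        · simp [hw]
        · simp [hw]
      · by_cases hw : w = fl v i
        · simp [hw]
        · simp [hw]
    rw [Finset.sum_congr rfl fun w _ => h2 w, Finset.sum_add_distrib]
    congr 1
    rw [Finset.sum_add_distrib, Finset.sum_ite_eq', Finset.sum_ite_eq']
    simp
    norm_num
  unfold fn
  rw [ind_true hD1, ind_true hD2, hcnt]
  have : (n : ℝ) ≠ 0 := by
    have : (3 : ℝ) ≤ n := by exact_mod_cast hn
    linarith
  field_simp
  ring

theorem cnt_ge_two {c : Cfg n} (hc : SymC c) {w : Vtx n} {k : Fin n} (h : c w k = true) :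
    2 ≤ cnt c := by
  unfold cnt
  have h1 : ∑ v ∈ {w, fl w k}, ∑ i, ind (fun c => c v i = true) c ≤
      ∑ v, ∑ i, ind (fun c => c v i = true) c :=
    Finset.sum_le_sum_of_subset_of_nonneg (Finset.subset_univ _) fun v _ _ =>
      Finset.sum_nonneg fun i _ => ind_nonneg _ _
  rw [Finset.sum_pair (fl_neq w k).symm] at h1
  have h2 : ∀ v, c v k = true → 1 ≤ ∑ i, ind (fun c => c v i = true) c := by
    intro v hv
    calc (1 : ℝ) = ind (fun c => c v k = true) c := (ind_true (P := fun c => c v k = true) hv).symm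
      _ ≤ _ := Finset.single_le_sum (f := fun i => ind (fun c => c v i = true) c)
          (fun i _ => ind_nonneg _ _) (Finset.mem_univ k)
  have h3 := h2 w h
  have h4 := h2 (fl w k) (by rw [hc]; exact h)
  linarith

theorem fn_other (hn : 3 ≤ n) {c : Cfg n} (hc : SymC c) (hf : ¬ Flat c) (hE : ¬ IsET c)
    (hna : NoAvoid c) : fn c ≤ - (1 / n) := by
  have hodd : ∃ v i j, i ≠ j ∧ par c v i j = true := by
    unfold Flat at hf
    push Not at hf
    obtain ⟨v, i, j, hij, h⟩ := hf
    exact ⟨v, i, j, hij, by simpa using h⟩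
  obtain ⟨v0, i0, j0, hij0, hodd⟩ := hodd
  have hclosed : ∃ w k, c w k = true := by
    by_contra hcon
    push Not at hcon
    simp only [ne_eq, Bool.not_eq_true] at hcon
    unfold par at hodd
    rw [hcon, hcon, hcon, hcon] at hodd
    simp at hodd
  obtain ⟨w0, k0, hwk⟩ := hclosed
  have hcnt := cnt_ge_two hc hwk
  have hnD : ¬ Dis c := by
    rintro ⟨A, hA, hAc⟩
    rcases classify hn c hc hna hij0 hodd with ⟨v, hv⟩ | ⟨v, i, hET⟩
    · apply hf
      obtain ⟨k, hk, hkv⟩ := gc_surj v
      -- `A` is constant off `v`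
      have hT : ∀ x, x ∈ Arc n (k + 1) (k + 2 ^ n) ↔ x ∉ Arc n k (k + 1) :=
        arc_compl (by omega) (by omega)
      have hS : ∀ x, x ∈ Arc n k (k + 1) ↔ x = v := by
        intro x
        constructor
        · rintro ⟨l, hl1, hl2, rfl⟩
          have : l = k := by omega
          rw [this, hkv]
        · rintro rfl
          exact ⟨k, by omega, by omega, hkv⟩
      have hTm : ∀ x, x ∈ Arc n (k + 1) (k + 2 ^ n) ↔ x ≠ v := by
        intro x; rw [hT, hS]
      have hc1 : ∀ x i, x ≠ v → fl x i ≠ v → A x = A (fl x i) := by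
        intro x i h1 h2
        by_contra hcon
        rcases hv x i (hAc x i hcon) with h | h
        · exact h1 h
        · exact h2 h
      have hconst : (∀ x, x ≠ v → A x = false) ∨ (∀ x, x ≠ v → A x = true) := by
        rcases arc_conn (n := n) (by omega) (k + 1) (k + 2 ^ n) A (fun _ => false) (by
          intro x i hx hi
          have := hc1 x i ((hTm x).mp hx) ((hTm _).mp hi)
          unfold cutf
          rw [this]
          simp) with h | h
        · left
          intro x hx
          exact h x ((hTm x).mpr hx)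
        · right
          intro x hx
          exact h x ((hTm x).mpr hx)
      have hdiff : ∀ x, x ≠ v → A x ≠ A v := by
        intro x hx he
        obtain ⟨y, _, z, _, hyz⟩ := hA
        have all : ∀ y, A y = A v := by
          intro y
          by_cases hy : y = v
          · rw [hy]
          · rw [← he]
            rcases hconst with h | h
            · rw [h x hx, h y hy]
            · rw [h x hx, h y hy]
        exact hyz (by rw [all y, all z])
      have hcA : c = cutf A := by
        funext x i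
        have hiff : c x i = true ↔ cutf A x i = true := by
          rw [cutf_true_iff]
          constructor
          · intro h
            rcases hv x i h with h' | h'
            · rw [h']
              exact fun he => hdiff _ (fl_neq v i) he.symm
            · rw [h']
              have : x ≠ v := by rw [← h']; exact (fl_neq x i).symm
              exact hdiff x this
          · exact hAc x i
        revert hiff
        cases c x i <;> cases cutf A x i <;> simp
      rw [hcA]
      exact cutf_flat A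
    · exact hE ⟨v, i, hET⟩
  unfold fn
  rw [ind_false hnD]
  have hn' : (0 : ℝ) < n := by
    have : (3 : ℝ) ≤ n := by exact_mod_cast hn
    linarith
  have : 1 / (n : ℝ) ≤ cnt c / (2 * n) := by
    rw [div_le_div_iff₀ hn' (by linarith)]
    nlinarith
  linarith

noncomputable def f0 (d : Cfg n) : ℝ := if IsCut d then fn d else 0

theorem fn_point (hn : 3 ≤ n) {c : Cfg n} (hc : SymC c) :
    fn c ≤ f0 (psi c) - 1 / n * ind (fun c => ¬ Flat c) c + 2 * ind (fun c => ¬ NoAvoid c) c := by
  have hn' : (3 : ℝ) ≤ n := by exact_mod_cast hn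
  have h1n : 1 / (n : ℝ) ≤ 1 := by
    rw [div_le_one (by linarith)]; linarith
  have hA := ind_nonneg (fun c => ¬ NoAvoid c) c
  by_cases hf : Flat c
  · obtain ⟨b, hb⟩ := flat_cut c hc hf
    have hcb : c = cutf b := by funext v i; exact hb v i
    rw [psi_flat hn hf]
    unfold f0
    rw [if_pos ⟨b, hcb⟩, ind_false (P := fun c => ¬ Flat c) (fun h => h hf)]
    linarith
  · rw [ind_true (P := fun c => ¬ Flat c) hf]
    by_cases hE : IsET c
    · have h1 := fn_et hn hc hE
      have h2 : IsCut (psi c) := ⟨fullf c, by unfold psi; rw [if_pos hE]⟩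
      unfold f0
      rw [if_pos h2]
      linarith
    · have hpsi : psi c = c := by unfold psi; rw [if_neg hE]
      have hnc : ¬ IsCut c := by
        rintro ⟨a, rfl⟩
        exact hf (cutf_flat a)
      rw [hpsi]
      unfold f0
      rw [if_neg hnc]
      by_cases hna : NoAvoid c
      · have := fn_other hn hc hf hE hna
        linarith
      · rw [ind_true (P := fun c => ¬ NoAvoid c) hna]
        have := fn_le_one c
        linarith

theorem ex_cnt (m : Cfg n → ℝ) : ex m cnt = ∑ v, ∑ i, ex m (ind fun c => c v i = true) := by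
  unfold cnt
  rw [ex_sum]
  apply Finset.sum_congr rfl
  intro v _
  rw [ex_sum]

theorem ex_fn (m : Cfg n → ℝ) : ex m fn = ex m (ind Dis) - ex m cnt / (2 * n) := by
  have : ex m fn = ex m (fun c => ind Dis c - (1 / (2 * n)) * cnt c) := by
    apply ex_congr
    intro c _
    unfold fn
    ring
  rw [this, ex_sub, ex_smul]
  ring

theorem ex_fn_ref {m : Cfg n → ℝ} {α β ε : ℝ} {N : ℕ} (hP : Par α β ε N) :
    ex (refm (wt α β)) (fn (n := n)) - ex m fn =
      ex (refm (wt α β)) (ind (Dis (n := n))) - ex m (ind Dis) - dd m ε / (2 * n) := by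
  rw [ex_fn, ex_fn, ex_cnt, ex_cnt]
  have : dd m ε = ∑ v : Vtx n, ∑ i, ex (refm (wt α β)) (ind fun c => c v i = true) -
      ∑ v, ∑ i, ex m (ind fun c => c v i = true) := by
    unfold dd
    rw [← Finset.sum_sub_distrib]
    apply Finset.sum_congr rfl
    intro v _
    rw [← Finset.sum_sub_distrib]
    apply Finset.sum_congr rfl
    intro i _
    rw [ex_cl_ref hP]
    rfl
  rw [this]
  ring

theorem ref_f0 (α β : ℝ) :
    ex (refm (wt α β)) (fn (n := n)) = ∑ d : Cfg n, refm (wt α β) d * f0 d := by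
  unfold ex
  apply Finset.sum_congr rfl
  intro d _
  by_cases h : refm (wt α β) d = 0
  · rw [h]; simp
  · have : IsCut d := refm_supp _ h
    unfold f0
    rw [if_pos this]

theorem key_sum (hn : 3 ≤ n) {m : Cfg n → ℝ} {α β B : ℝ} (hB : 0 ≤ B)
    (h : ∀ a : Vtx n → Bool, cutf a = cutf (fun _ => false) ∨ (∃ u, cutf a = cutf (sg u)) ∨
      |eta m (refm (wt α β)) (cutf a)| ≤ B) :
    ∑ d, eta m (refm (wt α β)) d * f0 d ≤ 2 ^ (2 ^ n) * (B * 2 ^ n) := by
  refine le_trans ?_ (cut_sum (n := n) (B := B * 2 ^ n) (by positivity))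
  apply Finset.sum_le_sum
  intro d _
  unfold f0
  by_cases hd : IsCut d
  · rw [if_pos hd, if_pos hd]
    obtain ⟨a, rfl⟩ := hd
    rcases h a with h' | ⟨u, h'⟩ | h'
    · rw [h', fn_zero (by omega), mul_zero]; positivity
    · rw [h', fn_star (by omega), mul_zero]; positivity
    · refine (le_abs_self _).trans ?_
      rw [abs_mul]
      exact mul_le_mul h' (fn_abs hn _) (abs_nonneg _) hB
  · rw [if_neg hd, if_neg hd, mul_zero]

theorem smallA {K N r ε : ℝ} (hK : 1 ≤ K) (hN : 8 ≤ N) (hr : 3 ≤ r)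
    (hrN : 8 * (r * r) ≤ 9 * N) (e0 : 0 ≤ ε) (hε : ε * (256 * (K * K) * N ^ 6) ≤ 1) :
    64 * K * (N ^ 3 * r) * ε ≤ 1 := by
  refine le_trans ?_ hε
  rw [mul_comm ε]
  apply mul_le_mul_of_nonneg_right _ e0
  have h1 : r ≤ N := by nlinarith
  have h2 : N ^ 3 * r ≤ N ^ 3 * N := mul_le_mul_of_nonneg_left h1 (by positivity)
  have h3 : N ^ 3 * N ≤ N ^ 6 := by
    have e : N ^ 3 * N = N ^ 4 := by ring
    rw [e]
    exact pow_le_pow_right₀ (by linarith) (by norm_num)
  have h4 : K ≤ K * K := by nlinarith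
  calc 64 * K * (N ^ 3 * r) ≤ 64 * K * N ^ 6 :=
        mul_le_mul_of_nonneg_left (h2.trans h3) (by positivity)
    _ ≤ 256 * (K * K) * N ^ 6 := by
        apply mul_le_mul_of_nonneg_right _ (by positivity)
        linarith

theorem numericA {K N r ε κ b De L δ B : ℝ} (hK : 1 ≤ K) (hN : 8 ≤ N) (hr : 3 ≤ r)
    (hNr : 24 ≤ N * r) (e0 : 0 ≤ ε) (c1 : 64 * K * (N ^ 3 * r) * ε ≤ 1)
    (b0 : 0 ≤ b) (bκ : b ≤ κ) (hDe : 0 ≤ De)
    (hL : L = κ + ε * (De + b)) (hδ : δ = (N * r) * ε * b + ((N * r) * ε + 8 * ε) * (De + b))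
    (hB : B = N * L + 5 * (N * N) * δ) (hD : De ≤ 2 * (K * B + b)) :
    δ ≤ 15 * (K * N ^ 2 * r) * (ε * κ) := by
  have hκ : 0 ≤ κ := b0.trans bκ
  have hKN : 8 ≤ K * N := by nlinarith
  -- `R` dominates everything
  set R := De + κ with hR
  have hR0 : 0 ≤ R := by positivity
  have hεR : 0 ≤ ε * R := by positivity
  have s1 : δ ≤ 3 * (N * r) * (ε * R) := by
    have h1 : ε * b ≤ ε * R := mul_le_mul_of_nonneg_left (by linarith) e0
    have h2 : ε * (De + b) ≤ ε * R := mul_le_mul_of_nonneg_left (by linarith) e0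
    have h3 : (N * r) * (ε * b) ≤ (N * r) * (ε * R) := mul_le_mul_of_nonneg_left h1 (by linarith)
    have h4 : (N * r + 8) * (ε * (De + b)) ≤ (N * r + 8) * (ε * R) :=
      mul_le_mul_of_nonneg_left h2 (by linarith)
    have h5 : 8 * (ε * R) ≤ (N * r) * (ε * R) := mul_le_mul_of_nonneg_right (by linarith) hεR
    rw [hδ]
    linarith
  have s2 : L ≤ κ + ε * R := by
    have h2 : ε * (De + b) ≤ ε * R := mul_le_mul_of_nonneg_left (by linarith) e0
    rw [hL]; linarith
  have s3 : B ≤ N * κ + 16 * (N ^ 3 * r) * (ε * R) := by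
    have h1 : N * L ≤ N * (κ + ε * R) := mul_le_mul_of_nonneg_left s2 (by linarith)
    have h2 : 5 * (N * N) * δ ≤ 5 * (N * N) * (3 * (N * r) * (ε * R)) :=
      mul_le_mul_of_nonneg_left s1 (by positivity)
    have h3 : N * (ε * R) ≤ (N ^ 3 * r) * (ε * R) := by
      apply mul_le_mul_of_nonneg_right _ hεR
      have h4 : N * 1 ≤ N * (N * (N * r)) := by
        apply mul_le_mul_of_nonneg_left _ (by linarith)
        nlinarith
      linarith
    rw [hB]
    linarith
  have s4 : De ≤ 2 * (K * N * κ) + (1 / 2) * R + 2 * κ := by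
    have h1 : K * B ≤ K * (N * κ + 16 * (N ^ 3 * r) * (ε * R)) :=
      mul_le_mul_of_nonneg_left s3 (by linarith)
    have h2 : (64 * K * (N ^ 3 * r) * ε) * R ≤ 1 * R := mul_le_mul_of_nonneg_right c1 hR0
    linarith
  have s5 : R ≤ 5 * (K * N) * κ := by
    have h1 : 8 * κ ≤ K * N * κ := mul_le_mul_of_nonneg_right (by linarith) hκ
    linarith
  have h1 : ε * R ≤ ε * (5 * (K * N) * κ) := mul_le_mul_of_nonneg_left s5 e0
  have h2 : 3 * (N * r) * (ε * R) ≤ 3 * (N * r) * (ε * (5 * (K * N) * κ)) :=
    mul_le_mul_of_nonneg_left h1 (by positivity)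
  have h3 : 3 * (N * r) * (ε * (5 * (K * N) * κ)) = 15 * (K * N ^ 2 * r) * (ε * κ) := by ring
  linarith

/-- numerical step -/
theorem numeric {K N r ε κ b De L δ B : ℝ} (hK : 1 ≤ K) (hN : 8 ≤ N) (hr : 3 ≤ r)
    (hrN : 8 * (r * r) ≤ 9 * N) (e0 : 0 ≤ ε) (hε : ε * (256 * (K * K) * N ^ 6) ≤ 1)
    (b0 : 0 ≤ b) (bκ : b ≤ κ) (hDe : 0 ≤ De)
    (hL : L = κ + ε * (De + b)) (hδ : δ = (N * r) * ε * b + ((N * r) * ε + 8 * ε) * (De + b))
    (hB : B = N * L + 5 * (N * N) * δ) (hD : De ≤ 2 * (K * B + b)) :
    K * (5 * (N * N) * δ * N) + 2 * ((N * r) * ε * b) ≤ κ / (2 * r) := by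
  have hκ : 0 ≤ κ := b0.trans bκ
  have hNr : 24 ≤ N * r := by nlinarith
  have s6 := numericA hK hN hr hNr e0 (smallA hK hN hr hrN e0 hε) b0 bκ hDe hL hδ hB hD
  have s7 : K * (5 * (N * N) * δ * N) ≤ 75 * (K ^ 2 * N ^ 5 * r) * (ε * κ) := by
    have h1 : (5 * K * N ^ 3) * δ ≤ (5 * K * N ^ 3) * (15 * (K * N ^ 2 * r) * (ε * κ)) :=
      mul_le_mul_of_nonneg_left s6 (by positivity)
    have h2 : (5 * K * N ^ 3) * δ = K * (5 * (N * N) * δ * N) := by ring
    have h3 : (5 * K * N ^ 3) * (15 * (K * N ^ 2 * r) * (ε * κ)) =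
      75 * (K ^ 2 * N ^ 5 * r) * (ε * κ) := by ring
    linarith
  have s8 : 2 * ((N * r) * ε * b) ≤ 1 * (K ^ 2 * N ^ 5 * r) * (ε * κ) := by
    have h1 : ε * b ≤ ε * κ := mul_le_mul_of_nonneg_left bκ e0
    have h2 : (2 * (N * r)) * (ε * b) ≤ (2 * (N * r)) * (ε * κ) :=
      mul_le_mul_of_nonneg_left h1 (by linarith)
    have h3 : 2 * (N * r) ≤ K ^ 2 * N ^ 5 * r := by
      have h4 : 1 ≤ K ^ 2 := one_le_pow₀ hK
      have h5 : 2 ≤ N ^ 4 := by
        calc (2 : ℝ) ≤ 8 ^ 4 := by norm_num
          _ ≤ N ^ 4 := pow_le_pow_left₀ (by norm_num) hN 4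
      have h6 : 1 * 2 ≤ K ^ 2 * N ^ 4 := mul_le_mul h4 h5 (by norm_num) (by positivity)
      have h7 : K ^ 2 * N ^ 5 * r = (K ^ 2 * N ^ 4) * (N * r) := by ring
      rw [h7]
      exact mul_le_mul_of_nonneg_right (by linarith) (by linarith)
    have h8 : (2 * (N * r)) * (ε * κ) ≤ (K ^ 2 * N ^ 5 * r) * (ε * κ) :=
      mul_le_mul_of_nonneg_right h3 (by positivity)
    linarith
  have s9 : 76 * (K ^ 2 * N ^ 5 * r) * (ε * κ) ≤ κ / (2 * r) := by
    rw [le_div_iff₀ (by linarith)]
    have h1 : 76 * (K ^ 2 * N ^ 5 * r) * (ε * κ) * (2 * r) =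
      (152 * K ^ 2 * N ^ 5 * (r * r) * ε) * κ := by ring
    rw [h1]
    have h2 : 152 * K ^ 2 * N ^ 5 * (r * r) * ε ≤ 1 := by
      refine le_trans ?_ hε
      rw [mul_comm ε]
      apply mul_le_mul_of_nonneg_right _ e0
      have h3 : 152 * (r * r) ≤ 256 * N := by linarith
      have h4 : (K ^ 2 * N ^ 5) * (152 * (r * r)) ≤ (K ^ 2 * N ^ 5) * (256 * N) :=
        mul_le_mul_of_nonneg_left h3 (by positivity)
      linarith
    calc (152 * K ^ 2 * N ^ 5 * (r * r) * ε) * κ ≤ 1 * κ := mul_le_mul_of_nonneg_right h2 hκ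
      _ = κ := one_mul κ
  linarith

/-- the comparison before choosing constants -/
theorem compare_dis (hn : 3 ≤ n) {m : Cfg n → ℝ} (hm : Good m) {α β ε B : ℝ}
    (hP : Par α β ε (2 ^ n)) (hcl : ∀ v i, pcl m v i ≤ ε) (hB : 0 ≤ B)
    (h : ∀ a : Vtx n → Bool, cutf a = cutf (fun _ => false) ∨ (∃ u, cutf a = cutf (sg u)) ∨
      |eta m (refm (wt α β)) (cutf a)| ≤ B) :
    ex m (ind Dis) - ex (refm (wt α β)) (ind (Dis (n := n))) ≤
      2 ^ (2 ^ n) * (B * 2 ^ n) - 1 / n * bb m + 2 * ((2 ^ n * n) * ε * bb m) -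
        dd m ε / (2 * n) := by
  have e1 : ex m fn ≤ ∑ d, mh m d * f0 d - 1 / n * bb m +
      2 * ex m (ind fun c => ¬ NoAvoid c) := by
    rw [← ex_psi m f0]
    unfold bb
    rw [← ex_smul, ← ex_smul, ← ex_sub, ← ex_add]
    exact ex_mono hm.nonneg fun c hc => fn_point hn (hm.sym c hc)
  have e2 := pna_bound hm hP.e0 hcl
  have e3 := ref_f0 (n := n) α β
  have e4 := ex_fn_ref (m := m) hP
  have e5 := key_sum hn hB h
  have e6 : ∑ d, eta m (refm (wt α β)) d * f0 d =
      ∑ d, mh m d * f0 d - ∑ d : Cfg n, refm (wt α β) d * f0 d := by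
    rw [← Finset.sum_sub_distrib]
    apply Finset.sum_congr rfl
    intro d _
    unfold eta
    ring
  linarith

theorem sq_le_pow (hn : 3 ≤ n) : 8 * (n * n) ≤ 9 * 2 ^ n := by
  induction n, hn using Nat.le_induction with
  | base => norm_num
  | succ k hk ih =>
    rw [pow_succ]
    nlinarith

/-- the smallness condition on `ε` -/
def Small (n : ℕ) (ε : ℝ) : Prop := ε * 2 ^ (2 ^ (n + 1) + 6 * n + 8) ≤ 1

theorem small_num {ε : ℝ} (h : Small n ε) :
    ε * (256 * ((2 : ℝ) ^ (2 ^ n) * 2 ^ (2 ^ n)) * (2 ^ n) ^ 6) ≤ 1 := by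
  unfold Small at h
  have : (256 * ((2 : ℝ) ^ (2 ^ n) * 2 ^ (2 ^ n)) * (2 ^ n) ^ 6) =
      2 ^ (2 ^ (n + 1) + 6 * n + 8) := by
    have h1 : (256 : ℝ) = 2 ^ 8 := by norm_num
    rw [h1, ← pow_add, ← pow_mul, ← pow_add, ← pow_add]
    congr 1
    rw [pow_succ]
    ring
  rw [this]
  exact h

/-- Among all one-independent models, the disconnection probability is at most that of a
reference (signed) product weight. -/
theorem main_dis (hn : 3 ≤ n) {m : Cfg n → ℝ} (hm : Good m) {ε : ℝ} (e0 : 0 ≤ ε)
    (hε : Small n ε) (hcl : ∀ v i, pcl m v i ≤ ε) :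
    ∃ α β, Par α β ε (2 ^ n) ∧ ex m (ind Dis) ≤ ex (refm (wt α β)) (ind (Dis (n := n))) := by
  have hnum := small_num hε
  have hn' : (3 : ℝ) ≤ n := by exact_mod_cast hn
  have hN : (8 : ℝ) ≤ 2 ^ n := by exact_mod_cast two_pow_ge hn
  have hK : (1 : ℝ) ≤ 2 ^ (2 ^ n) := one_le_pow₀ (by norm_num)
  have e1 : ε * (8 * ((2 ^ n : ℕ) : ℝ)) ≤ 1 := by
    refine le_trans ?_ hnum
    apply mul_le_mul_of_nonneg_left _ e0
    push_cast
    have h1 : (1 : ℝ) ≤ 2 ^ (2 ^ n) * 2 ^ (2 ^ n) := by nlinarith
    have h2 : (2 : ℝ) ^ n ≤ (2 ^ n) ^ 6 := by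
      apply le_self_pow₀ (by linarith) (by norm_num)
    have h3 : (0 : ℝ) ≤ (2 ^ n) ^ 6 := by positivity
    nlinarith
  have i0 : Fin n := ⟨0, by omega⟩
  obtain ⟨α, β, hP, hx⟩ := exists_par hn (x := mh m (cutf (sg (gc n 0)))) e0 e1
    (mh_nonneg hm _) ((mh_le_pcl hm (cutf_sg (gc n 0) i0)).trans (hcl _ _))
  refine ⟨α, β, hP, ?_⟩
  have h0 : eta m (refm (wt α β)) (cutf (sg (gc n 0))) = 0 := by
    unfold eta; rw [hx, sub_self]
  set p := refm (wt α β (n := n)) with hp
  set b := bb m with hb
  set De' := De m p with hDe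
  set L := kap m ε + ε * (De' + b) with hL
  set δ := del m p ε with hδ
  have hb0 : 0 ≤ b := hm.bb_nonneg
  have hd0 : 0 ≤ dd m ε := dd_nonneg hcl
  have hDe0 : 0 ≤ De' := De_nonneg _ _
  have hκ0 : 0 ≤ kap m ε := add_nonneg hb0 hd0
  have hL0 : 0 ≤ L := by positivity
  have hδ0 : 0 ≤ δ := del_nonneg hm e0
  have one := level_one hn hm hP hcl h0
  have mid := level_mid hn hm hP hcl
  have hcase : ∀ a : Vtx n → Bool, cutf a = cutf (fun _ => false) ∨ (∃ u, cutf a = cutf (sg u)) ∨
      |eta m p (cutf a)| ≤ 5 * (2 ^ n * 2 ^ n) * δ := by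
    intro a
    rcases cut_cases hn a with h | h | ⟨h, h'⟩
    · exact Or.inl h
    · exact Or.inr (Or.inl h)
    · exact Or.inr (Or.inr (mid a h h'))
  have hB : De' ≤ 2 * (2 ^ (2 ^ n) * (2 ^ n * L + 5 * (2 ^ n * 2 ^ n) * δ) + b) := by
    apply De_bound hn hm (by positivity)
    intro a ha
    rcases hcase a with h | ⟨u, h⟩ | h
    · exact absurd h ha
    · rw [h]
      have := one u
      have h2 : 0 ≤ 5 * ((2 : ℝ) ^ n * 2 ^ n) * δ := by positivity
      linarith
    · have h2 : 0 ≤ (2 : ℝ) ^ n * L := by positivity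
      linarith
  have num := numeric (K := 2 ^ (2 ^ n)) (N := 2 ^ n) (r := n) (ε := ε) (κ := kap m ε) (b := b)
    (De := De') (L := L) (δ := δ) (B := 2 ^ n * L + 5 * (2 ^ n * 2 ^ n) * δ) hK hN hn'
    (by exact_mod_cast sq_le_pow hn) e0 hnum hb0 (by unfold kap; linarith) hDe0 rfl rfl rfl hB
  have cmp := compare_dis hn hm hP hcl (B := 5 * (2 ^ n * 2 ^ n) * δ) (by positivity) hcase
  have hkap : kap m ε / (2 * n) = b / (2 * n) + dd m ε / (2 * n) := by
    unfold kap; rw [add_div]
  have hbn : b / (2 * n) ≤ 1 / n * b := by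
    rw [div_le_iff₀ (by linarith)]
    have : 1 / (n : ℝ) * b * (2 * n) = 2 * b := by
      field_simp
    rw [this]; linarith
  linarith

end Pool.Agent.helper40.Signs
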