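import Pool.Agent.helper40.Signs.Cube

/-! A Hamiltonian cycle of the hypercube (Gray code). -/

namespace Pool.Agent.helper40.Signs

/-- reflected Gray code -/
def gray : (n : ℕ) → ℕ → Vtx n
  | 0, _ => fun _ => false
  | (n + 1), k => if k < 2 ^ n then Fin.cons false (gray n k)
      else Fin.cons true (gray n (2 ^ (n + 1) - 1 - k))

theorem fl_cons_zero {n : ℕ} (b : Bool) (v : Vtx n) :
    fl (Fin.cons b v : Vtx (n + 1)) 0 = Fin.cons (!b) v := by
  funext j
  refine Fin.cases ?_ (fun j => ?_) j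
  · simp [fl]
  · simp [fl]

theorem fl_cons_succ {n : ℕ} (b : Bool) (v : Vtx n) (i : Fin n) :
    fl (Fin.cons b v : Vtx (n + 1)) i.succ = Fin.cons b (fl v i) := by
  funext j
  refine Fin.cases ?_ (fun j => ?_) j
  · simp only [fl, Fin.cons_zero]
    rw [decide_eq_false (Fin.succ_ne_zero i).symm]
    simp
  · simp [fl]

theorem gray_succ_lt {n k : ℕ} (h : k < 2 ^ n) : gray (n + 1) k = Fin.cons false (gray n k) := by
  rw [gray, if_pos h]

theorem gray_succ_ge {n k : ℕ} (h : 2 ^ n ≤ k) :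
    gray (n + 1) k = Fin.cons true (gray n (2 ^ (n + 1) - 1 - k)) := by
  rw [gray, if_neg (by omega)]

theorem gray_zero (n : ℕ) : gray n 0 = fun _ => false := by
  induction n with
  | zero => rfl
  | succ n ih =>
    rw [gray_succ_lt (by positivity), ih]
    funext j
    refine Fin.cases ?_ (fun j => ?_) j <;> simp

theorem gray_step (n : ℕ) : ∀ k, k + 1 < 2 ^ n → ∃ i, gray n (k + 1) = fl (gray n k) i := by
  induction n with
  | zero => intro k hk; simp at hk
  | succ n ih =>
    intro k hk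
    have hp : 2 ^ (n + 1) = 2 ^ n + 2 ^ n := by ring
    rcases Nat.lt_trichotomy (k + 1) (2 ^ n) with h | h | h
    · obtain ⟨i, hi⟩ := ih k h
      refine ⟨i.succ, ?_⟩
      rw [gray_succ_lt h, gray_succ_lt (by omega), hi, fl_cons_succ]
    · refine ⟨0, ?_⟩
      rw [gray_succ_ge (by omega), gray_succ_lt (by omega), fl_cons_zero]
      have : 2 ^ (n + 1) - 1 - (k + 1) = k := by omega
      rw [this]; rfl
    · obtain ⟨i, hi⟩ := ih (2 ^ (n + 1) - 1 - (k + 1)) (by omega)
      refine ⟨i.succ, ?_⟩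
      rw [gray_succ_ge (by omega), gray_succ_ge (by omega), fl_cons_succ]
      have : 2 ^ (n + 1) - 1 - k = 2 ^ (n + 1) - 1 - (k + 1) + 1 := by omega
      rw [this, hi, fl_fl]

theorem gray_inj (n : ℕ) : ∀ k l, k < 2 ^ n → l < 2 ^ n → gray n k = gray n l → k = l := by
  induction n with
  | zero => intro k l hk hl _; simp at hk hl; omega
  | succ n ih =>
    intro k l hk hl h
    have hp : 2 ^ (n + 1) = 2 ^ n + 2 ^ n := by ring
    by_cases h1 : k < 2 ^ n <;> by_cases h2 : l < 2 ^ n
    · rw [gray_succ_lt h1, gray_succ_lt h2] at h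
      exact ih k l h1 h2 (Fin.cons_injective2 h).2
    · rw [gray_succ_lt h1, gray_succ_ge (by omega)] at h
      have := (Fin.cons_injective2 h).1
      simp at this
    · rw [gray_succ_ge (by omega), gray_succ_lt h2] at h
      have := (Fin.cons_injective2 h).1
      simp at this
    · rw [gray_succ_ge (by omega), gray_succ_ge (by omega)] at h
      have := ih _ _ (by omega) (by omega) (Fin.cons_injective2 h).2
      omega

theorem gray_surj (n : ℕ) : ∀ v : Vtx n, ∃ k, k < 2 ^ n ∧ gray n k = v := by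
  induction n with
  | zero => intro v; exact ⟨0, by simp, funext fun j => j.elim0⟩
  | succ n ih =>
    intro v
    have hp : 2 ^ (n + 1) = 2 ^ n + 2 ^ n := by ring
    obtain ⟨k, hk, hk2⟩ := ih (Fin.tail v)
    cases hb : v 0
    · refine ⟨k, by omega, ?_⟩
      rw [gray_succ_lt hk, hk2, ← hb]
      exact Fin.cons_self_tail v
    · refine ⟨2 ^ (n + 1) - 1 - k, by omega, ?_⟩
      rw [gray_succ_ge (by omega)]
      have : 2 ^ (n + 1) - 1 - (2 ^ (n + 1) - 1 - k) = k := by omega
      rw [this, hk2, ← hb]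
      exact Fin.cons_self_tail v

theorem gray_close {n : ℕ} (hn : 1 ≤ n) : ∃ i, gray n 0 = fl (gray n (2 ^ n - 1)) i := by
  obtain ⟨m, rfl⟩ : ∃ m, n = m + 1 := ⟨n - 1, by omega⟩
  refine ⟨0, ?_⟩
  have hp : 2 ^ (m + 1) = 2 ^ m + 2 ^ m := by ring
  have h2 : 0 < 2 ^ m := by positivity
  rw [gray_succ_lt (by omega), gray_succ_ge (by omega), fl_cons_zero]
  have : 2 ^ (m + 1) - 1 - (2 ^ (m + 1) - 1) = 0 := by omega
  rw [this]; rfl

end Pool.Agent.helper40.Signs
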