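import Pool.Agent.helper40.Signs.Refer

/-! The first level and the middle levels. -/

namespace Pool.Agent.helper40.Signs

open Classical

variable {n : ℕ}

theorem two_pow_ge (hn : 3 ≤ n) : 8 ≤ 2 ^ n :=
  calc 8 = 2 ^ 3 := by norm_num
    _ ≤ 2 ^ n := Nat.pow_le_pow_right (by norm_num) hn

section level1

variable {u w : Vtx n} {i : Fin n} {T : Set (Vtx n)}

theorem lvl1_flat (hw : w = fl u i) (hTm : ∀ v, v ∈ T ↔ v ≠ u ∧ v ≠ w) (hT : ConnS T)
    (b : Vtx n → Bool) :
    (cutf b u i = true ∧ Agree (fun _ => false) T (cutf b)) ↔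
      (cutf b = cutf (sg u) ∨ cutf b = cutf (sg w)) := by
  constructor
  · rintro ⟨h1, h2⟩
    rw [agree_cutf hT] at h2
    have huw : w ≠ u := by rw [hw]; exact fl_neq u i
    have h1' : (b u ^^ b w) = true := by rw [hw]; exact h1
    rcases h2 with h2 | h2
    · cases hbu : b u
      · right
        congr 1
        funext v
        unfold sg
        by_cases hv : v = w
        · subst hv
          rw [hbu] at h1'
          simpa using h1'
        · by_cases hv' : v = u
          · subst hv'
            rw [hbu]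
            simp [hv]
          · rw [h2 v ((hTm v).mpr ⟨hv', hv⟩)]
            simp [hv]
      · left
        congr 1
        funext v
        unfold sg
        by_cases hv : v = w
        · subst hv
          rw [hbu] at h1'
          simpa [huw] using h1'
        · by_cases hv' : v = u
          · subst hv'
            rw [hbu]
            simp
          · rw [h2 v ((hTm v).mpr ⟨hv', hv⟩)]
            simp [hv']
    · cases hbu : b u
      · left
        rw [← cutf_not (sg u)]
        congr 1
        funext v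
        unfold sg
        by_cases hv : v = w
        · subst hv
          rw [hbu] at h1'
          simpa [huw] using h1'
        · by_cases hv' : v = u
          · subst hv'
            rw [hbu]
            simp
          · rw [h2 v ((hTm v).mpr ⟨hv', hv⟩)]
            simp [hv']
      · right
        rw [← cutf_not (sg w)]
        congr 1
        funext v
        unfold sg
        by_cases hv : v = w
        · subst hv
          rw [hbu] at h1'
          simpa using h1'
        · by_cases hv' : v = u
          · subst hv'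
            rw [hbu]
            simp [hv]
          · rw [h2 v ((hTm v).mpr ⟨hv', hv⟩)]
            simp [hv]
  · rintro (h | h)
    · rw [h]
      refine ⟨cutf_sg u i, ?_⟩
      rw [agree_cutf hT]
      left
      intro v hv
      unfold sg
      simp [((hTm v).mp hv).1]
    · rw [h]
      refine ⟨?_, ?_⟩
      · have := cutf_sym (sg w) u i
        rw [← this, ← hw]
        exact cutf_sg w i
      · rw [agree_cutf hT]
        left
        intro v hv
        unfold sg
        simp [((hTm v).mp hv).2]

theorem sg_ne (hn : 1 ≤ n) (huw : w ≠ u) {x : Vtx n} (hx1 : x ≠ u) (hx2 : x ≠ w) :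
    cutf (sg u) ≠ cutf (sg w) := by
  intro h
  rcases (cutf_eq_iff hn (sg w) (sg u)).mp h with h' | h'
  · have := congrFun h' w
    unfold sg at this
    simp [huw] at this
  · have := congrFun h' x
    unfold sg at this
    simp [hx1, hx2] at this

theorem lvl1_point (hn : 3 ≤ n) (hw : w = fl u i) (hTm : ∀ v, v ∈ T ↔ v ≠ u ∧ v ≠ w)
    (hT : ConnS T) (hTn : T.Nonempty) {c : Cfg n} (hc : SymC c) :
    |ind (fun c => c u i = true) c * ind (Agree (fun _ => false) T) c -
      (ind (fun c => psi c = cutf (sg u)) c + ind (fun c => psi c = cutf (sg w)) c)| ≤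
      ind (fun c => ¬ Flat c) c := by
  obtain ⟨x, hx⟩ := hTn
  have huw : w ≠ u := by rw [hw]; exact fl_neq u i
  have hne : cutf (sg u) ≠ cutf (sg w) := sg_ne (by omega) huw ((hTm x).mp hx).1 ((hTm x).mp hx).2
  by_cases hf : Flat c
  · obtain ⟨b, hb⟩ := flat_cut c hc hf
    have hcb : c = cutf b := by funext v i; exact hb v i
    rw [ind_false (P := fun c => ¬ Flat c) (fun h => h hf)]
    have hpsi : psi c = c := psi_flat hn hf
    have key := lvl1_flat hw hTm hT b
    rw [← hcb] at key
    by_cases hA : c u i = true ∧ Agree (fun _ => false) T c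
    · rw [ind_true (P := fun c => c u i = true) hA.1, ind_true hA.2]
      rcases key.mp hA with h | h
      · rw [ind_true (P := fun c => psi c = cutf (sg u)) (by rw [hpsi]; exact h),
          ind_false (P := fun c => psi c = cutf (sg w)) (by rw [hpsi, h]; exact hne)]
        norm_num
      · rw [ind_false (P := fun c => psi c = cutf (sg u)) (by rw [hpsi, h]; exact hne.symm),
          ind_true (P := fun c => psi c = cutf (sg w)) (by rw [hpsi]; exact h)]
        norm_num
    · have h1 : ind (fun c => c u i = true) c * ind (Agree (fun _ => false) T) c = 0 := by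
        by_cases h : c u i = true
        · rw [ind_false (P := Agree (fun _ => false) T) (fun h' => hA ⟨h, h'⟩), mul_zero]
        · rw [ind_false (P := fun c => c u i = true) h, zero_mul]
      rw [h1, ind_false (P := fun c => psi c = cutf (sg u))
          (by rw [hpsi]; exact fun h => hA (key.mpr (Or.inl h))),
        ind_false (P := fun c => psi c = cutf (sg w))
          (by rw [hpsi]; exact fun h => hA (key.mpr (Or.inr h)))]
      norm_num
  · rw [ind_true (P := fun c => ¬ Flat c) hf]
    have a1 := ind_nonneg (fun c => c u i = true) c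
    have a2 := ind_le_one (fun c => c u i = true) c
    have a3 := ind_nonneg (Agree (fun _ => false) T) c
    have a4 := ind_le_one (Agree (fun _ => false) T) c
    have b1 : 0 ≤ ind (fun c => c u i = true) c * ind (Agree (fun _ => false) T) c :=
      mul_nonneg a1 a3
    have b2 : ind (fun c => c u i = true) c * ind (Agree (fun _ => false) T) c ≤ 1 :=
      mul_le_one₀ a2 a3 a4
    have c1 := ind_nonneg (fun c => psi c = cutf (sg u)) c
    have c2 := ind_nonneg (fun c => psi c = cutf (sg w)) c
    have c3 : ind (fun c => psi c = cutf (sg u)) c + ind (fun c => psi c = cutf (sg w)) c ≤ 1 := by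
      by_cases h : psi c = cutf (sg u)
      · rw [ind_false (P := fun c => psi c = cutf (sg w)) (by rw [h]; exact hne)]
        have := ind_le_one (fun c => psi c = cutf (sg u)) c
        linarith
      · rw [ind_false (P := fun c => psi c = cutf (sg u)) h]
        have := ind_le_one (fun c => psi c = cutf (sg w)) c
        linarith
    rw [abs_le]
    constructor <;> linarith

end level1

/-- abbreviation: total defect -/
noncomputable def kap (m : Cfg n → ℝ) (ε : ℝ) : ℝ := bb m + dd m ε

theorem lvl1 (hn : 3 ≤ n) {m : Cfg n → ℝ} (hm : Good m) {α β ε : ℝ} (hP : Par α β ε (2 ^ n))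
    (hcl : ∀ v i, pcl m v i ≤ ε) {j : ℕ} (hj : j + 2 ≤ 2 ^ n) :
    |eta m (refm (wt α β)) (cutf (sg (gc n j))) + eta m (refm (wt α β)) (cutf (sg (gc n (j + 1))))|
      ≤ kap m ε + ε * (De m (refm (wt α β)) + bb m) := by
  have hN := two_pow_ge hn
  set p := refm (wt α β (n := n)) with hp
  obtain ⟨i, hi⟩ := gc_step (n := n) (by omega) j
  set u := gc n j with hu
  set w := gc n (j + 1) with hw
  set S : Set (Vtx n) := Arc n j (j + 2) with hS
  set T : Set (Vtx n) := Arc n (j + 2) (j + 2 ^ n) with hT
  have hTc : ConnS T := arc_conn (by omega) _ _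
  have hST : ∀ v, v ∈ T ↔ v ∉ S := arc_compl (by omega) hj
  have huS : u ∈ S := ⟨j, by omega, by omega, rfl⟩
  have hwS : w ∈ S := ⟨j + 1, by omega, by omega, rfl⟩
  have hTm : ∀ v, v ∈ T ↔ v ≠ u ∧ v ≠ w := by
    intro v
    rw [hST]
    constructor
    · intro h
      exact ⟨fun h' => h (by rw [h']; exact huS), fun h' => h (by rw [h']; exact hwS)⟩
    · rintro ⟨h1, h2⟩ ⟨k, hk1, hk2, hk3⟩
      have : k = j ∨ k = j + 1 := by omega
      rcases this with rfl | rfl
      · exact h1 hk3.symm
      · exact h2 hk3.symm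
  have hTn : T.Nonempty := ⟨gc n (j + 2), j + 2, by omega, by omega, rfl⟩
  have hdis : ∀ v, v ∈ S → v ∉ T := fun v hv h => (hST v).mp h hv
  have loc1 : Local S (ind fun c => c u i = true) := local_cl u i huS (by rw [← hi]; exact hwS)
  have loc2 := local_agree (fun _ => false) T
  have e1 : |ex m (fun c => ind (fun c => c u i = true) c * ind (Agree (fun _ => false) T) c) -
      (mh m (cutf (sg u)) + mh m (cutf (sg w)))| ≤ bb m := by
    unfold mh bb
    rw [← ex_add, ← ex_sub]
    exact ex_abs_le hm.nonneg fun c hc => lvl1_point hn hi hTm hTc hTn (hm.sym c hc)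
  rw [hm.indep S T hdis _ _ loc1 loc2] at e1
  have e2 : ex p (fun c => ind (fun c => c u i = true) c * ind (Agree (fun _ => false) T) c) =
      p (cutf (sg u)) + p (cutf (sg w)) := by
    rw [← ex_ind_eq p (cutf (sg u)), ← ex_ind_eq p (cutf (sg w)), ← ex_add]
    apply ex_congr
    intro c hc
    obtain ⟨b, rfl⟩ := refm_supp _ hc
    have hf := cutf_flat b
    have := lvl1_point hn hi hTm hTc hTn (cutf_sym b)
    rw [ind_false (P := fun c => ¬ Flat c) (fun h => h hf)] at this
    have h3 := abs_nonpos_iff.mp this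
    have h4 : ∀ d, ind (fun c => psi c = d) (cutf b) = ind (fun c => c = d) (cutf b) := by
      intro d
      exact ind_congr (P := fun c => psi c = d) (Q := fun c => c = d)
        (by simp only [psi_flat hn hf])
    rw [h4, h4] at h3
    linarith
  rw [refm_indep _ (wt_sum α β) S T hdis _ _ loc1 loc2, ex_cl_ref hP] at e2
  have t1 := tv_bound hn hm p (F := ind (Agree (fun _ => false) T)) (ind_nonneg _) (ind_le_one _)
  have t2 : ex m (ind (Agree (fun _ => false) T)) ≤ 1 := hm.ex_le_one (ind_le_one _)
  have t3 : 0 ≤ ex m (ind (Agree (fun _ => false) T)) := ex_nonneg hm.nonneg (ind_nonneg _)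
  have t4 := slack_le hcl u i
  have t5 := hcl u i
  have t6 : ex m (ind fun c => c u i = true) = pcl m u i := rfl
  rw [t6] at e1
  unfold eta kap
  have e0 := hP.e0
  have e3 : |pcl m u i * ex m (ind (Agree (fun _ => false) T)) -
      ε * ex p (ind (Agree (fun _ => false) T))| ≤ dd m ε + ε * (De m p + bb m) := by
    have : pcl m u i * ex m (ind (Agree (fun _ => false) T)) -
      ε * ex p (ind (Agree (fun _ => false) T)) =
      (pcl m u i - ε) * ex m (ind (Agree (fun _ => false) T)) +
      ε * (ex m (ind (Agree (fun _ => false) T)) - ex p (ind (Agree (fun _ => false) T))) := by ring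
    rw [this]
    refine (abs_add_le _ _).trans (add_le_add ?_ ?_)
    · rw [abs_mul, abs_of_nonpos (by linarith), abs_of_nonneg t3]
      nlinarith
    · rw [abs_mul, abs_of_nonneg e0]
      exact mul_le_mul_of_nonneg_left t1 e0
  have e4 : mh m (cutf (sg u)) - p (cutf (sg u)) + (mh m (cutf (sg w)) - p (cutf (sg w))) =
      (pcl m u i * ex m (ind (Agree (fun _ => false) T)) -
        ε * ex p (ind (Agree (fun _ => false) T))) -
      (pcl m u i * ex m (ind (Agree (fun _ => false) T)) -
        (mh m (cutf (sg u)) + mh m (cutf (sg w)))) := by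
    rw [e2]; ring
  rw [e4]
  refine (abs_sub _ _).trans ?_
  linarith

/-- the first level bound -/
theorem level_one (hn : 3 ≤ n) {m : Cfg n → ℝ} (hm : Good m) {α β ε : ℝ}
    (hP : Par α β ε (2 ^ n)) (hcl : ∀ v i, pcl m v i ≤ ε)
    (h0 : eta m (refm (wt α β)) (cutf (sg (gc n 0))) = 0) (u : Vtx n) :
    |eta m (refm (wt α β)) (cutf (sg u))| ≤
      2 ^ n * (kap m ε + ε * (De m (refm (wt α β)) + bb m)) := by
  set L := kap m ε + ε * (De m (refm (wt α β (n := n))) + bb m) with hL
  have hL0 : 0 ≤ L := by
    have h1 := hm.bb_nonneg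
    have h2 := dd_nonneg hcl
    have h3 := De_nonneg m (refm (wt α β (n := n)))
    have h4 := hP.e0
    unfold kap at hL
    have : 0 ≤ ε * (De m (refm (wt α β (n := n))) + bb m) := by positivity
    linarith
  have key : ∀ j : ℕ, j < 2 ^ n →
      |eta m (refm (wt α β)) (cutf (sg (gc n j)))| ≤ j * L := by
    intro j
    induction j with
    | zero => intro _; rw [h0]; simp
    | succ j ih =>
      intro hj
      have h1 := ih (by omega)
      have h2 := lvl1 hn hm hP hcl (j := j) (by omega)
      have h3 := (abs_abs_le h2).2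
      rw [← hL] at h3
      push_cast
      linarith
  obtain ⟨k, hk, rfl⟩ := gc_surj u
  refine (key k hk).trans ?_
  apply mul_le_mul_of_nonneg_right _ hL0
  have : (k : ℝ) ≤ ((2 ^ n : ℕ) : ℝ) := by exact_mod_cast hk.le
  simpa using this

/-! ### middle levels -/

noncomputable def idx (v : Vtx n) : ℕ := Classical.choose (gc_surj v)

theorem idx_lt (v : Vtx n) : idx v < 2 ^ n := (Classical.choose_spec (gc_surj v)).1

theorem gc_idx (v : Vtx n) : gc n (idx v) = v := (Classical.choose_spec (gc_surj v)).2

theorem idx_gc {k : ℕ} (hk : k < 2 ^ n) : idx (gc n k) = k := gc_inj (idx_lt _) hk (gc_idx _)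

noncomputable def aof (n : ℕ) (x : ℕ → Bool) : Vtx n → Bool := fun v => x (idx v)

theorem mem_arc {l r : ℕ} (hr : r ≤ 2 ^ n) (v : Vtx n) : v ∈ Arc n l r ↔ l ≤ idx v ∧ idx v < r := by
  constructor
  · rintro ⟨k, h1, h2, rfl⟩
    rw [idx_gc (by omega)]
    exact ⟨h1, h2⟩
  · rintro ⟨h1, h2⟩
    exact ⟨idx v, h1, h2, gc_idx v⟩

theorem aof_flip {l r : ℕ} (hr : r ≤ 2 ^ n) (x : ℕ → Bool) :
    aof n (flipI l r x) = flipOn (aof n x) (Arc n l r) := by
  funext v
  unfold aof flipI flipOn
  have := mem_arc (l := l) hr v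
  by_cases h : v ∈ Arc n l r
  · rw [if_pos h, if_pos (this.mp h)]
  · rw [if_neg h, if_neg (fun h' => h (this.mpr h'))]

/-- the flip error -/
noncomputable def del (m p : Cfg n → ℝ) (ε : ℝ) : ℝ :=
  (2 ^ n * n) * ε * bb m + ((2 ^ n * n) * ε + 8 * ε) * (De m p + bb m)

theorem flipRel (hn : 3 ≤ n) {m : Cfg n → ℝ} (hm : Good m) {α β ε : ℝ} (hP : Par α β ε (2 ^ n))
    (hcl : ∀ v i, pcl m v i ≤ ε) :
    FlipRel (2 ^ n) (del m (refm (wt α β)) ε)
      (fun x => eta m (refm (wt α β)) (cutf (aof n x))) := by
  rintro x l r hr ⟨k1, k2, h1, h2, h3, h4, h5⟩ ⟨k3, k4, g1, g2, g3, g4, g5⟩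
  show |eta m (refm (wt α β)) (cutf (aof n x)) +
    eta m (refm (wt α β)) (cutf (aof n (flipI l r x)))| ≤ _
  rw [aof_flip hr]
  have hST : ∀ v, v ∈ Arc n r (l + 2 ^ n) ↔ v ∉ Arc n l r := arc_compl (by omega) hr
  have hT : ConnS (Arc n l r) := arc_conn (by omega) _ _
  have N2 : NCon (aof n x) (Arc n l r) := by
    refine ⟨gc n k1, ⟨k1, h1, h2, rfl⟩, gc n k2, ⟨k2, h3, h4, rfl⟩, ?_⟩
    unfold aof
    rw [idx_gc (by omega), idx_gc (by omega)]
    exact h5
  apply rt_bound hn hm (fun c hc => refm_supp _ hc) (refm_indep _ (wt_sum α β)) hP.e0 hcl hST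
    (arc_conn (by omega) _ _) hT
  · refine ⟨gc n k3, ?_, gc n k4, ?_, ?_⟩
    · rw [hST, mem_arc hr, idx_gc g1]; omega
    · rw [hST, mem_arc hr, idx_gc g2]; omega
    · unfold aof
      rw [idx_gc g1, idx_gc g2]
      exact g5
  · exact N2
  · exact agree_ref_small hP hT N2

theorem del_nonneg {m p : Cfg n → ℝ} (hm : Good m) {ε : ℝ} (e0 : 0 ≤ ε) : 0 ≤ del m p ε := by
  have h1 := hm.bb_nonneg
  have h3 := De_nonneg m p
  unfold del
  positivity

/-- the middle level bound -/
theorem level_mid (hn : 3 ≤ n) {m : Cfg n → ℝ} (hm : Good m) {α β ε : ℝ}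
    (hP : Par α β ε (2 ^ n)) (hcl : ∀ v i, pcl m v i ≤ ε) (a : Vtx n → Bool)
    (h2 : 2 ≤ (pos (2 ^ n) (fun k => a (gc n k))).card)
    (h3 : (pos (2 ^ n) (fun k => a (gc n k))).card ≤ 2 ^ n - 2) :
    |eta m (refm (wt α β)) (cutf a)| ≤ 5 * (2 ^ n * 2 ^ n) * del m (refm (wt α β)) ε := by
  have key := sort_main (N := 2 ^ n) (δ := del m (refm (wt α β)) ε)
    (h := fun x => eta m (refm (wt α β)) (cutf (aof n x))) (two_pow_ge hn) (del_nonneg hm hP.e0)
    (fun x y hxy => by
      have : aof n x = aof n y := by funext v; exact hxy _ (idx_lt v)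
      simp only [this])
    (fun x => by
      have : aof n (fun k => !(x k)) = fun v => !(aof n x v) := rfl
      simp only [this, cutf_not])
    (flipRel hn hm hP hcl) (fun k => a (gc n k)) h2 h3
  have : aof n (fun k => a (gc n k)) = a := by
    funext v
    show a (gc n (idx v)) = a v
    rw [gc_idx]
  simp only [this] at key
  push_cast at key
  exact key

theorem small_card {a : Vtx n → Bool} (h : (pos (2 ^ n) (fun k => a (gc n k))).card ≤ 1) :
    a = (fun _ => false) ∨ ∃ u, a = sg u := by
  rcases Nat.le_one_iff_eq_zero_or_eq_one.mp h with h | h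
  · left
    funext v
    rw [Finset.card_eq_zero] at h
    by_contra hcon
    have : idx v ∈ pos (2 ^ n) (fun k => a (gc n k)) := by
      rw [mem_pos]
      refine ⟨idx_lt v, ?_⟩
      simp only [gc_idx]
      simpa using hcon
    rw [h] at this
    exact absurd this (Finset.notMem_empty _)
  · right
    obtain ⟨k0, hk0⟩ := Finset.card_eq_one.mp h
    have hk : k0 ∈ pos (2 ^ n) (fun k => a (gc n k)) := by rw [hk0]; simp
    rw [mem_pos] at hk
    refine ⟨gc n k0, ?_⟩
    funext v
    unfold sg
    by_cases hv : v = gc n k0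
    · rw [hv]
      simpa using hk.2
    · have : idx v ∉ pos (2 ^ n) (fun k => a (gc n k)) := by
        rw [hk0, Finset.mem_singleton]
        intro h'
        apply hv
        rw [← h', gc_idx]
      rw [mem_pos] at this
      simp only [gc_idx, not_and, Bool.not_eq_true] at this
      rw [this (idx_lt v)]
      simp [hv]

theorem cut_cases (hn : 3 ≤ n) (a : Vtx n → Bool) :
    cutf a = cutf (fun _ => false) ∨ (∃ u, cutf a = cutf (sg u)) ∨
      (2 ≤ (pos (2 ^ n) (fun k => a (gc n k))).card ∧
        (pos (2 ^ n) (fun k => a (gc n k))).card ≤ 2 ^ n - 2) := by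
  have hN := two_pow_ge hn
  have h1 := pos_card_le (2 ^ n) (fun k => a (gc n k))
  have h2 := pos_not_card (2 ^ n) (fun k => a (gc n k))
  by_cases c1 : (pos (2 ^ n) (fun k => a (gc n k))).card ≤ 1
  · rcases small_card c1 with h | ⟨u, h⟩
    · left; rw [h]
    · right; left; exact ⟨u, by rw [h]⟩
  · by_cases c2 : (pos (2 ^ n) (fun k => (fun v => !(a v)) (gc n k))).card ≤ 1
    · rcases small_card (a := fun v => !(a v)) c2 with h | ⟨u, h⟩
      · left; rw [← cutf_not a, h]
      · right; left; exact ⟨u, by rw [← cutf_not a, h]⟩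
    · right; right
      simp only at c2
      constructor
      · omega
      · omega

end Pool.Agent.helper40.Signs
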