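import Pool.Agent.helper40.Signs.Estimate

/-! The reference product weight. -/

namespace Pool.Agent.helper40.Signs

open Classical

variable {n : ℕ}

/-- parity of a vertex -/
def pv (v : Vtx n) : Bool := decide ((∑ i, if v i then (1 : ZMod 2) else 0) = 1)

theorem pv_fl (v : Vtx n) (i : Fin n) : pv (fl v i) = !(pv v) := by
  have h : (∑ j, if fl v i j then (1 : ZMod 2) else 0) =
      (∑ j, if v j then (1 : ZMod 2) else 0) + 1 := by
    have : ∀ j, (if fl v i j then (1 : ZMod 2) else 0) =
        (if v j then (1 : ZMod 2) else 0) + (if j = i then 1 else 0) := by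
      intro j
      by_cases hj : j = i
      · subst hj
        rw [fl_same]
        cases v j <;> (simp; try decide)
      · rw [fl_ne _ hj]; simp [hj]
    rw [Finset.sum_congr rfl fun j _ => this j, Finset.sum_add_distrib]
    simp
  unfold pv
  rw [h]
  generalize (∑ j, if v j then (1 : ZMod 2) else 0) = z
  revert z
  decide

noncomputable def wt (α β : ℝ) (v : Vtx n) (b : Bool) : ℝ :=
  if pv v = true then (if b = true then β else 1 - β) else (if b = true then α else 1 - α)

theorem wt_sum (α β : ℝ) (v : Vtx n) : wt α β v true + wt α β v false = 1 := by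
  unfold wt
  by_cases h : pv v = true
  · simp [h]
  · simp [h]

/-- a two-pattern event under the reference weight -/
theorem ex_pair (w : Vtx n → Bool → ℝ) (hw : ∀ v, w v true + w v false = 1)
    {T : Set (Vtx n)} (hT : T.Nonempty) (a : Vtx n → Bool) (P : Cfg n → Prop)
    (hP : ∀ b, P (cutf b) ↔ (∀ v ∈ T, b v = a v) ∨ (∀ v ∈ T, b v = (fun v => !(a v)) v)) :
    ex (refm w) (ind P) = ∏ v, (if v ∈ T then w v (a v) else 1) +
      ∏ v, (if v ∈ T then w v (!(a v)) else 1) := by
  rw [ex_refm]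
  have h2 := pw_sum_on w hw (fun v => !(a v)) T
  rw [← pw_sum_on w hw a T, ← h2, ← Finset.sum_add_distrib]
  apply Finset.sum_congr rfl
  intro b _
  obtain ⟨x, hx⟩ := hT
  by_cases h : P (cutf b)
  · rw [ind_true h]
    rcases (hP b).mp h with h' | h'
    · have h'' : ¬ ∀ v ∈ T, b v = (fun v => !(a v)) v := by
        intro hc
        have e1 := hc x hx
        have e2 := h' x hx
        rw [e2] at e1
        simp at e1
      rw [if_pos h', if_neg h'']; ring
    · have h'' : ¬ ∀ v ∈ T, b v = a v := by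
        intro hc
        have e1 := hc x hx
        have e2 := h' x hx
        rw [e1] at e2
        simp at e2
      rw [if_neg h'', if_pos h']; ring
  · rw [ind_false h]
    have h1 : ¬ ∀ v ∈ T, b v = a v := fun hc => h ((hP b).mpr (Or.inl hc))
    have h2 : ¬ ∀ v ∈ T, b v = (fun v => !(a v)) v := fun hc => h ((hP b).mpr (Or.inr hc))
    rw [if_neg h1, if_neg h2]; ring

theorem agree_cutf {T : Set (Vtx n)} (hT : ConnS T) (a b : Vtx n → Bool) :
    Agree a T (cutf b) ↔ (∀ v ∈ T, b v = a v) ∨ (∀ v ∈ T, b v = (fun v => !(a v)) v) := by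
  constructor
  · intro h
    exact hT b a h
  · rintro (h | h) v i hv hi
    · exact cutf_congr (h v hv) (h _ hi)
    · exact cutf_congr_not (h v hv) (h _ hi)

theorem ex_cl (w : Vtx n → Bool → ℝ) (hw : ∀ v, w v true + w v false = 1) (v : Vtx n) (i : Fin n) :
    ex (refm w) (ind fun c => c v i = true) =
      w v true * w (fl v i) false + w v false * w (fl v i) true := by
  have hne : v ≠ fl v i := (fl_neq v i).symm
  rw [ex_pair w hw (T := {v, fl v i}) ⟨v, by simp⟩ (fun u => decide (u = v))]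
  · congr 1
    · rw [Fintype.prod_eq_mul v (fl v i) hne]
      · simp [fl_neq]
      · rintro x ⟨h1, h2⟩
        rw [if_neg]
        rintro (h | h)
        · exact h1 h
        · exact h2 h
    · rw [Fintype.prod_eq_mul v (fl v i) hne]
      · simp [fl_neq]
      · rintro x ⟨h1, h2⟩
        rw [if_neg]
        rintro (h | h)
        · exact h1 h
        · exact h2 h
  · intro b
    unfold cutf
    have e : (decide (fl v i = v)) = false := by simp [fl_neq]
    simp only [Set.mem_insert_iff, Set.mem_singleton_iff, forall_eq_or_imp, forall_eq, decide_true,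
      e]
    cases b v <;> cases b (fl v i) <;> simp

theorem prod_bound {f : Vtx n → ℝ} {r s : ℝ} (hr : 1 ≤ r) (h : ∀ v, |f v| ≤ r) (v0 : Vtx n)
    (h0 : |f v0| ≤ s) : |∏ v, f v| ≤ s * r ^ (2 ^ n) := by
  rw [← Finset.mul_prod_erase Finset.univ f (Finset.mem_univ v0), abs_mul]
  apply mul_le_mul h0 _ (abs_nonneg _) (le_trans (abs_nonneg _) h0)
  rw [Finset.abs_prod]
  calc ∏ v ∈ Finset.univ.erase v0, |f v| ≤ ∏ _v ∈ Finset.univ.erase v0, r :=
        Finset.prod_le_prod (fun v _ => abs_nonneg _) fun v _ => h v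
    _ = r ^ (Finset.univ.erase v0).card := Finset.prod_const _
    _ ≤ r ^ (2 ^ n) := by
        apply pow_le_pow_right₀ hr
        calc (Finset.univ.erase v0).card ≤ (Finset.univ : Finset (Vtx n)).card :=
              Finset.card_erase_le
          _ = 2 ^ n := by rw [Finset.card_univ, Fintype.card_fun]; simp

theorem prod_bound2 {f : Vtx n → ℝ} {r s : ℝ} (hr : 1 ≤ r) (h : ∀ v, |f v| ≤ r) {v0 v1 : Vtx n}
    (hne : v0 ≠ v1) (h0 : |f v0| ≤ s) (h1 : |f v1| ≤ s) : |∏ v, f v| ≤ s * s * r ^ (2 ^ n) := by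
  rw [← Finset.mul_prod_erase Finset.univ f (Finset.mem_univ v0),
    ← Finset.mul_prod_erase (Finset.univ.erase v0) f
      (Finset.mem_erase.mpr ⟨hne.symm, Finset.mem_univ v1⟩), abs_mul, abs_mul, ← mul_assoc]
  have hs : 0 ≤ s := le_trans (abs_nonneg _) h0
  apply mul_le_mul (mul_le_mul h0 h1 (abs_nonneg _) hs) _ (abs_nonneg _) (mul_nonneg hs hs)
  rw [Finset.abs_prod]
  calc ∏ v ∈ (Finset.univ.erase v0).erase v1, |f v| ≤
        ∏ _v ∈ (Finset.univ.erase v0).erase v1, r :=
        Finset.prod_le_prod (fun v _ => abs_nonneg _) fun v _ => h v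
    _ = r ^ ((Finset.univ.erase v0).erase v1).card := Finset.prod_const _
    _ ≤ r ^ (2 ^ n) := by
        apply pow_le_pow_right₀ hr
        calc ((Finset.univ.erase v0).erase v1).card ≤ (Finset.univ : Finset (Vtx n)).card :=
              (Finset.card_erase_le).trans Finset.card_erase_le
          _ = 2 ^ n := by rw [Finset.card_univ, Fintype.card_fun]; simp

/-- the admissible parameters -/
structure Par (α β ε : ℝ) (N : ℕ) : Prop where
  e0 : 0 ≤ ε
  e1 : ε * (8 * N) ≤ 1
  a0 : 0 ≤ α
  a1 : α ≤ 2 * ε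
  b1 : |β| ≤ 2 * ε
  eq : α + β - 2 * α * β = ε

theorem pow_two_bound {ε : ℝ} {N : ℕ} (e0 : 0 ≤ ε) (e1 : ε * (8 * N) ≤ 1) :
    (1 + 2 * ε) ^ N ≤ 2 := by
  have h1 : 1 + (N : ℝ) * (-(2 * ε)) ≤ (1 + (-(2 * ε))) ^ N ∨ N = 0 := by
    by_cases hN : N = 0
    · exact Or.inr hN
    · left
      apply one_add_mul_le_pow
      have : (1 : ℝ) ≤ N := by exact_mod_cast Nat.one_le_iff_ne_zero.mpr hN
      nlinarith
  rcases h1 with h1 | h1
  · have h2 : (1 + 2 * ε) ^ N * (1 + (-(2 * ε))) ^ N ≤ 1 := by
      by_cases hN : N = 0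
      · subst hN; simp
      rw [← mul_pow]
      have hN' : (1 : ℝ) ≤ N := by exact_mod_cast Nat.one_le_iff_ne_zero.mpr hN
      apply pow_le_one₀
      · nlinarith
      · nlinarith
    have h3 : 0 ≤ (1 + 2 * ε) ^ N := by positivity
    nlinarith
  · subst h1; norm_num

theorem Par.small {α β ε : ℝ} {N : ℕ} (h : Par α β ε N) (hN : 1 ≤ N) : ε ≤ 1 / 8 := by
  have hN' : (1 : ℝ) ≤ N := by exact_mod_cast hN
  have h1 := h.e0
  have h2 := h.e1
  nlinarith

theorem wt_true_abs {α β ε : ℝ} {N : ℕ} (h : Par α β ε N) (v : Vtx n) :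
    |wt α β v true| ≤ 2 * ε := by
  have h1 := h.a0
  have h2 := h.a1
  have h3 := h.b1
  unfold wt
  by_cases hp : pv v = true
  · simp only [hp, if_true]; exact h3
  · simp only [hp, if_true]
    rw [if_neg (by simp), abs_of_nonneg h1]; exact h2

theorem wt_false_bd {α β ε : ℝ} {N : ℕ} (h : Par α β ε N) (v : Vtx n) :
    1 - 2 * ε ≤ wt α β v false ∧ wt α β v false ≤ 1 + 2 * ε := by
  have h0 := h.e0
  have h1 := h.a0
  have h2 := h.a1
  have h3 := abs_le.mp h.b1
  unfold wt
  by_cases hp : pv v = true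
  · simp [hp]
    constructor <;> linarith [h3.1, h3.2]
  · simp [hp]
    constructor <;> linarith [h3.1, h3.2]

theorem wt_abs {α β ε : ℝ} {N : ℕ} (h : Par α β ε N) (hN : 1 ≤ N) (v : Vtx n) (b : Bool) :
    |wt α β v b| ≤ 1 + 2 * ε := by
  have h0 := h.e0
  have hs := h.small hN
  cases b
  · have := wt_false_bd h v
    rw [abs_le]
    constructor <;> linarith [this.1, this.2]
  · exact (wt_true_abs h v).trans (by linarith)

theorem agree_ref_small {α β ε : ℝ} (h : Par α β ε (2 ^ n)) {T : Set (Vtx n)} (hT : ConnS T)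
    {a : Vtx n → Bool} (h1 : NCon a T) :
    |ex (refm (wt α β)) (ind (Agree a T))| ≤ 8 * ε := by
  obtain ⟨x, hx, y, hy, hxy⟩ := h1
  have hN : 1 ≤ 2 ^ n := Nat.one_le_two_pow
  have e0 := h.e0
  have hp : (1 + 2 * ε) ^ (2 ^ n) ≤ 2 := pow_two_bound h.e0 h.e1
  rw [ex_pair (wt α β) (wt_sum α β) ⟨x, hx⟩ a _ (agree_cutf hT a)]
  have key : ∀ a : Vtx n → Bool, ∀ z ∈ T, a z = true →
      |∏ v, (if v ∈ T then wt α β v (a v) else 1)| ≤ 4 * ε := by
    intro a z hz haz
    refine (prod_bound (r := 1 + 2 * ε) (s := 2 * ε) (by linarith) ?_ z ?_).trans ?_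
    · intro v
      by_cases hv : v ∈ T
      · rw [if_pos hv]; exact wt_abs h hN v _
      · rw [if_neg hv, abs_one]; linarith
    · rw [if_pos hz, haz]; exact wt_true_abs h z
    · nlinarith
  have k1 : |∏ v, (if v ∈ T then wt α β v (a v) else 1)| ≤ 4 * ε := by
    cases hax : a x
    · exact key a y hy (by rw [hax] at hxy; revert hxy; cases a y <;> simp)
    · exact key a x hx hax
  have k2 : |∏ v, (if v ∈ T then wt α β v (!(a v)) else 1)| ≤ 4 * ε := by
    cases hax : a x
    · exact key (fun v => !(a v)) x hx (by simp [hax])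
    · exact key (fun v => !(a v)) y hy (by rw [hax] at hxy; revert hxy; cases a y <;> simp)
  exact (abs_add_le _ _).trans (by linarith)

theorem ex_cl_ref {α β ε : ℝ} {N : ℕ} (h : Par α β ε N) (v : Vtx n) (i : Fin n) :
    ex (refm (wt α β)) (ind fun c => c v i = true) = ε := by
  rw [ex_cl _ (wt_sum α β)]
  have e := pv_fl v i
  rw [← h.eq]
  unfold wt
  rw [e]
  cases pv v <;> simp <;> ring

/-! ### the value at a cut -/

theorem cutf_eq_iff (hn : 1 ≤ n) (a b : Vtx n → Bool) :
    cutf b = cutf a ↔ b = a ∨ b = fun v => !(a v) := by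
  constructor
  · intro h
    rcases univ_conn hn b a (fun v i _ _ => by rw [h]) with h' | h'
    · left; funext v; exact h' v (Set.mem_univ _)
    · right; funext v; exact h' v (Set.mem_univ _)
  · rintro (rfl | rfl)
    · rfl
    · exact cutf_not a

theorem refm_cutf (hn : 1 ≤ n) (w : Vtx n → Bool → ℝ) (a : Vtx n → Bool) :
    refm w (cutf a) = pw w a + pw w (fun v => !(a v)) := by
  unfold refm
  have hne : a ≠ fun v => !(a v) := by
    intro h
    have := congrFun h (fun _ => false)
    simp at this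
  rw [Fintype.sum_eq_add a (fun v => !(a v)) hne]
  · rw [if_pos rfl, if_pos (cutf_not a)]
  · rintro b ⟨h1, h2⟩
    rw [if_neg]
    intro h
    rcases (cutf_eq_iff hn a b).mp h with h' | h'
    · exact h1 h'
    · exact h2 h'

/-- the indicator of a vertex -/
noncomputable def sg (u : Vtx n) : Vtx n → Bool := fun v => decide (v = u)

theorem psi_le {c : Cfg n} (hc : SymC c) {v : Vtx n} {i : Fin n} (h : psi c v i = true) :
    c v i = true := by
  unfold psi at h
  split_ifs at h with hE
  · unfold cutf fullf at h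
    by_cases h1 : ∀ k, c v k = true
    · exact h1 i
    · by_cases h2 : ∀ k, c (fl v i) k = true
      · rw [← hc]; exact h2 i
      · simp [h1, h2] at h
  · exact h

theorem mh_le_pcl {m : Cfg n → ℝ} (hm : Good m) {d : Cfg n} {v : Vtx n} {i : Fin n}
    (h : d v i = true) : mh m d ≤ pcl m v i := by
  apply ex_mono hm.nonneg
  intro c hc
  by_cases hd : psi c = d
  · have : c v i = true := psi_le (hm.sym c hc) (by rw [hd]; exact h)
    rw [ind_true (P := fun c => psi c = d) hd, ind_true (P := fun c => c v i = true) this]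
  · rw [ind_false (P := fun c => psi c = d) hd]
    exact ind_nonneg _ _

theorem mh_nonneg {m : Cfg n → ℝ} (hm : Good m) (d : Cfg n) : 0 ≤ mh m d :=
  ex_nonneg hm.nonneg fun c => ind_nonneg _ c

theorem cutf_sg (u : Vtx n) (i : Fin n) : cutf (sg u) u i = true := by
  unfold cutf sg
  simp [fl_neq]

theorem phi_cont {ε : ℝ} (h1 : ε * (8 * (2 ^ n : ℕ)) ≤ 1) (d : Cfg n) :
    ContinuousOn (fun α : ℝ => refm (n := n) (wt α ((ε - α) / (1 - 2 * α))) d)
      (Set.Icc 0 (2 * ε)) := by
  have hN : (1 : ℝ) ≤ (2 ^ n : ℕ) := by exact_mod_cast Nat.one_le_two_pow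
  have hne : ∀ α ∈ Set.Icc (0 : ℝ) (2 * ε), 1 - 2 * α ≠ 0 := by
    rintro α ⟨h2, h3⟩ h4
    have : 0 ≤ ε := by linarith
    nlinarith
  unfold refm
  apply continuousOn_finsetSum
  intro a _
  by_cases ha : cutf a = d
  · simp only [ha, if_true]
    unfold pw
    apply continuousOn_finsetProd
    intro v _
    unfold wt
    have hc : ContinuousOn (fun α : ℝ => (ε - α) / (1 - 2 * α)) (Set.Icc 0 (2 * ε)) := by
      apply ContinuousOn.div
      · fun_prop
      · fun_prop
      · exact hne
    by_cases hp : pv v = true <;> by_cases hb : a v = true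
    · simp only [hp, hb, if_true]; exact hc
    · simp only [hp, hb, if_true]
      simp only [Bool.false_eq_true, if_false]
      exact continuousOn_const.sub hc
    · simp only [hp, hb, if_true]
      simp only [Bool.false_eq_true, if_false]
      exact continuousOn_id
    · simp only [hp, hb]
      simp only [Bool.false_eq_true, if_false]
      exact continuousOn_const.sub continuousOn_id
  · simp only [ha, if_false]
    exact continuousOn_const

theorem exists_par (hn : 3 ≤ n) {ε x : ℝ} (e0 : 0 ≤ ε) (e1 : ε * (8 * (2 ^ n : ℕ)) ≤ 1)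
    (x0 : 0 ≤ x) (x1 : x ≤ ε) :
    ∃ α β, Par α β ε (2 ^ n) ∧ refm (wt α β) (cutf (sg (gc n 0))) = x := by
  have hN : (8 : ℝ) ≤ (2 ^ n : ℕ) := by
    have : 2 ^ 3 ≤ 2 ^ n := Nat.pow_le_pow_right (by norm_num) hn
    exact_mod_cast this
  have par : ∀ α ∈ Set.Icc (0 : ℝ) (2 * ε), Par α ((ε - α) / (1 - 2 * α)) ε (2 ^ n) := by
    rintro α ⟨h2, h3⟩
    have hpos : 1 / 2 ≤ 1 - 2 * α := by nlinarith
    refine ⟨e0, e1, h2, h3, ?_, ?_⟩
    · rw [abs_div, abs_of_pos (by linarith : 0 < 1 - 2 * α), div_le_iff₀ (by linarith)]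
      have : |ε - α| ≤ ε := by rw [abs_le]; constructor <;> linarith
      nlinarith
    · have hne : 1 - 2 * α ≠ 0 := by
        intro h; rw [h] at hpos; norm_num at hpos
      have : α + (ε - α) / (1 - 2 * α) - 2 * α * ((ε - α) / (1 - 2 * α)) =
          α + (ε - α) / (1 - 2 * α) * (1 - 2 * α) := by ring
      rw [this, div_mul_cancel₀ _ hne]
      ring
  have pvu : pv (gc n 0 : Vtx n) = false := by
    have h0 : (gc n 0 : Vtx n) = fun _ => false := by
      unfold gc
      rw [Nat.zero_mod]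
      exact gray_zero n
    rw [h0]
    unfold pv
    simp
  set u : Vtx n := gc n 0 with hu
  have i0 : Fin n := ⟨0, by omega⟩
  -- a second even vertex
  obtain ⟨u', hu', hpu'⟩ : ∃ u' : Vtx n, u' ≠ u ∧ pv u' = false := by
    refine ⟨fl (fl u ⟨0, by omega⟩) ⟨1, by omega⟩, ?_, ?_⟩
    · intro h
      have := congrFun h ⟨0, by omega⟩
      rw [fl_ne _ (by simp), fl_same] at this
      simp at this
    · rw [pv_fl, pv_fl, pvu]; rfl
  -- a third vertex
  set u'' : Vtx n := fl u ⟨0, by omega⟩ with hu''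
  have hu1 : u'' ≠ u := fl_neq _ _
  have hu2 : u'' ≠ u' := by
    intro h
    have : pv u'' = true := by rw [hu'', pv_fl, pvu]; rfl
    rw [h, hpu'] at this
    exact absurd this (by simp)
  set φ : ℝ → ℝ := fun α => refm (n := n) (wt α ((ε - α) / (1 - 2 * α))) (cutf (sg u)) with hφ
  have f0 : φ 0 = 0 := by
    simp only [hφ]
    rw [refm_cutf (by omega)]
    have e1 : pw (wt 0 ((ε - 0) / (1 - 2 * 0))) (sg u) = 0 := by
      apply Finset.prod_eq_zero (Finset.mem_univ u)
      unfold wt sg
      simp [pvu]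
    have e2 : pw (wt 0 ((ε - 0) / (1 - 2 * 0))) (fun v => !(sg u v)) = 0 := by
      apply Finset.prod_eq_zero (Finset.mem_univ u')
      unfold wt sg
      simp [hpu', hu']
    rw [e1, e2]; ring
  have f1 : ε ≤ φ (2 * ε) := by
    simp only [hφ]
    rw [refm_cutf (by omega)]
    have hP := par (2 * ε) ⟨by linarith, le_refl _⟩
    set β := (ε - 2 * ε) / (1 - 2 * (2 * ε)) with hβ
    have hs := hP.small Nat.one_le_two_pow
    have hp2 : (1 + 2 * ε) ^ (2 ^ n) ≤ 2 := pow_two_bound e0 e1
    have e2 : |pw (wt (2 * ε) β) (fun v => !(sg u v))| ≤ 2 * ε * (2 * ε) * 2 := by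
      unfold pw
      refine (prod_bound2 (r := 1 + 2 * ε) (s := 2 * ε) (by linarith) ?_ hu2 ?_ ?_).trans ?_
      · intro v; exact wt_abs hP Nat.one_le_two_pow v _
      · have : (fun v => !(sg u v)) u'' = true := by simp [sg, hu1]
        rw [this]; exact wt_true_abs hP _
      · have : (fun v => !(sg u v)) u' = true := by simp [sg, hu']
        rw [this]; exact wt_true_abs hP _
      · exact mul_le_mul_of_nonneg_left hp2 (by positivity)
    have e3 : 2 * ε * (1 - 2 * ε * (2 ^ n : ℕ)) ≤ pw (wt (2 * ε) β) (sg u) := by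
      unfold pw
      rw [← Finset.mul_prod_erase Finset.univ _ (Finset.mem_univ u)]
      have h4 : wt (2 * ε) β u (sg u u) = 2 * ε := by
        unfold wt sg
        simp [pvu]
      rw [h4]
      apply mul_le_mul_of_nonneg_left _ (by linarith)
      have h5 : ∏ _v ∈ (Finset.univ : Finset (Vtx n)).erase u, (1 - 2 * ε) ≤
          ∏ v ∈ (Finset.univ : Finset (Vtx n)).erase u, wt (2 * ε) β v (sg u v) := by
        apply Finset.prod_le_prod
        · intro v _; linarith
        · intro v hv
          have : sg u v = false := by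
            unfold sg
            simp [(Finset.mem_erase.mp hv).1]
          rw [this]
          exact (wt_false_bd hP v).1
      refine le_trans ?_ h5
      rw [Finset.prod_const]
      have h6 : (1 : ℝ) + ((2 ^ n : ℕ) : ℝ) * (-(2 * ε)) ≤ (1 + (-(2 * ε))) ^ (2 ^ n) := by
        apply one_add_mul_le_pow
        linarith
      have h7 : (1 + (-(2 * ε))) ^ (2 ^ n) ≤
          (1 - 2 * ε) ^ ((Finset.univ : Finset (Vtx n)).erase u).card := by
        rw [← sub_eq_add_neg]
        apply pow_le_pow_of_le_one (by linarith) (by linarith)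
        calc ((Finset.univ : Finset (Vtx n)).erase u).card ≤ (Finset.univ : Finset (Vtx n)).card :=
              Finset.card_erase_le
          _ = 2 ^ n := by rw [Finset.card_univ, Fintype.card_fun]; simp
      linarith
    have e4 := (abs_le.mp e2).1
    nlinarith
  have cont := phi_cont e1 (cutf (sg u))
  have ivt := intermediate_value_Icc (by linarith : (0 : ℝ) ≤ 2 * ε) cont
  obtain ⟨α, hα, hx⟩ := ivt (show x ∈ Set.Icc (φ 0) (φ (2 * ε)) from ⟨by rw [f0]; exact x0, by linarith⟩)
  exact ⟨α, _, par α hα, hx⟩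

end Pool.Agent.helper40.Signs
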