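import Pool.Agent.helper40.Signs.Config

/-! Signed weights on configurations; the product (signs) law. -/

namespace Pool.Agent.helper40.Signs

open Classical

variable {n : ℕ}

/-- expectation -/
noncomputable def ex (m : Cfg n → ℝ) (F : Cfg n → ℝ) : ℝ := ∑ c, m c * F c

noncomputable def ind (P : Cfg n → Prop) : Cfg n → ℝ := fun c => if P c then 1 else 0

def Local (S : Set (Vtx n)) (F : Cfg n → ℝ) : Prop :=
  ∀ c d : Cfg n, (∀ v i, v ∈ S → fl v i ∈ S → c v i = d v i) → F c = F d

/-- one-independence of a (signed) weight -/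
def Indep1 (m : Cfg n → ℝ) : Prop :=
  ∀ S T : Set (Vtx n), (∀ v, v ∈ S → v ∉ T) → ∀ F G : Cfg n → ℝ, Local S F → Local T G →
    ex m (fun c => F c * G c) = ex m F * ex m G

theorem ind_nonneg (P : Cfg n → Prop) (c : Cfg n) : 0 ≤ ind P c := by
  unfold ind; split_ifs <;> norm_num

theorem ind_le_one (P : Cfg n → Prop) (c : Cfg n) : ind P c ≤ 1 := by
  unfold ind; split_ifs <;> norm_num

theorem ind_true {P : Cfg n → Prop} {c : Cfg n} (h : P c) : ind P c = 1 := if_pos h

theorem ind_false {P : Cfg n → Prop} {c : Cfg n} (h : ¬ P c) : ind P c = 0 := if_neg h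

theorem ex_add (m : Cfg n → ℝ) (F G : Cfg n → ℝ) : ex m (fun c => F c + G c) = ex m F + ex m G := by
  unfold ex
  rw [← Finset.sum_add_distrib]
  exact Finset.sum_congr rfl fun c _ => by ring

theorem ex_sub (m : Cfg n → ℝ) (F G : Cfg n → ℝ) : ex m (fun c => F c - G c) = ex m F - ex m G := by
  unfold ex
  rw [← Finset.sum_sub_distrib]
  exact Finset.sum_congr rfl fun c _ => by ring

theorem ex_smul (m : Cfg n → ℝ) (r : ℝ) (F : Cfg n → ℝ) : ex m (fun c => r * F c) = r * ex m F := by
  unfold ex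
  rw [Finset.mul_sum]
  exact Finset.sum_congr rfl fun c _ => by ring

theorem ex_sum {ι : Type*} (s : Finset ι) (m : Cfg n → ℝ) (F : ι → Cfg n → ℝ) :
    ex m (fun c => ∑ i ∈ s, F i c) = ∑ i ∈ s, ex m (F i) := by
  unfold ex
  rw [Finset.sum_comm]
  exact Finset.sum_congr rfl fun c _ => by rw [Finset.mul_sum]

/-- monotonicity on the support -/
theorem ex_mono {m : Cfg n → ℝ} (hm : ∀ c, 0 ≤ m c) {F G : Cfg n → ℝ}
    (h : ∀ c, m c ≠ 0 → F c ≤ G c) : ex m F ≤ ex m G := by
  unfold ex
  apply Finset.sum_le_sum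
  intro c _
  by_cases hc : m c = 0
  · rw [hc]; simp
  · exact mul_le_mul_of_nonneg_left (h c hc) (hm c)

theorem ex_congr {m : Cfg n → ℝ} {F G : Cfg n → ℝ}
    (h : ∀ c, m c ≠ 0 → F c = G c) : ex m F = ex m G := by
  unfold ex
  apply Finset.sum_congr rfl
  intro c _
  by_cases hc : m c = 0
  · rw [hc]; simp
  · rw [h c hc]

theorem ex_abs_le {m : Cfg n → ℝ} (hm : ∀ c, 0 ≤ m c) {F G : Cfg n → ℝ}
    (h : ∀ c, m c ≠ 0 → |F c| ≤ G c) : |ex m F| ≤ ex m G := by
  rw [abs_le]
  constructor
  · have : ex m (fun c => (-1) * G c) ≤ ex m F := ex_mono hm fun c hc => by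
      have := (abs_le.mp (h c hc)).1; linarith
    rw [ex_smul] at this
    linarith
  · exact ex_mono hm fun c hc => (abs_le.mp (h c hc)).2

theorem ex_nonneg {m : Cfg n → ℝ} (hm : ∀ c, 0 ≤ m c) {F : Cfg n → ℝ}
    (h : ∀ c, 0 ≤ F c) : 0 ≤ ex m F :=
  Finset.sum_nonneg fun c _ => mul_nonneg (hm c) (h c)

theorem local_mono {S T : Set (Vtx n)} (h : S ⊆ T) {F : Cfg n → ℝ} (hF : Local S F) : Local T F :=
  fun c d hcd => hF c d fun v i hv hi => hcd v i (h hv) (h hi)

/-! ### product weights -/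

/-- product weight of a sign vector -/
noncomputable def pw (w : Vtx n → Bool → ℝ) (a : Vtx n → Bool) : ℝ := ∏ v, w v (a v)

theorem pw_sum_on (w : Vtx n → Bool → ℝ) (hw : ∀ v, w v true + w v false = 1)
    (a : Vtx n → Bool) (T : Set (Vtx n)) :
    ∑ b : Vtx n → Bool, (if ∀ v ∈ T, b v = a v then pw w b else 0) =
      ∏ v, (if v ∈ T then w v (a v) else 1) := by
  have h1 : ∀ v, (if v ∈ T then w v (a v) else 1) =
      ∑ s ∈ (if v ∈ T then {a v} else Finset.univ : Finset Bool), w v s := by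
    intro v
    by_cases hv : v ∈ T
    · rw [if_pos hv, if_pos hv, Finset.sum_singleton]
    · rw [if_neg hv, if_neg hv, Fintype.sum_bool, hw v]
  rw [Finset.prod_congr rfl fun v _ => h1 v, Finset.prod_univ_sum, ← Finset.sum_filter]
  apply Finset.sum_congr
  · ext b
    rw [Finset.mem_filter, Fintype.mem_piFinset]
    constructor
    · rintro ⟨_, h⟩ v
      by_cases hv : v ∈ T
      · rw [if_pos hv, Finset.mem_singleton]; exact h v hv
      · rw [if_neg hv]; exact Finset.mem_univ _
    · intro h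
      refine ⟨Finset.mem_univ _, fun v hv => ?_⟩
      have := h v
      rw [if_pos hv, Finset.mem_singleton] at this
      exact this
  · intro b _; rfl

theorem pw_total (w : Vtx n → Bool → ℝ) (hw : ∀ v, w v true + w v false = 1) :
    ∑ b : Vtx n → Bool, pw w b = 1 := by
  have := pw_sum_on w hw (fun _ => true) ∅
  simp only [Set.mem_empty_iff_false, false_implies, implies_true, if_true, if_false] at this
  rw [this]; simp

/-- independence under the product weight -/
theorem pw_indep (w : Vtx n → Bool → ℝ) (hw : ∀ v, w v true + w v false = 1)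
    (S : Set (Vtx n)) (F G : (Vtx n → Bool) → ℝ)
    (hF : ∀ a b, (∀ v ∈ S, a v = b v) → F a = F b)
    (hG : ∀ a b, (∀ v, v ∉ S → a v = b v) → G a = G b) :
    ∑ a, pw w a * (F a * G a) = (∑ a, pw w a * F a) * (∑ a, pw w a * G a) := by
  set e := Equiv.piEquivPiSubtypeProd (fun v : Vtx n => v ∈ S) (fun _ => Bool) with he
  set W1 : ({v : Vtx n // v ∈ S} → Bool) → ℝ := fun b => ∏ v, w v.1 (b v) with hW1
  set W2 : ({v : Vtx n // v ∉ S} → Bool) → ℝ := fun b => ∏ v, w v.1 (b v) with hW2
  have hpw : ∀ p, pw w (e.symm p) = W1 p.1 * W2 p.2 := by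
    rintro ⟨b, c⟩
    unfold pw
    rw [← Fintype.prod_subtype_mul_prod_subtype (fun v : Vtx n => v ∈ S)]
    congr 1
    · apply Finset.prod_congr rfl
      rintro ⟨v, hv⟩ _
      simp [he, Equiv.piEquivPiSubtypeProd, hv]
    · apply Finset.prod_congr rfl
      rintro ⟨v, hv⟩ _
      simp [he, Equiv.piEquivPiSubtypeProd, hv]
  set F' : ({v : Vtx n // v ∈ S} → Bool) → ℝ := fun b => F (e.symm (b, fun _ => false)) with hF'
  set G' : ({v : Vtx n // v ∉ S} → Bool) → ℝ := fun c => G (e.symm (fun _ => false, c)) with hG'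
  have hFe : ∀ p, F (e.symm p) = F' p.1 := by
    rintro ⟨b, c⟩
    apply hF
    intro v hv
    simp [he, Equiv.piEquivPiSubtypeProd, hv]
  have hGe : ∀ p, G (e.symm p) = G' p.2 := by
    rintro ⟨b, c⟩
    apply hG
    intro v hv
    simp [he, Equiv.piEquivPiSubtypeProd, hv]
  have tr : ∀ H : (Vtx n → Bool) → ℝ, ∑ a, H a = ∑ p, H (e.symm p) := fun H =>
    (Equiv.sum_comp e.symm H).symm
  have tot1 : ∑ b, W1 b = 1 := by
    have := Finset.prod_univ_sum (fun _ : {v : Vtx n // v ∈ S} => (Finset.univ : Finset Bool))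
      (fun v s => w v.1 s)
    rw [Fintype.piFinset_univ] at this
    rw [← this]
    apply Finset.prod_eq_one
    intro v _
    rw [Fintype.sum_bool, hw]
  have tot2 : ∑ b, W2 b = 1 := by
    have := Finset.prod_univ_sum (fun _ : {v : Vtx n // v ∉ S} => (Finset.univ : Finset Bool))
      (fun v s => w v.1 s)
    rw [Fintype.piFinset_univ] at this
    rw [← this]
    apply Finset.prod_eq_one
    intro v _
    rw [Fintype.sum_bool, hw]
  rw [tr, tr, tr]
  simp only [hpw, hFe, hGe]
  rw [Fintype.sum_prod_type, Fintype.sum_prod_type, Fintype.sum_prod_type]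
  have e1 : ∑ x, ∑ y, W1 x * W2 y * F' x = ∑ x, W1 x * F' x := by
    apply Finset.sum_congr rfl
    intro x _
    calc ∑ y, W1 x * W2 y * F' x = ∑ y, (W1 x * F' x) * W2 y :=
          Finset.sum_congr rfl fun y _ => by ring
      _ = W1 x * F' x := by rw [← Finset.mul_sum, tot2, mul_one]
  have e2 : ∑ x, ∑ y, W1 x * W2 y * G' y = ∑ y, W2 y * G' y := by
    rw [Finset.sum_comm]
    apply Finset.sum_congr rfl
    intro y _
    calc ∑ x, W1 x * W2 y * G' y = ∑ x, (W2 y * G' y) * W1 x :=
          Finset.sum_congr rfl fun x _ => by ring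
      _ = W2 y * G' y := by rw [← Finset.mul_sum, tot1, mul_one]
  rw [e1, e2, Finset.sum_mul_sum]
  apply Finset.sum_congr rfl
  intro x _
  apply Finset.sum_congr rfl
  intro y _
  ring

/-- push-forward of the product weight to configurations -/
noncomputable def refm (w : Vtx n → Bool → ℝ) : Cfg n → ℝ :=
  fun c => ∑ a : Vtx n → Bool, if cutf a = c then pw w a else 0

theorem ex_refm (w : Vtx n → Bool → ℝ) (F : Cfg n → ℝ) :
    ex (refm w) F = ∑ a, pw w a * F (cutf a) := by
  unfold ex refm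
  simp only [Finset.sum_mul]
  rw [Finset.sum_comm]
  apply Finset.sum_congr rfl
  intro a _
  rw [Finset.sum_eq_single (cutf a)]
  · rw [if_pos rfl]
  · intro c _ hc
    rw [if_neg (Ne.symm hc), zero_mul]
  · intro h; exact absurd (Finset.mem_univ _) h

theorem refm_indep (w : Vtx n → Bool → ℝ) (hw : ∀ v, w v true + w v false = 1) :
    Indep1 (refm w) := by
  intro S T hST F G hF hG
  rw [ex_refm, ex_refm, ex_refm]
  apply pw_indep w hw S
  · intro a b hab
    apply hF
    intro v i hv hi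
    exact cutf_congr (hab v hv) (hab _ hi)
  · intro a b hab
    apply hG
    intro v i hv hi
    exact cutf_congr (hab v fun h => hST v h hv) (hab _ fun h => hST _ h hi)

theorem refm_supp (w : Vtx n → Bool → ℝ) {c : Cfg n} (h : refm w c ≠ 0) : ∃ a, c = cutf a := by
  by_contra hcon
  push Not at hcon
  apply h
  unfold refm
  apply Finset.sum_eq_zero
  intro a _
  rw [if_neg (Ne.symm (hcon a))]

theorem refm_total (w : Vtx n → Bool → ℝ) (hw : ∀ v, w v true + w v false = 1) :
    ∑ c, refm w c = 1 := by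
  have := ex_refm w (fun _ => 1)
  unfold ex at this
  simp only [mul_one] at this
  rw [this, pw_total w hw]

end Pool.Agent.helper40.Signs
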